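import Pool.Agent.H57.AN.Df
import Pool.Agent.H63.MA.ADivJ

/-!
# [H57 AN FAM] Families of labels over a given set of primes, counts (140 lines)

`fam_card`: the map `b ↦ (v ↦ the unique w ∈ b over v)` into `∏_{v ∈ t} {w : dn K w = v}` (fibres of at most `d` elements by `fib`; the fibres are finite:
`over_finite`, `dn_eq`) is injective. (Or induction on `t`.)
`fam_sum`: group by `t = dns K b` (`Ok.nr`: `nr t = nr b ≤ x`, so `t ∈ AF K x`; `Finset.sum_fiberwise_of_maps_to`), then `fam_card`.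
`fam_cnt`: `fam_sum` with `f = 1` and `af_pow K d`.
`fam_short`: `T` = the `t = dns K b`, `b ∈ B`: `y < nr t ≤ (1 + θ) y`; `#B ≤ ∑_{t ∈ T} d^#t ≤ (#T)^(3/4) (∑_{t ∈ T} d^(4 #t))^(1/4)` (Hölder,
`Real.inner_le_Lp_mul_Lq` with exponents `4/3`, `4`, or Cauchy-Schwarz twice); `#T ≤ C (θ y + y^(1-δ))` by `af_short K`,
`∑_{t ∈ AF K (2 y)} (d^4)^#t ≤ C y (1 + log y)^A` by `af_pow K (d ^ 4)`.
-/

set_option autoImplicit false

open scoped NumberField
open NumberField IsDedekindDomain H63.MA H36.QA H57.TLS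
open scoped Classical

noncomputable section

namespace H57.AN

theorem fam_card (K : Type) [Field K] [NumberField K] {L : Type} [Field L] [NumberField L] [Algebra K L] {d : ℕ}
    (hd : Module.finrank K L ≤ d) (t : Finset (Pl K)) (S : Finset (Finset (Pl L))) (hS : ∀ b ∈ S, Ok K b ∧ dns K b = t) :
    S.card ≤ d ^ t.card := by
  let F : t → Finset (Pl L) := fun v => (over_finite (L := L) (v : Pl K)).toFinset
  have hF : ∀ (v : t) (w : Pl L), w ∈ F v ↔ dn K w = v := by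
    intro v w
    rw [Set.Finite.mem_toFinset]
    exact ⟨fun h => dn_eq K h, fun h => h ▸ dn_over K w⟩
  let g : Finset (Pl L) → (t → Finset (Pl L)) := fun b v => b.filter fun w => dn K w = v
  have h1 : S.card ≤ (Fintype.piFinset fun v : t =>
      (F v).image fun w => ({w} : Finset (Pl L))).card := by
    refine Finset.card_le_card_of_injOn g ?_ ?_
    · intro b hb
      obtain ⟨hok, hbt⟩ := hS b hb
      rw [Finset.mem_coe, Fintype.mem_piFinset]
      intro v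
      have hv : (v : Pl K) ∈ dns K b := by rw [hbt]; exact v.2
      obtain ⟨w, hw, hwv⟩ := Finset.mem_image.1 hv
      rw [Finset.mem_image]
      refine ⟨w, (hF v w).2 hwv, ?_⟩
      ext w'
      rw [Finset.mem_singleton, Finset.mem_filter]
      constructor
      · rintro rfl
        exact ⟨hw, hwv⟩
      · rintro ⟨hw', hwv'⟩
        exact hok.inj hw' hw (hwv'.trans hwv.symm)
    · intro b hb b' hb' hgg
      obtain ⟨-, hbt⟩ := hS b hb
      obtain ⟨-, hbt'⟩ := hS b' hb'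
      ext w
      constructor
      · intro hw
        have hv : dn K w ∈ t := by
          rw [← hbt]
          exact Finset.mem_image_of_mem _ hw
        have h2 : w ∈ g b ⟨dn K w, hv⟩ := Finset.mem_filter.2 ⟨hw, rfl⟩
        rw [hgg] at h2
        exact (Finset.mem_filter.1 h2).1
      · intro hw
        have hv : dn K w ∈ t := by
          rw [← hbt']
          exact Finset.mem_image_of_mem _ hw
        have h2 : w ∈ g b' ⟨dn K w, hv⟩ := Finset.mem_filter.2 ⟨hw, rfl⟩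
        rw [← hgg] at h2
        exact (Finset.mem_filter.1 h2).1
  refine h1.trans ?_
  rw [Fintype.card_piFinset]
  calc ∏ v : t, ((F v).image fun w => ({w} : Finset (Pl L))).card ≤ ∏ _v : t, d := by
        refine Finset.prod_le_prod' fun v _ => ?_
        refine Finset.card_image_le.trans ((fib K (v : Pl K) (F v) fun w hw => (hF v w).1 hw).trans hd)
    _ = d ^ t.card := by
        rw [Finset.prod_const, Finset.card_univ, Fintype.card_coe]

theorem fam_sum (K : Type) [Field K] [NumberField K] {L : Type} [Field L] [NumberField L] [Algebra K L] {d : ℕ}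
    (hd : Module.finrank K L ≤ d) (B : Finset (Finset (Pl L))) (x : ℝ) (hB : ∀ b ∈ B, Ok K b ∧ nr b ≤ x)
    (f : Finset (Pl K) → ℝ) (hf : ∀ t, 0 ≤ f t) :
    ∑ b ∈ B, f (dns K b) ≤ ∑ t ∈ AF K x, (d : ℝ) ^ t.card * f t := by
  have hm : ∀ b ∈ B, dns K b ∈ AF K x := by
    intro b hb
    rw [mem_AF, (hB b hb).1.nr]
    exact (hB b hb).2
  rw [← Finset.sum_fiberwise_of_maps_to hm]
  refine Finset.sum_le_sum fun t _ => ?_
  have h1 : ∑ b ∈ B with dns K b = t, f (dns K b) =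
      ((B.filter fun b => dns K b = t).card : ℝ) * f t := by
    rw [Finset.sum_congr rfl (fun b hb => by rw [(Finset.mem_filter.1 hb).2] :
      ∀ b ∈ B.filter (fun b => dns K b = t), f (dns K b) = f t), Finset.sum_const, nsmul_eq_mul]
  rw [h1]
  refine mul_le_mul_of_nonneg_right ?_ (hf t)
  have h2 := fam_card K hd t (B.filter fun b => dns K b = t) fun b hb =>
    ⟨(hB b (Finset.mem_filter.1 hb).1).1, (Finset.mem_filter.1 hb).2⟩
  exact_mod_cast h2

private theorem fam_pow_ceil {z : ℝ} (hz : 1 ≤ z) (A : ℝ) : z ^ A ≤ z ^ (⌈A⌉₊ : ℕ) := by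
  rw [← Real.rpow_natCast]
  exact Real.rpow_le_rpow_of_exponent_le hz (Nat.le_ceil A)

theorem fam_cnt (K : Type) [Field K] [NumberField K] (d : ℕ) : ∃ (C : ℝ) (A : ℕ), 1 ≤ C ∧
    ∀ (L : Type) [Field L] [NumberField L] [Algebra K L], Module.finrank K L ≤ d → ∀ x : ℝ, 1 ≤ x →
      ∀ B : Finset (Finset (Pl L)), (∀ b ∈ B, Ok K b ∧ nr b ≤ x) → (B.card : ℝ) ≤ C * x * (1 + Real.log x) ^ A := by
  obtain ⟨C, A, hC, hA, h⟩ := af_pow K d
  refine ⟨max C 1, ⌈A⌉₊, le_max_right _ _, fun L _ _ _ hd x hx B hB => ?_⟩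
  have hl : 0 ≤ Real.log x := Real.log_nonneg hx
  have h1 := fam_sum K hd B x hB (fun _ => 1) (fun _ => zero_le_one)
  simp only [Finset.sum_const, nsmul_eq_mul, mul_one] at h1
  refine h1.trans ((h x hx).1.trans ?_)
  have h2 := fam_pow_ceil (by linarith : 1 ≤ 1 + Real.log x) A
  have h3 : 0 ≤ (1 + Real.log x) ^ A := Real.rpow_nonneg (by linarith) _
  exact mul_le_mul (mul_le_mul_of_nonneg_right (le_max_left _ _) (by linarith)) h2 h3
    (mul_nonneg (by positivity) (by linarith))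

private theorem fam_hold {ι : Type*} (T : Finset ι) (f : ι → ℝ) (hf : ∀ i, 0 ≤ f i) :
    ∑ i ∈ T, f i ≤ (T.card : ℝ) ^ (3 / 4 : ℝ) * (∑ i ∈ T, f i ^ 4) ^ (1 / 4 : ℝ) := by
  have hpq : (4 / 3 : ℝ).HolderConjugate 4 := by
    rw [Real.holderConjugate_iff]
    constructor <;> norm_num
  have h := Real.inner_le_Lp_mul_Lq T (fun _ => (1 : ℝ)) f hpq
  simp only [one_mul, abs_one, Real.one_rpow, Finset.sum_const, nsmul_eq_mul, mul_one] at h
  have h1 : (1 / (4 / 3) : ℝ) = 3 / 4 := by norm_num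
  rw [h1] at h
  have h2 : ∑ i ∈ T, |f i| ^ (4 : ℝ) = ∑ i ∈ T, f i ^ 4 := by
    refine Finset.sum_congr rfl fun i _ => ?_
    rw [abs_of_nonneg (hf i)]
    exact_mod_cast Real.rpow_natCast (f i) 4
  rw [h2] at h
  exact h

theorem fam_short (K : Type) [Field K] [NumberField K] (d : ℕ) : ∃ (C : ℝ) (A : ℕ) (δ : ℝ), 1 ≤ C ∧ 0 < δ ∧ δ < 1 ∧
    ∀ (L : Type) [Field L] [NumberField L] [Algebra K L], Module.finrank K L ≤ d → ∀ y θ : ℝ, 1 ≤ y → 0 ≤ θ → θ ≤ 1 →
      ∀ B : Finset (Finset (Pl L)), (∀ b ∈ B, Ok K b ∧ y < nr b ∧ nr b ≤ (1 + θ) * y) →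
        (B.card : ℝ) ≤ C * (1 + Real.log y) ^ A * ((θ + y ^ (-δ)) ^ (3 / 4 : ℝ) * y) := by
  obtain ⟨C1, δ, hC1, hδ, hδ1, hs⟩ := af_short K
  obtain ⟨C2, A, hC2, hA, hp⟩ := af_pow K (d ^ 4)
  set C3 : ℝ := 2 * C2 * (2 : ℝ) ^ A with hC3def
  have hC3 : 0 < C3 := by positivity
  refine ⟨max 1 (C1 ^ (3 / 4 : ℝ) * C3 ^ (1 / 4 : ℝ)), ⌈A / 4⌉₊, δ, le_max_left _ _, hδ, hδ1,
    fun L _ _ _ hd y θ hy hθ hθ1 B hB => ?_⟩
  have hy0 : 0 < y := by linarith
  have hl : 0 ≤ Real.log y := Real.log_nonneg hy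
  set T := (AF K ((1 + θ) * y)).filter fun n => y < nr n with hT
  -- the number of families
  have h1 : (B.card : ℝ) ≤ ∑ t ∈ T, (d : ℝ) ^ t.card := by
    have h2 := fam_sum K hd B ((1 + θ) * y) (fun b hb => ⟨(hB b hb).1, (hB b hb).2.2⟩)
      (fun t => if y < nr t then 1 else 0) (fun t => by split_ifs <;> norm_num)
    have h3 : ∑ b ∈ B, (if y < nr (dns K b) then (1 : ℝ) else 0) = B.card := by
      rw [Finset.sum_congr rfl (fun b hb => if_pos (by rw [(hB b hb).1.nr]; exact (hB b hb).2.1) :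
        ∀ b ∈ B, (if y < nr (dns K b) then (1 : ℝ) else 0) = 1)]
      simp
    rw [h3] at h2
    refine h2.trans (le_of_eq ?_)
    rw [hT, Finset.sum_filter]
    refine Finset.sum_congr rfl fun t _ => ?_
    split_ifs <;> simp
  have h4 := fam_hold T (fun t => (d : ℝ) ^ t.card) (fun t => by positivity)
  have h5 : (T.card : ℝ) ≤ C1 * (y * (θ + y ^ (-δ))) := by
    refine (hs y θ hy hθ hθ1).trans (le_of_eq ?_)
    have : y ^ (1 - δ) = y * y ^ (-δ) := by
      rw [sub_eq_add_neg, Real.rpow_add hy0, Real.rpow_one]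
    rw [this]; ring
  have hθy : 1 ≤ (1 + θ) * y := by nlinarith
  have hθy2 : (1 + θ) * y ≤ 2 * y := by nlinarith
  have hlog : 1 + Real.log ((1 + θ) * y) ≤ 2 * (1 + Real.log y) := by
    have h6 : Real.log ((1 + θ) * y) ≤ Real.log (2 * y) := Real.log_le_log (by linarith) hθy2
    rw [Real.log_mul (two_ne_zero : (2 : ℝ) ≠ 0) hy0.ne'] at h6
    have h7 : Real.log 2 ≤ 1 := by
      have := Real.log_two_lt_d9
      linarith
    linarith
  have hlog0 : 0 ≤ Real.log ((1 + θ) * y) := Real.log_nonneg hθy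
  have h6 : ∑ t ∈ T, ((d : ℝ) ^ t.card) ^ 4 ≤ C3 * y * (1 + Real.log y) ^ A := by
    have h7 : ∑ t ∈ T, ((d : ℝ) ^ t.card) ^ 4 ≤
        ∑ t ∈ AF K ((1 + θ) * y), ((d ^ 4 : ℕ) : ℝ) ^ t.card := by
      calc ∑ t ∈ T, ((d : ℝ) ^ t.card) ^ 4 ≤ ∑ t ∈ AF K ((1 + θ) * y), ((d : ℝ) ^ t.card) ^ 4 := by
            refine Finset.sum_le_sum_of_subset_of_nonneg (Finset.filter_subset _ _) ?_
            intro t _ _
            positivity
        _ = ∑ t ∈ AF K ((1 + θ) * y), ((d ^ 4 : ℕ) : ℝ) ^ t.card := by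
            refine Finset.sum_congr rfl fun t _ => ?_
            push_cast
            rw [← pow_mul, ← pow_mul, mul_comm]
    refine h7.trans ((hp _ hθy).1.trans ?_)
    have h8 : (1 + Real.log ((1 + θ) * y)) ^ A ≤ (2 : ℝ) ^ A * (1 + Real.log y) ^ A := by
      rw [← Real.mul_rpow (by norm_num) (by linarith)]
      exact Real.rpow_le_rpow (by linarith) hlog hA
    calc C2 * ((1 + θ) * y) * (1 + Real.log ((1 + θ) * y)) ^ A
        ≤ C2 * (2 * y) * ((2 : ℝ) ^ A * (1 + Real.log y) ^ A) := by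
          apply mul_le_mul (mul_le_mul_of_nonneg_left hθy2 hC2.le) h8
            (Real.rpow_nonneg (by linarith) _) (by positivity)
      _ = C3 * y * (1 + Real.log y) ^ A := by rw [hC3def]; ring
  have hz : 0 ≤ θ + y ^ (-δ) := add_nonneg hθ (Real.rpow_nonneg hy0.le _)
  have hA4 : ((1 + Real.log y) ^ A) ^ (1 / 4 : ℝ) ≤ (1 + Real.log y) ^ (⌈A / 4⌉₊ : ℕ) := by
    rw [← Real.rpow_mul (by linarith), show A * (1 / 4 : ℝ) = A / 4 by ring]
    exact fam_pow_ceil (by linarith) _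
  have hyy : y ^ (3 / 4 : ℝ) * y ^ (1 / 4 : ℝ) = y := by
    rw [← Real.rpow_add hy0]
    norm_num
  calc (B.card : ℝ) ≤ ∑ t ∈ T, (d : ℝ) ^ t.card := h1
    _ ≤ (T.card : ℝ) ^ (3 / 4 : ℝ) * (∑ t ∈ T, ((d : ℝ) ^ t.card) ^ 4) ^ (1 / 4 : ℝ) := h4
    _ ≤ (C1 * (y * (θ + y ^ (-δ)))) ^ (3 / 4 : ℝ) * (C3 * y * (1 + Real.log y) ^ A) ^ (1 / 4 : ℝ) := by
        apply mul_le_mul
        · exact Real.rpow_le_rpow (by positivity) h5 (by norm_num)
        · exact Real.rpow_le_rpow (Finset.sum_nonneg fun t _ => by positivity) h6 (by norm_num)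
        · exact Real.rpow_nonneg (Finset.sum_nonneg fun t _ => by positivity) _
        · exact Real.rpow_nonneg (by positivity) _
    _ = (C1 ^ (3 / 4 : ℝ) * C3 ^ (1 / 4 : ℝ)) * ((1 + Real.log y) ^ A) ^ (1 / 4 : ℝ) *
          ((θ + y ^ (-δ)) ^ (3 / 4 : ℝ) * (y ^ (3 / 4 : ℝ) * y ^ (1 / 4 : ℝ))) := by
        rw [Real.mul_rpow hC1.le (by positivity), Real.mul_rpow hy0.le hz,
          Real.mul_rpow (by positivity) (Real.rpow_nonneg (by linarith) _),
          Real.mul_rpow hC3.le hy0.le]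
        ring
    _ ≤ max 1 (C1 ^ (3 / 4 : ℝ) * C3 ^ (1 / 4 : ℝ)) * (1 + Real.log y) ^ (⌈A / 4⌉₊ : ℕ) *
          ((θ + y ^ (-δ)) ^ (3 / 4 : ℝ) * y) := by
        rw [hyy]
        apply mul_le_mul_of_nonneg_right
        · apply mul_le_mul (le_max_right _ _) hA4
          · exact Real.rpow_nonneg (Real.rpow_nonneg (by linarith) _) _
          · positivity
        · exact mul_nonneg (Real.rpow_nonneg hz _) hy0.le

end H57.AN
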