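import Pool.Agent.H57.AN.Zt
import Pool.Agent.H57.AN.Fam

/-!
# [H57 AN UB] Upper bounds for the number of families of labels (150 lines)

`ub`: `f(s) = ∏_{v ∈ s} f v`, `P = ∑_{v ∈ PB K Y} f v / nm v`. `∑_{s ∈ AF K Y} f(s) / nr s ≤ ∏_{v ∈ PB K Y} (1 + f v / nm v) ≤ e^P` (`v ∈ s` implies
`nm v ≤ nr s ≤ Y`). `∑_s f(s) log (nr s) = ∑_s ∑_{v ∈ s} f(s) log (nm v) ≤ ∑_{s' ∈ AF K Y} f(s') ∑_{v ∈ PB K (Y / nr s')} f v log (nm v)
≤ F C ∑_{s'} f(s') Y / nr s'` (`s' = s - {v}`; `che` for `K`, `Y / nr s' ≥ 1`); `∑_s f(s) log (Y / nr s) ≤ ∑_s f(s) Y / nr s`. Add: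
`log Y ∑_s f(s) ≤ (F C + 1) Y e^P`.
`an3`: `f v` = the number of `a = ⟨i, w⟩` with `i ∈ J`, `dn K w = v`, `nm w` prime (`≤ F = m d` by `fib`; finite). The map `g ↦ t = image of dn`, then
`G` has at most `∑_{t ∈ AF K Y} ∏_{v ∈ t} f v` elements (as `fam_sum` / `fam_card`; `nr t = ∏ nm a.2`, `nm_dn`), and
`∑_{v ∈ PB K Y} f v / nm v ≤ ∑_{i ∈ J} ∑_{w ∈ PB (F i) Y} 1 / nm w ≤ m log log Y + m A log (1 + log q) + m C` (`zt` for the finitely many degrees `≤ n`).
So `#G ≤ C Y / log Y * (log Y)^m (1 + log q)^(m A)`. For `m = 0` only `g = ∅`.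
-/

set_option autoImplicit false

open scoped NumberField
open NumberField IsDedekindDomain H63.MA H36.QA H57.TLS
open scoped Classical

noncomputable section

namespace H57.AN

section ubs

variable {K : Type} [Field K] [NumberField K]

theorem ub_nm_le {s : Finset (Pl K)} {v : Pl K} (hv : v ∈ s) : (nm v : ℝ) ≤ nr s := by
  have h := nr_mono (Finset.singleton_subset_iff.2 hv)
  have h1 : nr {v} = (nm v : ℝ) := by
    unfold H63.MA.nr
    rw [Finset.prod_singleton]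
  rwa [h1] at h

theorem ub_erase {s : Finset (Pl K)} {v : Pl K} (hv : v ∈ s) : nr (s.erase v) * nm v = nr s := by
  unfold H63.MA.nr
  exact Finset.prod_erase_mul s _ hv

theorem ub_A (f : Pl K → ℝ) (hf : ∀ v, 0 ≤ f v) (Y : ℝ) :
    ∑ s ∈ AF K Y, (∏ v ∈ s, f v) / nr s ≤ Real.exp (∑ v ∈ PB K Y, f v / nm v) := by
  have h1 : ∀ s : Finset (Pl K), (∏ v ∈ s, f v) / nr s = ∏ v ∈ s, (f v / nm v) := fun s => by
    unfold H63.MA.nr
    rw [Finset.prod_div_distrib]
  have h0 : ∀ v : Pl K, 0 ≤ f v / nm v := fun v => div_nonneg (hf v) (Nat.cast_nonneg _)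
  simp_rw [h1]
  calc ∑ s ∈ AF K Y, ∏ v ∈ s, (f v / nm v) ≤ ∑ s ∈ (PB K Y).powerset, ∏ v ∈ s, (f v / nm v) := by
        refine Finset.sum_le_sum_of_subset_of_nonneg ?_ fun s _ _ => Finset.prod_nonneg fun v _ => h0 v
        intro s hs
        rw [Finset.mem_powerset]
        intro v hv
        rw [mem_PB]
        exact (ub_nm_le hv).trans (mem_AF.1 hs)
    _ = ∏ v ∈ PB K Y, (f v / nm v + 1) := (Finset.prod_add_one _).symm
    _ ≤ ∏ v ∈ PB K Y, Real.exp (f v / nm v) := by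
        refine Finset.prod_le_prod (fun v _ => ?_) fun v _ => Real.add_one_le_exp _
        have := h0 v
        linarith
    _ = _ := (Real.exp_sum _ _).symm

theorem ub_B (f : Pl K → ℝ) (hf : ∀ v, 0 ≤ f v) {F C : ℝ} (hF : ∀ v, f v ≤ F) (hF0 : 0 ≤ F)
    (hC : ∀ x : ℝ, 1 ≤ x → ∑ w ∈ PB K x, Real.log (nm w) ≤ C * x) (Y : ℝ) :
    ∑ s ∈ AF K Y, (∏ v ∈ s, f v) * Real.log (nr s) ≤
      F * C * Y * ∑ s ∈ AF K Y, (∏ v ∈ s, f v) / nr s := by
  have hlog : ∀ v : Pl K, 0 ≤ Real.log (nm v) := fun v =>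
    Real.log_nonneg (by exact_mod_cast (one_lt_nm v).le)
  have hnr : ∀ s : Finset (Pl K), 0 < nr s := fun s => one_pos.trans_le (one_le_nr s)
  have hp : ∀ s : Finset (Pl K), 0 ≤ ∏ v ∈ s, f v := fun s => Finset.prod_nonneg fun v _ => hf v
  have h1 : ∀ s : Finset (Pl K), Real.log (nr s) = ∑ v ∈ s, Real.log (nm v) := fun s => by
    unfold H63.MA.nr
    rw [Real.log_prod]
    intro v _
    have := one_lt_nm v
    exact_mod_cast (by omega : nm v ≠ 0)
  let g : (Σ _ : Finset (Pl K), Pl K) → ℝ := fun y => (∏ u ∈ y.1, f u) * (f y.2 * Real.log (nm y.2))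
  have hg0 : ∀ y, 0 ≤ g y := fun y => mul_nonneg (hp _) (mul_nonneg (hf _) (hlog _))
  let j : (Σ _ : Finset (Pl K), Pl K) → (Σ _ : Finset (Pl K), Pl K) := fun x => ⟨x.1.erase x.2, x.2⟩
  have hinj : Set.InjOn j ((AF K Y).sigma fun s => s : Finset (Σ _ : Finset (Pl K), Pl K)) := by
    rintro ⟨s, v⟩ hx ⟨s', v'⟩ hy hxy
    rw [Finset.mem_coe, Finset.mem_sigma] at hx hy
    have h2 : s.erase v = s'.erase v' ∧ v = v' := by
      have h3 : (⟨s.erase v, v⟩ : Σ _ : Finset (Pl K), Pl K) = ⟨s'.erase v', v'⟩ := hxy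
      rw [Sigma.mk.injEq] at h3
      exact ⟨h3.1, eq_of_heq h3.2⟩
    obtain ⟨h3, rfl⟩ := h2
    have h4 : s = s' := by
      have h5 : v ∈ s := hx.2
      have h6 : v ∈ s' := hy.2
      rw [← Finset.insert_erase h5, h3, Finset.insert_erase h6]
    rw [h4]
  calc ∑ s ∈ AF K Y, (∏ v ∈ s, f v) * Real.log (nr s)
      = ∑ s ∈ AF K Y, ∑ v ∈ s, (∏ u ∈ s, f u) * Real.log (nm v) := by
        refine Finset.sum_congr rfl fun s _ => ?_
        rw [h1, Finset.mul_sum]
    _ = ∑ x ∈ (AF K Y).sigma (fun s => s), (∏ u ∈ x.1, f u) * Real.log (nm x.2) := by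
        rw [Finset.sum_sigma]
    _ = ∑ x ∈ (AF K Y).sigma (fun s => s), g (j x) := by
        refine Finset.sum_congr rfl fun x hx => ?_
        rw [Finset.mem_sigma] at hx
        show (∏ u ∈ x.1, f u) * Real.log (nm x.2) =
          (∏ u ∈ x.1.erase x.2, f u) * (f x.2 * Real.log (nm x.2))
        rw [← Finset.prod_erase_mul x.1 f hx.2, mul_assoc]
    _ = ∑ y ∈ ((AF K Y).sigma (fun s => s)).image j, g y := (Finset.sum_image hinj).symm
    _ ≤ ∑ y ∈ (AF K Y).sigma (fun s => PB K (Y / nr s)), g y := by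
        refine Finset.sum_le_sum_of_subset_of_nonneg ?_ fun y _ _ => hg0 y
        intro y hy
        rw [Finset.mem_image] at hy
        obtain ⟨⟨s, v⟩, hx, rfl⟩ := hy
        rw [Finset.mem_sigma] at hx
        obtain ⟨hx1, hx2⟩ := hx
        have hx1' : nr s ≤ Y := mem_AF.1 hx1
        have hx2' : v ∈ s := hx2
        rw [Finset.mem_sigma]
        constructor
        · show s.erase v ∈ AF K Y
          rw [mem_AF]
          exact (nr_mono (Finset.erase_subset v s)).trans hx1'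
        · show v ∈ PB K (Y / nr (s.erase v))
          rw [mem_PB, le_div_iff₀ (hnr _), mul_comm, ub_erase hx2']
          exact hx1'
    _ = ∑ s ∈ AF K Y, ∑ v ∈ PB K (Y / nr s), (∏ u ∈ s, f u) * (f v * Real.log (nm v)) := by
        rw [Finset.sum_sigma]
    _ ≤ ∑ s ∈ AF K Y, (∏ u ∈ s, f u) * (F * (C * (Y / nr s))) := by
        refine Finset.sum_le_sum fun s hs => ?_
        rw [← Finset.mul_sum]
        refine mul_le_mul_of_nonneg_left ?_ (hp s)
        have h2 : 1 ≤ Y / nr s := by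
          rw [le_div_iff₀ (hnr s), one_mul]
          exact mem_AF.1 hs
        calc ∑ v ∈ PB K (Y / nr s), f v * Real.log (nm v)
            ≤ ∑ v ∈ PB K (Y / nr s), F * Real.log (nm v) :=
              Finset.sum_le_sum fun v _ => mul_le_mul_of_nonneg_right (hF v) (hlog v)
          _ = F * ∑ v ∈ PB K (Y / nr s), Real.log (nm v) := by rw [Finset.mul_sum]
          _ ≤ _ := mul_le_mul_of_nonneg_left (hC _ h2) hF0
    _ = _ := by
        rw [Finset.mul_sum]
        refine Finset.sum_congr rfl fun s _ => ?_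
        ring

end ubs

theorem ub (K : Type) [Field K] [NumberField K] (F : ℝ) (hF : 0 ≤ F) : ∃ C : ℝ, 1 ≤ C ∧ ∀ f : Pl K → ℝ,
    (∀ v, 0 ≤ f v ∧ f v ≤ F) → ∀ Y : ℝ, 2 ≤ Y →
      ∑ s ∈ AF K Y, ∏ v ∈ s, f v ≤ C * (Y / Real.log Y) * Real.exp (∑ v ∈ PB K Y, f v / nm v) := by
  obtain ⟨C, hC, hch⟩ := che (Module.finrank ℚ K)
  have hFC : 0 ≤ F * C := mul_nonneg hF (zero_le_one.trans hC)
  refine ⟨F * C + 1, by linarith, fun f hf Y hY => ?_⟩
  have hA := ub_A f (fun v => (hf v).1) Y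
  have hB := ub_B f (fun v => (hf v).1) (fun v => (hf v).2) hF (hch K rfl) Y
  have hnr : ∀ s : Finset (Pl K), 0 < nr s := fun s => one_pos.trans_le (one_le_nr s)
  have hp : ∀ s : Finset (Pl K), 0 ≤ ∏ v ∈ s, f v := fun s => Finset.prod_nonneg fun v _ => (hf v).1
  have hD : ∑ s ∈ AF K Y, (∏ v ∈ s, f v) * Real.log (Y / nr s) ≤
      Y * ∑ s ∈ AF K Y, (∏ v ∈ s, f v) / nr s := by
    rw [Finset.mul_sum]
    refine Finset.sum_le_sum fun s hs => ?_
    have h1 : Real.log (Y / nr s) ≤ Y / nr s := by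
      have h2 : 0 < Y / nr s := div_pos (by linarith) (hnr s)
      have h3 := Real.log_le_sub_one_of_pos h2
      linarith
    calc (∏ v ∈ s, f v) * Real.log (Y / nr s) ≤ (∏ v ∈ s, f v) * (Y / nr s) :=
          mul_le_mul_of_nonneg_left h1 (hp s)
      _ = _ := by ring
  have hl : 0 < Real.log Y := Real.log_pos (by linarith)
  have hsum : (∑ s ∈ AF K Y, ∏ v ∈ s, f v) * Real.log Y =
      ∑ s ∈ AF K Y, (∏ v ∈ s, f v) * Real.log (nr s) +
        ∑ s ∈ AF K Y, (∏ v ∈ s, f v) * Real.log (Y / nr s) := by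
    rw [← Finset.sum_add_distrib, Finset.sum_mul]
    refine Finset.sum_congr rfl fun s _ => ?_
    rw [Real.log_div (by linarith) (hnr s).ne']
    ring
  have e : (F * C + 1) * (Y / Real.log Y) * Real.exp (∑ v ∈ PB K Y, f v / nm v) =
      ((F * C + 1) * Y * Real.exp (∑ v ∈ PB K Y, f v / nm v)) / Real.log Y := by ring
  rw [e, le_div_iff₀ hl, hsum]
  have h1 : (F * C + 1) * Y * ∑ s ∈ AF K Y, (∏ v ∈ s, f v) / nr s ≤
      (F * C + 1) * Y * Real.exp (∑ v ∈ PB K Y, f v / nm v) :=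
    mul_le_mul_of_nonneg_left hA (mul_nonneg (by linarith) (by linarith))
  linarith

section ubw

variable (K : Type) [Field K] [NumberField K] {L : Type} [Field L] [NumberField L] [Algebra K L]

/-- the labels over `v` -/
def ubW (v : Pl K) : Finset (Pl L) := (over_finite (L := L) v).toFinset.filter fun w => (nm w).Prime

theorem ub_mem {v : Pl K} {w : Pl L} : w ∈ ubW K v ↔ dn K w = v ∧ (nm w).Prime := by
  unfold ubW
  rw [Finset.mem_filter, Set.Finite.mem_toFinset]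
  exact and_congr_left fun _ => ⟨fun h => dn_eq K h, fun h => h ▸ dn_over K w⟩

theorem ub_card (v : Pl K) : (ubW K v : Finset (Pl L)).card ≤ Module.finrank ℚ L := by
  refine (fib K v (ubW K v) fun w hw => ((ub_mem K).1 hw).1).trans ?_
  have h1 := Module.finrank_mul_finrank ℚ K L
  have h2 : 0 < Module.finrank ℚ K := Module.finrank_pos
  rw [← h1]
  exact Nat.le_mul_of_pos_left _ h2

theorem ub_P (L : Type) [Field L] [NumberField L] [Algebra K L] (Y : ℝ) :
    ∑ v ∈ PB K Y, ((ubW K v : Finset (Pl L)).card : ℝ) / nm v ≤ ∑ w ∈ PB L Y, (1 : ℝ) / nm w := by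
  have h1 : ∀ v ∈ PB K Y, ((ubW K v : Finset (Pl L)).card : ℝ) / nm v =
      ∑ w ∈ (ubW K v : Finset (Pl L)), (1 : ℝ) / nm w := by
    intro v _
    have h2 : ∀ w ∈ (ubW K v : Finset (Pl L)), (1 : ℝ) / nm w = 1 / nm v := by
      intro w hw
      obtain ⟨h3, h4⟩ := (ub_mem K).1 hw
      rw [← nm_dn K h4, h3]
    rw [Finset.sum_congr rfl h2, Finset.sum_const, nsmul_eq_mul]
    ring
  rw [Finset.sum_congr rfl h1, ← Finset.sum_biUnion]
  · refine Finset.sum_le_sum_of_subset_of_nonneg ?_ fun w _ _ => by positivity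
    intro w hw
    rw [Finset.mem_biUnion] at hw
    obtain ⟨v, hv, hw⟩ := hw
    obtain ⟨h3, h4⟩ := (ub_mem K).1 hw
    rw [mem_PB] at hv ⊢
    rw [← nm_dn K h4, h3]
    exact hv
  · intro v _ v' _ hne
    rw [Function.onFun, Finset.disjoint_left]
    intro w hw hw'
    exact hne (((ub_mem K).1 hw).1.symm.trans ((ub_mem K).1 hw').1)

theorem ub_cnt {I : Type} (F : I → Type) [∀ i, Field (F i)] [∀ i, NumberField (F i)] [∀ i, Algebra K (F i)]
    (J : Finset I) (Y : ℝ) (G : Finset (Finset (Σ i, Pl (F i))))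
    (hG : ∀ g ∈ G, (∀ a ∈ g, a.1 ∈ J ∧ (nm a.2).Prime) ∧
      (∀ a ∈ g, ∀ b ∈ g, a ≠ b → dn K a.2 ≠ dn K b.2) ∧ ∏ a ∈ g, (nm a.2 : ℝ) ≤ Y) :
    (G.card : ℝ) ≤ ∑ t ∈ AF K Y, ∏ v ∈ t, ((J.sigma fun i => (ubW K v : Finset (Pl (F i)))).card : ℝ) := by
  let φ : Finset (Σ i, Pl (F i)) → Finset (Pl K) := fun g => g.image fun a => dn K a.2
  have hinj : ∀ g ∈ G, Set.InjOn (fun a : Σ i, Pl (F i) => dn K a.2) (g : Set (Σ i, Pl (F i))) := by
    intro g hg a ha b hb hab
    by_contra hne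
    exact (hG g hg).2.1 a ha b hb hne hab
  have hφ : ∀ g ∈ G, φ g ∈ AF K Y := by
    intro g hg
    rw [mem_AF]
    have h1 : nr (φ g) = ∏ a ∈ g, (nm a.2 : ℝ) := by
      show ∏ v ∈ g.image (fun a => dn K a.2), (nm v : ℝ) = _
      rw [Finset.prod_image (hinj g hg)]
      refine Finset.prod_congr rfl fun a ha => ?_
      rw [nm_dn K ((hG g hg).1 a ha).2]
    rw [h1]
    exact (hG g hg).2.2
  rw [Finset.card_eq_sum_card_fiberwise hφ, Nat.cast_sum]
  refine Finset.sum_le_sum fun t _ => ?_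
  rw [← Nat.cast_prod, Nat.cast_le]
  have hsub : (G.filter fun g => φ g = t) ⊆ (t.pi fun v => J.sigma fun i => (ubW K v : Finset (Pl (F i)))).image
      (fun p => t.attach.image fun v => p v.1 v.2) := by
    intro g hg
    rw [Finset.mem_filter] at hg
    obtain ⟨hg, hgt⟩ := hg
    have h1 : ∀ v ∈ t, ∃ a ∈ g, dn K a.2 = v := by
      intro v hv
      rw [← hgt] at hv
      exact Finset.mem_image.1 hv
    choose p hp1 hp2 using h1
    rw [Finset.mem_image]
    refine ⟨p, ?_, ?_⟩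
    · rw [Finset.mem_pi]
      intro v hv
      rw [Finset.mem_sigma, ub_mem]
      have h2 := (hG g hg).1 _ (hp1 v hv)
      exact ⟨h2.1, hp2 v hv, h2.2⟩
    · ext a
      rw [Finset.mem_image]
      constructor
      · rintro ⟨v, -, rfl⟩
        exact hp1 v.1 v.2
      · intro ha
        have hv : dn K a.2 ∈ t := by
          rw [← hgt]
          exact Finset.mem_image.2 ⟨a, ha, rfl⟩
        exact ⟨⟨_, hv⟩, Finset.mem_attach _ _, hinj g hg (hp1 _ hv) ha (hp2 _ hv)⟩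
  have h1 := (Finset.card_le_card hsub).trans Finset.card_image_le
  rw [Finset.card_pi] at h1
  exact h1

end ubw

theorem an3 (K : Type) [Field K] [NumberField K] (n m : ℕ) : ∃ (C : ℝ) (A : ℕ), 1 ≤ C ∧
    ∀ (I : Type) (F : I → Type) [∀ i, Field (F i)] [∀ i, NumberField (F i)] [∀ i, Algebra K (F i)] (J : Finset I),
      J.card = m → (∀ i ∈ J, ∃ n' ≤ n, 0 < n' ∧ TC (F i) n') → ∀ q : ℝ, 1 ≤ q → (∀ i ∈ J, dd (F i) ≤ q) →
        ∀ Y : ℝ, 3 ≤ Y → ∀ G : Finset (Finset (Σ i, Pl (F i))),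
          (∀ g ∈ G, (∀ a ∈ g, a.1 ∈ J ∧ (nm a.2).Prime) ∧ (∀ a ∈ g, ∀ b ∈ g, a ≠ b → dn K a.2 ≠ dn K b.2) ∧
            ∏ a ∈ g, (nm a.2 : ℝ) ≤ Y) →
          (G.card : ℝ) ≤ C * (1 + Real.log q) ^ A * Y * Real.log Y ^ (m - 1) := by
  obtain ⟨Cu, hCu, hub⟩ := ub K ((m : ℝ) * n) (by positivity)
  -- the constants of `zt`
  obtain ⟨Cz, Az, hCz, hz⟩ : ∃ (Cz : ℝ) (Az : ℕ), 0 ≤ Cz ∧ ∀ n' ≤ n, 0 < n' → ∀ (L : Type) [Field L] [NumberField L],
      TC L n' → ∀ Y : ℝ, 3 ≤ Y → ∑ w ∈ PB L Y, (1 : ℝ) / nm w ≤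
        Real.log (Real.log Y) + Az * Real.log (1 + Real.log (dd L)) + Cz := by
    choose c a hc h using fun k : ℕ => zt (k + 1) (Nat.succ_pos k)
    refine ⟨∑ k ∈ Finset.range n, c k, ∑ k ∈ Finset.range n, a k,
      Finset.sum_nonneg fun k _ => zero_le_one.trans (hc k), ?_⟩
    intro n' hn' h0 L _ _ hL Y hY
    obtain ⟨k, rfl⟩ : ∃ k, n' = k + 1 := ⟨n' - 1, by omega⟩
    have hk : k ∈ Finset.range n := Finset.mem_range.2 (by omega)
    have h1 := h k L hL Y hY
    have h2 : c k ≤ ∑ k ∈ Finset.range n, c k :=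
      Finset.single_le_sum (f := c) (fun k _ => zero_le_one.trans (hc k)) hk
    have h3 : (a k : ℝ) ≤ ((∑ k ∈ Finset.range n, a k : ℕ) : ℝ) := by
      exact_mod_cast Finset.single_le_sum (f := a) (fun k _ => Nat.zero_le _) hk
    have h4 : 0 ≤ Real.log (1 + Real.log (dd L)) := by
      refine Real.log_nonneg ?_
      have := Real.log_nonneg (one_le_dd L)
      linarith
    have h5 := mul_le_mul_of_nonneg_right h3 h4
    linarith
  refine ⟨Cu * Real.exp (m * Cz), m * Az, ?_, ?_⟩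
  · have h1 : 1 ≤ Real.exp ((m : ℝ) * Cz) := Real.one_le_exp (by positivity)
    exact one_le_mul_of_one_le_of_one_le hCu h1
  intro I F _ _ _ J hJ hTC q hq hdd Y hY G hG
  have hlq : 0 ≤ Real.log q := Real.log_nonneg hq
  have hl1 : 1 ≤ Real.log Y := by
    rw [Real.le_log_iff_exp_le (by linarith)]
    have := Real.exp_one_lt_d9
    linarith
  have hC1 : 1 ≤ Cu * Real.exp (m * Cz) := by
    have h1 : 1 ≤ Real.exp ((m : ℝ) * Cz) := Real.one_le_exp (by positivity)
    exact one_le_mul_of_one_le_of_one_le hCu h1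
  rcases Nat.eq_zero_or_pos m with hm | hm
  · -- `J = ∅`
    have hJ0 : J = ∅ := by
      rw [← Finset.card_eq_zero, hJ, hm]
    have h1 : G ⊆ {∅} := by
      intro g hg
      rw [Finset.mem_singleton]
      by_contra hne
      obtain ⟨a, ha⟩ := Finset.nonempty_iff_ne_empty.2 hne
      have h2 := ((hG g hg).1 a ha).1
      rw [hJ0] at h2
      exact absurd h2 (Finset.notMem_empty _)
    have h2 : (G.card : ℝ) ≤ 1 := by
      have := Finset.card_le_card h1
      rw [Finset.card_singleton] at this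
      exact_mod_cast this
    have h3 : (1 : ℝ) ≤ (1 + Real.log q) ^ (m * Az) := one_le_pow₀ (by linarith)
    have h4 : (1 : ℝ) ≤ Real.log Y ^ (m - 1) := one_le_pow₀ hl1
    have h5 := one_le_mul_of_one_le_of_one_le (one_le_mul_of_one_le_of_one_le
      (one_le_mul_of_one_le_of_one_le hC1 h3) (show 1 ≤ Y by linarith)) h4
    linarith
  · have h1 := ub_cnt K F J Y G hG
    obtain ⟨f, hf⟩ : ∃ f : Pl K → ℝ, f = fun v => ((J.sigma fun i => (ubW K v : Finset (Pl (F i)))).card : ℝ) :=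
      ⟨_, rfl⟩
    have hfv : ∀ v, f v = ∑ i ∈ J, ((ubW K v : Finset (Pl (F i))).card : ℝ) := by
      intro v
      rw [hf]
      show ((J.sigma fun i => (ubW K v : Finset (Pl (F i)))).card : ℝ) = _
      rw [Finset.card_sigma, Nat.cast_sum]
    have hf1 : ∀ v, 0 ≤ f v ∧ f v ≤ (m : ℝ) * n := by
      intro v
      rw [hfv]
      refine ⟨Finset.sum_nonneg fun i _ => Nat.cast_nonneg _, ?_⟩
      calc ∑ i ∈ J, ((ubW K v : Finset (Pl (F i))).card : ℝ) ≤ ∑ i ∈ J, (n : ℝ) := by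
            refine Finset.sum_le_sum fun i hi => ?_
            obtain ⟨n', hn', -, hT⟩ := hTC i hi
            have h2 := ub_card K (L := F i) v
            rw [hT.2] at h2
            exact_mod_cast h2.trans hn'
        _ = (m : ℝ) * n := by rw [Finset.sum_const, nsmul_eq_mul, hJ]
    have h2 := hub f hf1 Y (by linarith)
    have h3 : ∑ v ∈ PB K Y, f v / nm v ≤
        m * Real.log (Real.log Y) + ((m * Az : ℕ) : ℝ) * Real.log (1 + Real.log q) + m * Cz := by
      calc ∑ v ∈ PB K Y, f v / nm v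
          = ∑ i ∈ J, ∑ v ∈ PB K Y, ((ubW K v : Finset (Pl (F i))).card : ℝ) / nm v := by
            rw [Finset.sum_comm]
            refine Finset.sum_congr rfl fun v _ => ?_
            rw [hfv, Finset.sum_div]
        _ ≤ ∑ i ∈ J, (Real.log (Real.log Y) + Az * Real.log (1 + Real.log q) + Cz) := by
            refine Finset.sum_le_sum fun i hi => (ub_P K (F i) Y).trans ?_
            obtain ⟨n', hn', h0, hT⟩ := hTC i hi
            refine (hz n' hn' h0 (F i) hT Y hY).trans ?_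
            have h4 : Real.log (1 + Real.log (dd (F i))) ≤ Real.log (1 + Real.log q) := by
              refine Real.log_le_log ?_ ?_
              · have := Real.log_nonneg (one_le_dd (F i))
                linarith
              · have := Real.log_le_log (dd_pos (F i)) (hdd i hi)
                linarith
            have h5 := mul_le_mul_of_nonneg_left h4 (Nat.cast_nonneg (α := ℝ) Az)
            linarith
        _ = _ := by
            rw [Finset.sum_const, nsmul_eq_mul, hJ]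
            push_cast
            ring
    have h4 : Real.exp (∑ v ∈ PB K Y, f v / nm v) ≤
        Real.log Y ^ m * (1 + Real.log q) ^ (m * Az) * Real.exp (m * Cz) := by
      refine (Real.exp_le_exp.2 h3).trans (le_of_eq ?_)
      rw [Real.exp_add, Real.exp_add, Real.exp_nat_mul, Real.exp_log (by linarith), Real.exp_nat_mul,
        Real.exp_log (by linarith)]
    have h5 : (G.card : ℝ) ≤ ∑ t ∈ AF K Y, ∏ v ∈ t, f v := by
      rw [hf]
      exact h1
    have hYl : 0 ≤ Cu * (Y / Real.log Y) := mul_nonneg (by linarith) (div_nonneg (by linarith) (by linarith))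
    calc (G.card : ℝ) ≤ Cu * (Y / Real.log Y) * Real.exp (∑ v ∈ PB K Y, f v / nm v) := h5.trans h2
      _ ≤ Cu * (Y / Real.log Y) * (Real.log Y ^ m * (1 + Real.log q) ^ (m * Az) * Real.exp (m * Cz)) :=
          mul_le_mul_of_nonneg_left h4 hYl
      _ = _ := by
          obtain ⟨k, rfl⟩ : ∃ k, m = k + 1 := ⟨m - 1, by omega⟩
          have h6 : Real.log Y ≠ 0 := by linarith
          rw [Nat.add_sub_cancel, pow_succ]
          field_simp

end H57.AN
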