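import Pool.Agent.H57.TLS.Def
import Pool.Agent.H63.MA.KumB
import Pool.Agent.H63.MA.AFin

/-!
# H57-AN: analytic inputs of theorem (M) (MP_b39724_nt), definitions (text: think, helper57, AN)

`K` is fixed, `L` an extension. A label is a prime `w` of `L` of prime norm; `dn K w` is the prime of `K` under `w`; `dns K b` the primes under a family.
`Ok K b`: a family of labels over different primes of `K`.
`HK K q A B B' k`: for every family `b'` of `B'` the kernel `b ↦ k b b'` is a product of values of a ray class character of `L` of modulus norm at most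
`(q * nr b') ^ A`; for families over different sets of primes of `K` these characters differ by a nontrivial character.
-/

set_option autoImplicit false

open scoped NumberField
open NumberField IsDedekindDomain H63.MA H36.QA H57.TLS
open scoped Classical

noncomputable section

namespace H57.AN

section

variable (K : Type) [Field K] [NumberField K] {L : Type} [Field L] [NumberField L] [Algebra K L]

/-- the prime of `K` under `w` -/
def dn (w : Pl L) : Pl K := (exists_below (K := K) w).choose

theorem dn_over (w : Pl L) : Over w (dn K w) := (exists_below (K := K) w).choose_spec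

theorem dn_eq {w : Pl L} {v : Pl K} (h : Over w v) : dn K w = v := below_unique (dn_over K w) h

/-- the primes of `K` under a family -/
def dns (b : Finset (Pl L)) : Finset (Pl K) := b.image (dn K)

/-- labels over different primes of `K` -/
structure Ok (b : Finset (Pl L)) : Prop where
  pr : ∀ w ∈ b, (nm w).Prime
  inj : Set.InjOn (dn K) (b : Set (Pl L))

theorem Ok.sub {b c : Finset (Pl L)} (h : Ok K b) (hc : c ⊆ b) : Ok K c :=
  ⟨fun w hw => h.pr w (hc hw), fun _ hx _ hy => h.inj (hc hx) (hc hy)⟩

theorem nm_dn {w : Pl L} (h : (nm w).Prime) : nm (dn K w) = nm w := by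
  obtain ⟨f, hf, he⟩ := nm_over (dn_over K w)
  rw [he] at h
  have h1 : f = 1 := Nat.Prime.eq_one_of_pow h
  rw [he, h1, pow_one]

theorem Ok.nr {b : Finset (Pl L)} (h : Ok K b) : nr (dns K b) = nr b := by
  unfold H63.MA.nr dns
  rw [Finset.prod_image (fun x hx y hy => h.inj hx hy)]
  refine Finset.prod_congr rfl fun w hw => ?_
  rw [nm_dn K (h.pr w hw)]

theorem Ok.card {b : Finset (Pl L)} (h : Ok K b) : (dns K b).card = b.card :=
  Finset.card_image_of_injOn h.inj

theorem fib (v : Pl K) (S : Finset (Pl L)) (hS : ∀ w ∈ S, dn K w = v) : S.card ≤ Module.finrank K L := by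
  have h1 : S.card ≤ (IsDedekindDomain.primesOverFinset v.asIdeal (𝓞 L)).card := by
    refine Finset.card_le_card_of_injOn (fun w => w.asIdeal) ?_ ?_
    · intro w hw
      rw [Finset.mem_coe, IsDedekindDomain.mem_primesOverFinset_iff v.ne_bot]
      have h2 := dn_over K w
      rw [hS w hw] at h2
      exact ⟨w.isPrime, ⟨h2.symm⟩⟩
    · intro v _ w _ h
      exact IsDedekindDomain.HeightOneSpectrum.ext h
  have hmax : v.asIdeal.IsMaximal := v.isMaximal
  have hnz : NoZeroSMulDivisors (𝓞 K) (𝓞 L) := ⟨fun {x y} h => by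
    rw [Algebra.smul_def, mul_eq_zero] at h
    rcases h with h | h
    · exact Or.inl ((map_eq_zero_iff _ (FaithfulSMul.algebraMap_injective (𝓞 K) (𝓞 L))).1 h)
    · exact Or.inr h⟩
  exact h1.trans (Ideal.card_primesOverFinset_le_finrank (𝓞 L) K L v.ne_bot)

end

/-- for fixed `b'` the kernel is a product of values of a ray class character of `L` -/
def HK (K : Type) [Field K] [NumberField K] {L L' : Type} [Field L] [NumberField L] [Field L'] [NumberField L'] [Algebra K L']
    (q : ℝ) (A : ℕ) (B : Finset (Finset (Pl L))) (B' : Finset (Finset (Pl L')))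
    (k : Finset (Pl L) → Finset (Pl L') → ℂ) : Prop :=
  ∃ (𝔣 : Finset (Pl L') → Ideal (𝓞 L)) (χ : ∀ b', RC L (𝔣 b')),
    (∀ b' ∈ B', 𝔣 b' ≠ ⊥ ∧ (Ideal.absNorm (𝔣 b') : ℝ) ≤ (q * nr b') ^ A) ∧
    (∀ b ∈ B, ∀ b' ∈ B', k b b' = ∏ w ∈ b, (χ b').χ w.asIdeal) ∧
    ∀ b₁ ∈ B', ∀ b₂ ∈ B', dns K b₁ ≠ dns K b₂ → (prc (χ b₁) (χ b₂)).Non

end H57.AN
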