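import Pool.Agent.H57.LI.PrK
import Pool.Agent.H57.AN.Df

/-!
# [H57 AN CHE] Chebyshev and Mertens bounds, uniform in the field (110 lines)

Places `w` of `L` with `[L:ℚ] = n`: `nm w = ℓ^f`, `ℓ = (nm w).minFac` prime, `f ≥ 1` (`H57.LI.prk_pow`), at most `n` places for each `ℓ` (`prk_fibre`).
`che`: `∑_{nm w ≤ x} log (nm w)`: the places with `f = 1`: `≤ n θ(x) ≤ n x log 4` (Mathlib: `primorial_le_4_pow` or `Chebyshev.theta_le_log4_mul_x`); the
places with `f ≥ 2` have `ℓ ≤ √x`, at most `n √x` of them, each contributes `log (nm w) ≤ log x`; `√x log x ≤ 4 x`.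
`mer`: dyadic: `∑_{2^i < nm w ≤ 2^(i+1)} log (nm w) / nm w ≤ 2^(-i) C 2^(i+1) = 2 C`; at most `1 + log Y / log 2` intervals.
`sq2`: `∑_{w ∈ T} 1 / (nm w)^2 ≤ n ∑_ℓ 1 / ℓ^2 ≤ 2 n`.
-/

set_option autoImplicit false

open scoped NumberField
open NumberField IsDedekindDomain H63.MA H36.QA H57.TLS
open scoped Classical

noncomputable section

namespace H57.AN

theorem pl_fin (L : Type) [Field L] [NumberField L] (x : ℝ) : {w : Pl L | (nm w : ℝ) ≤ x}.Finite := by
  refine ((Set.finite_Iic ⌊x⌋₊).biUnion fun m _ => (H57.LI.prk_set (K := L) m).1).subset ?_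
  intro w hw
  rw [Set.mem_iUnion₂]
  exact ⟨nm w, Nat.le_floor hw, rfl⟩

/-- the places of norm at most `x` -/
def PB (L : Type) [Field L] [NumberField L] (x : ℝ) : Finset (Pl L) := (pl_fin L x).toFinset

theorem mem_PB {L : Type} [Field L] [NumberField L] {x : ℝ} {w : Pl L} : w ∈ PB L x ↔ (nm w : ℝ) ≤ x := by
  unfold PB
  rw [Set.Finite.mem_toFinset]
  rfl

private theorem che_fib {L : Type} [Field L] [NumberField L] (S : Finset (Pl L)) (g : ℕ → ℝ) (hg : ∀ m, 0 ≤ g m)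
    (M : Finset ℕ) (h : ∀ w ∈ S, (nm w).minFac ∈ M) :
    ∑ w ∈ S, g (nm w).minFac ≤ Module.finrank ℚ L * ∑ m ∈ M, g m := by
  rw [← Finset.sum_fiberwise_of_maps_to h, Finset.mul_sum]
  refine Finset.sum_le_sum fun m _ => ?_
  have h1 : ∑ w ∈ S with (nm w).minFac = m, g (nm w).minFac = ∑ w ∈ S with (nm w).minFac = m, g m :=
    Finset.sum_congr rfl fun w hw => by rw [(Finset.mem_filter.1 hw).2]
  rw [h1, Finset.sum_const, nsmul_eq_mul]
  refine mul_le_mul_of_nonneg_right ?_ (hg m)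
  exact_mod_cast H57.LI.prk_fibre m _ fun v hv => (Finset.mem_filter.1 hv).2

private theorem che_log {x : ℝ} (hx : 1 ≤ x) : Real.sqrt x * Real.log x ≤ 2 * x := by
  have h0 : 0 < Real.sqrt x := Real.sqrt_pos.2 (by linarith)
  have h1 : Real.log (Real.sqrt x) ≤ Real.sqrt x - 1 := Real.log_le_sub_one_of_pos h0
  rw [Real.log_sqrt (by linarith)] at h1
  have h2 : Real.sqrt x * Real.sqrt x = x := Real.mul_self_sqrt (by linarith)
  nlinarith

theorem che (n : ℕ) : ∃ C : ℝ, 1 ≤ C ∧ ∀ (L : Type) [Field L] [NumberField L], Module.finrank ℚ L = n →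
    ∀ x : ℝ, 1 ≤ x → ∑ w ∈ PB L x, Real.log (nm w) ≤ C * x := by
  refine ⟨1 + n * Real.log 4 + n * 2, ?_, ?_⟩
  · have : (0 : ℝ) ≤ Real.log 4 := Real.log_nonneg (by norm_num)
    have : (0 : ℝ) ≤ n * Real.log 4 := by positivity
    have : (0 : ℝ) ≤ n * 2 := by positivity
    linarith
  intro L _ _ hn x hx
  have hlx : 0 ≤ Real.log x := Real.log_nonneg hx
  obtain ⟨g, hg⟩ : ∃ g : ℕ → ℝ, g = fun m : ℕ => Real.log (m : ℝ) := ⟨_, rfl⟩
  have hg0 : ∀ m, 0 ≤ g m := fun m => by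
    rw [hg]
    exact Real.log_natCast_nonneg m
  -- primes
  have h1 : ∑ w ∈ PB L x with (nm w).Prime, Real.log (nm w) ≤ n * (Real.log 4 * x) := by
    have a1 : ∑ w ∈ PB L x with (nm w).Prime, Real.log (nm w) = ∑ w ∈ PB L x with (nm w).Prime, g (nm w).minFac := by
      refine Finset.sum_congr rfl fun w hw => ?_
      rw [(Finset.mem_filter.1 hw).2.minFac_eq, hg]
    have a2 := che_fib (L := L) ((PB L x).filter fun w => (nm w).Prime) g hg0 ((Finset.Ioc 0 ⌊x⌋₊).filter Nat.Prime) (by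
      intro w hw
      obtain ⟨b1, b2⟩ := Finset.mem_filter.1 hw
      rw [b2.minFac_eq, Finset.mem_filter, Finset.mem_Ioc]
      exact ⟨⟨b2.pos, Nat.le_floor (mem_PB.1 b1)⟩, b2⟩)
    have a3 : ∑ m ∈ (Finset.Ioc 0 ⌊x⌋₊).filter Nat.Prime, g m = Chebyshev.theta x := by
      rw [hg]
      rfl
    rw [a1]
    refine a2.trans ?_
    rw [a3, hn]
    exact mul_le_mul_of_nonneg_left (Chebyshev.theta_le_log4_mul_x (by linarith)) (Nat.cast_nonneg _)
  -- the others
  have h2 : ∑ w ∈ PB L x with ¬ (nm w).Prime, Real.log (nm w) ≤ n * (2 * x) := by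
    have a1 : ∑ w ∈ PB L x with ¬ (nm w).Prime, Real.log (nm w) ≤
        ∑ w ∈ PB L x with ¬ (nm w).Prime, (fun _ : ℕ => Real.log x) (nm w).minFac := by
      refine Finset.sum_le_sum fun w hw => ?_
      have b1 := mem_PB.1 (Finset.mem_filter.1 hw).1
      have b2 := H57.LI.prk_two w
      have b3 : (0 : ℝ) < nm w := by
        have : (2 : ℝ) ≤ nm w := by exact_mod_cast b2
        linarith
      exact Real.log_le_log b3 b1
    have a2 := che_fib (L := L) ((PB L x).filter fun w => ¬ (nm w).Prime) (fun _ => Real.log x) (fun _ => hlx)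
      (Finset.Ioc 0 ⌊Real.sqrt x⌋₊) (by
      intro w hw
      obtain ⟨b1, b2⟩ := Finset.mem_filter.1 hw
      obtain ⟨b3, f, hf, b4⟩ := H57.LI.prk_pow w
      rw [Finset.mem_Ioc]
      refine ⟨b3.pos, Nat.le_floor (Real.le_sqrt_of_sq_le ?_)⟩
      refine le_trans ?_ (mem_PB.1 b1)
      have b5 : 2 ≤ f := by
        by_contra hlt
        have : f = 1 := by omega
        rw [this, pow_one] at b4
        exact b2 (by rw [b4]; exact b3)
      have b6 : (nm w).minFac ^ 2 ≤ nm w := by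
        conv_rhs => rw [b4]
        exact Nat.pow_le_pow_right b3.pos b5
      exact_mod_cast b6)
    refine a1.trans (a2.trans ?_)
    rw [hn, Finset.sum_const, nsmul_eq_mul, Nat.card_Ioc, Nat.sub_zero]
    refine mul_le_mul_of_nonneg_left ?_ (Nat.cast_nonneg _)
    refine le_trans ?_ (che_log hx)
    exact mul_le_mul_of_nonneg_right (Nat.floor_le (Real.sqrt_nonneg _)) hlx
  rw [← Finset.sum_filter_add_sum_filter_not (PB L x) (fun w => (nm w).Prime)]
  nlinarith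

theorem mer (n : ℕ) : ∃ C : ℝ, 1 ≤ C ∧ ∀ (L : Type) [Field L] [NumberField L], Module.finrank ℚ L = n →
    ∀ Y : ℝ, 1 ≤ Y → ∑ w ∈ PB L Y, Real.log (nm w) / nm w ≤ C * (1 + Real.log Y) := by
  obtain ⟨C, hC, h⟩ := che n
  refine ⟨4 * C, by linarith, fun L _ _ hn Y hY => ?_⟩
  obtain ⟨k, hk⟩ : ∃ k, k = Nat.log 2 ⌊Y⌋₊ := ⟨_, rfl⟩
  have hpos : ∀ w : Pl L, (0 : ℝ) < nm w := fun w => by
    have : (2 : ℝ) ≤ nm w := by exact_mod_cast H57.LI.prk_two w
    linarith
  have h1 : ∀ w ∈ PB L Y, Nat.log 2 (nm w) ∈ Finset.range (k + 1) := by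
    intro w hw
    rw [Finset.mem_range, hk]
    exact Nat.lt_succ_of_le (Nat.log_mono_right (Nat.le_floor (mem_PB.1 hw)))
  rw [← Finset.sum_fiberwise_of_maps_to h1]
  have h2 : ∀ i ∈ Finset.range (k + 1), ∑ w ∈ PB L Y with Nat.log 2 (nm w) = i, Real.log (nm w) / nm w ≤ 2 * C := by
    intro i _
    have a1 : ∑ w ∈ PB L Y with Nat.log 2 (nm w) = i, Real.log (nm w) / nm w ≤
        ∑ w ∈ PB L (2 ^ (i + 1)), Real.log (nm w) / 2 ^ i := by
      refine le_trans (Finset.sum_le_sum (g := fun w => Real.log (nm w) / 2 ^ i) fun w hw => ?_)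
        (Finset.sum_le_sum_of_subset_of_nonneg ?_ fun w _ _ => ?_)
      · have b1 := (Finset.mem_filter.1 hw).2
        have b2 : 2 ^ i ≤ nm w := by
          rw [← b1]
          exact Nat.pow_log_le_self 2 (by have := H57.LI.prk_two w; omega)
        have b3 : (2 : ℝ) ^ i ≤ nm w := by exact_mod_cast b2
        exact div_le_div_of_nonneg_left (Real.log_natCast_nonneg _) (by positivity) b3
      · intro w hw
        have b1 := (Finset.mem_filter.1 hw).2
        have b2 : nm w < 2 ^ (i + 1) := by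
          rw [← b1]
          exact Nat.lt_pow_succ_log_self (by norm_num) _
        rw [mem_PB]
        exact_mod_cast b2.le
      · have := Real.log_natCast_nonneg (nm w)
        positivity
    refine a1.trans ?_
    rw [← Finset.sum_div, div_le_iff₀ (by positivity)]
    have a2 := h L hn (2 ^ (i + 1)) (one_le_pow₀ (by norm_num))
    have a3 : C * (2 : ℝ) ^ (i + 1) = 2 * C * 2 ^ i := by ring
    linarith
  refine (Finset.sum_le_sum h2).trans ?_
  rw [Finset.sum_const, Finset.card_range, nsmul_eq_mul]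
  have h3 : (k : ℝ) * Real.log 2 ≤ Real.log Y := by
    have b1 : 2 ^ k ≤ ⌊Y⌋₊ := by
      rw [hk]
      exact Nat.pow_log_le_self 2 (Nat.floor_pos.2 hY).ne'
    have b2 : ((2 : ℝ) ^ k) ≤ Y := le_trans (by exact_mod_cast b1) (Nat.floor_le (by linarith))
    have b3 := Real.log_le_log (by positivity) b2
    rwa [Real.log_pow] at b3
  have h4 := Real.log_two_gt_d9
  have h5 : (0 : ℝ) ≤ k := Nat.cast_nonneg k
  have h6 : (k : ℝ) ≤ 2 * Real.log Y := by nlinarith
  have h7 : 0 ≤ Real.log Y := Real.log_nonneg hY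
  push_cast
  nlinarith

theorem sq2 (n : ℕ) : ∃ C : ℝ, 1 ≤ C ∧ ∀ (L : Type) [Field L] [NumberField L], Module.finrank ℚ L = n →
    ∀ T : Finset (Pl L), ∑ w ∈ T, (1 : ℝ) / (nm w : ℝ) ^ 2 ≤ C := by
  have hs : Summable fun m : ℕ => (1 : ℝ) / (m : ℝ) ^ 2 := Real.summable_one_div_nat_pow.2 (by norm_num)
  have h0 : 0 ≤ ∑' m : ℕ, (1 : ℝ) / (m : ℝ) ^ 2 := tsum_nonneg fun m => by positivity
  refine ⟨1 + n * ∑' m : ℕ, (1 : ℝ) / (m : ℝ) ^ 2, by
    have : 0 ≤ n * ∑' m : ℕ, (1 : ℝ) / (m : ℝ) ^ 2 := by positivity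
    linarith, fun L _ _ hn T => ?_⟩
  have h1 : ∑ w ∈ T, (1 : ℝ) / (nm w : ℝ) ^ 2 ≤ ∑ w ∈ T, (fun m : ℕ => (1 : ℝ) / (m : ℝ) ^ 2) (nm w).minFac := by
    refine Finset.sum_le_sum fun w _ => ?_
    have b1 := (H57.LI.prk_pow w).1.pos
    have b2 : (nm w).minFac ≤ nm w := Nat.minFac_le (by have := H57.LI.prk_two w; omega)
    have b3 : (0 : ℝ) < ((nm w).minFac : ℝ) := by exact_mod_cast b1
    have b4 : ((nm w).minFac : ℝ) ≤ nm w := by exact_mod_cast b2
    exact one_div_le_one_div_of_le (by positivity) (pow_le_pow_left₀ b3.le b4 2)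
  have h2 := che_fib T (fun m : ℕ => (1 : ℝ) / (m : ℝ) ^ 2) (fun m => by positivity) (T.image fun w => (nm w).minFac)
    fun w hw => Finset.mem_image_of_mem _ hw
  have h3 : ∑ m ∈ T.image (fun w => (nm w).minFac), (1 : ℝ) / (m : ℝ) ^ 2 ≤ ∑' m : ℕ, (1 : ℝ) / (m : ℝ) ^ 2 :=
    hs.sum_le_tsum _ fun m _ => by positivity
  rw [hn] at h2
  have h4 : (n : ℝ) * ∑ m ∈ T.image (fun w => (nm w).minFac), (1 : ℝ) / (m : ℝ) ^ 2 ≤
      n * ∑' m : ℕ, (1 : ℝ) / (m : ℝ) ^ 2 := mul_le_mul_of_nonneg_left h3 (Nat.cast_nonneg _)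
  linarith

end H57.AN
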