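import Pool.Agent.H57.TLS.Har
import Pool.Agent.H63.MA.ADivI

/-!
# [H57 AN TAU] Divisor sums, uniform in the field (90 lines)

`in_card`: for `y ≥ 2`: `#IN L y ≤ ∑_{I ∈ IN L y} y / N I ≤ C y (log y)^n` (`H57.TLS.har`); for `1 ≤ y < 2` the only ideal is `1`.
`in_har`: `har` for `y ≥ 2`, and for `1 ≤ y < 2` the sum is `1`.
`tau_u`: `tau k I ^ 2 ≤ tau (k ^ 2) I` (`tau_sq`), `∑_{I ∈ IN L y} tau m I` = number of `f : Fin m → ideals` with norm of the product `≤ y`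
(`adivi_tau`, `adiviT`, as in the proof of `tau_sum`), `≤ ∑_f y / ∏ N (f j) ≤ y (∑_{J ∈ IN L y} 1 / N J)^m` (`Finset.prod_univ_sum`), then `in_har`.
-/

set_option autoImplicit false

open scoped NumberField
open NumberField IsDedekindDomain H63.MA H36.QA H57.TLS
open scoped Classical

noncomputable section

namespace H57.AN

theorem in_har (n : ℕ) (hn : 0 < n) : ∃ C : ℝ, 1 ≤ C ∧ ∀ (L : Type) [Field L] [NumberField L], Module.finrank ℚ L = n →
    ∀ y : ℝ, 1 ≤ y → ∑ I ∈ IN L y, (1 : ℝ) / Ideal.absNorm I ≤ C * (1 + Real.log y) ^ n := by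
  obtain ⟨C, hC, h⟩ := har n hn
  refine ⟨C, hC, ?_⟩
  intro L _ _ hL y hy
  have hlog : 0 ≤ Real.log y := Real.log_nonneg hy
  rcases le_total 2 y with h2 | h2
  · refine (h L hL y h2).trans ?_
    exact mul_le_mul_of_nonneg_left (pow_le_pow_left₀ hlog (by linarith) n) (by linarith)
  · have hsub : IN L y ⊆ IN L 2 := by
      intro I hI
      obtain ⟨h3, h4⟩ := (mem_IN (by linarith)).1 hI
      exact (mem_IN (by norm_num)).2 ⟨h3.trans h2, h4⟩
    refine (Finset.sum_le_sum_of_subset_of_nonneg hsub fun I _ _ => by positivity).trans ?_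
    refine (h L hL 2 le_rfl).trans ?_
    have h3 : Real.log 2 ^ n ≤ 1 := by
      refine pow_le_one₀ (Real.log_nonneg (by norm_num)) ?_
      have := Real.log_two_lt_d9
      linarith
    have h4 : (1 : ℝ) ≤ (1 + Real.log y) ^ n := one_le_pow₀ (by linarith)
    exact mul_le_mul_of_nonneg_left (h3.trans h4) (by linarith)

theorem in_card (n : ℕ) (hn : 0 < n) : ∃ C : ℝ, 1 ≤ C ∧ ∀ (L : Type) [Field L] [NumberField L], Module.finrank ℚ L = n →
    ∀ y : ℝ, 1 ≤ y → ((IN L y).card : ℝ) ≤ C * (y * (1 + Real.log y) ^ n) := by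
  obtain ⟨C, hC, h⟩ := in_har n hn
  refine ⟨C, hC, ?_⟩
  intro L _ _ hL y hy
  have hy0 : 0 ≤ y := by linarith
  have h1 : ((IN L y).card : ℝ) ≤ ∑ I ∈ IN L y, y * ((1 : ℝ) / Ideal.absNorm I) := by
    rw [Finset.card_eq_sum_ones, Nat.cast_sum]
    refine Finset.sum_le_sum fun I hI => ?_
    obtain ⟨h3, h4⟩ := (mem_IN hy0).1 hI
    have h5 : (1 : ℝ) ≤ (Ideal.absNorm I : ℝ) := by exact_mod_cast adivi_norm_pos h4
    rw [mul_one_div, Nat.cast_one, le_div_iff₀ (by linarith), one_mul]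
    exact h3
  refine h1.trans ?_
  rw [← Finset.mul_sum]
  refine (mul_le_mul_of_nonneg_left (h L hL y hy) hy0).trans_eq ?_
  ring

theorem tau_u (n : ℕ) (hn : 0 < n) (k : ℕ) : ∃ (C : ℝ) (A : ℕ), 1 ≤ C ∧ ∀ (L : Type) [Field L] [NumberField L],
    Module.finrank ℚ L = n → ∀ y : ℝ, 1 ≤ y → ∑ I ∈ IN L y, (tau k I : ℝ) ^ 2 ≤ C * y * (1 + Real.log y) ^ A := by
  obtain ⟨C, hC, h⟩ := in_har n hn
  refine ⟨C ^ (k ^ 2), n * k ^ 2, one_le_pow₀ hC, ?_⟩
  intro L _ _ hL y hy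
  have hy0 : 0 ≤ y := by linarith
  have hypos : 0 < y := by linarith
  have h1 : ∑ I ∈ IN L y, (tau k I : ℝ) ^ 2 ≤ ∑ I ∈ IN L y, (tau (k ^ 2) I : ℝ) := by
    refine Finset.sum_le_sum fun I hI => ?_
    have h2 := tau_sq (K := L) k ((mem_IN hy0).1 hI).2
    exact_mod_cast h2
  refine h1.trans ?_
  have h2 : ∀ f ∈ adiviT L (k ^ 2) y, ∏ j, f j ∈ IN L y := by
    intro f hf
    rw [adivi_memT hy0] at hf
    rw [mem_IN hy0, adivi_norm_prod]
    refine ⟨hf.2, ?_⟩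
    exact Finset.prod_ne_zero_iff.2 fun j _ => hf.1 j
  have h3 : ∑ I ∈ IN L y, (tau (k ^ 2) I : ℝ) = ((adiviT L (k ^ 2) y).card : ℝ) := by
    rw [Finset.card_eq_sum_card_fiberwise h2]
    push_cast
    exact Finset.sum_congr rfl fun I hI => by rw [adivi_tau hy0 hI]
  rw [h3]
  have h4 : ((adiviT L (k ^ 2) y).card : ℝ) ≤
      ∑ f ∈ adiviT L (k ^ 2) y, y * ∏ j, (1 : ℝ) / (Ideal.absNorm (f j) : ℝ) := by
    rw [Finset.card_eq_sum_ones, Nat.cast_sum]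
    refine Finset.sum_le_sum fun f hf => ?_
    obtain ⟨h5, h6⟩ := (adivi_memT hy0).1 hf
    have h7 : (1 : ℝ) ≤ ∏ j, (Ideal.absNorm (f j) : ℝ) := adivi_one_le_prod h5 Finset.univ
    rw [Finset.prod_div_distrib, Finset.prod_const_one, mul_one_div, Nat.cast_one,
      le_div_iff₀ (by linarith), one_mul]
    exact h6
  refine h4.trans ?_
  have h5 : ∑ f ∈ adiviT L (k ^ 2) y, y * ∏ j, (1 : ℝ) / (Ideal.absNorm (f j) : ℝ) ≤
      ∑ f ∈ Fintype.piFinset (fun _ : Fin (k ^ 2) => IN L y), y * ∏ j, (1 : ℝ) / (Ideal.absNorm (f j) : ℝ) := by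
    refine Finset.sum_le_sum_of_subset_of_nonneg (Finset.filter_subset _ _) fun f _ _ => ?_
    exact mul_nonneg hy0 (Finset.prod_nonneg fun j _ => by positivity)
  refine h5.trans ?_
  rw [← Finset.mul_sum, ← Finset.prod_univ_sum (fun _ : Fin (k ^ 2) => IN L y)
    (fun _ I => (1 : ℝ) / (Ideal.absNorm I : ℝ)), Finset.prod_const, Finset.card_univ, Fintype.card_fin]
  have h6 : (∑ I ∈ IN L y, (1 : ℝ) / (Ideal.absNorm I : ℝ)) ^ (k ^ 2) ≤ (C * (1 + Real.log y) ^ n) ^ (k ^ 2) :=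
    pow_le_pow_left₀ (Finset.sum_nonneg fun I _ => by positivity) (h L hL y hy) _
  refine (mul_le_mul_of_nonneg_left h6 hy0).trans_eq ?_
  rw [mul_pow, ← pow_mul]
  ring

end H57.AN
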