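import Pool.Agent.H57.TLS.Uni
import Pool.Agent.H57.AN.Tau

/-!
# [H57 AN CUI] Upper bound for the number of ideals, uniform in the field (130 lines)

`cui`: as the second part of `H57.TLS.uni` (with `N = 1`), but keep the factor `Z0 = 2 C₁ √(dd F)`: the proof gives (`uni_major` with `g = 1`)
`#M ≤ ∑_{𝔫 ∈ IN F Z0} #(bxs 𝔫 R) ≤ C X ∑_{𝔫 ∈ IN F Z0} 1 / N 𝔫 ≤ C X (log Z0)^n` (`har`), `log Z0 ≤ C (1 + log (dd F))`. Copy the first 100 lines of the
proof of `uni`.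
`hsu`: for `Y ≤ X₀ := max 2 (C (dd F)^A)` use `in_har` (`(1 + log Y)^n ≤ (1 + log Y) (1 + log X₀)^(n-1)`); for `Y > X₀`: `in_har` at `X₀` and dyadic
intervals `(2^i X₀, 2^(i+1) X₀]`: each contributes at most `2 C (1 + log (dd F))^n` by `cui` (all terms are at most `1 / (2^i X₀)`), there are at most
`1 + log (Y / X₀) / log 2` of them.
-/

set_option autoImplicit false

open scoped NumberField
open NumberField IsDedekindDomain H63.MA H36.QA H57.TLS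
open scoped Classical

noncomputable section

namespace H57.AN

theorem cui (n : ℕ) (hn : 0 < n) : ∃ (C : ℝ) (A : ℕ), 1 ≤ C ∧ ∀ (L : Type) [Field L] [NumberField L], TC L n →
    ∀ X : ℝ, 2 ≤ X → C * dd L ^ A ≤ X → ∀ M : Finset (Ideal (𝓞 L)),
      (∀ I ∈ M, X < Ideal.absNorm I ∧ (Ideal.absNorm I : ℝ) ≤ 2 * X) →
        (M.card : ℝ) ≤ C * (X * (1 + Real.log (dd L)) ^ n) := by
  obtain ⟨C₁, hC₁, h1⟩ := mink n hn
  obtain ⟨C₂, hC₂, A₂, h2⟩ := box_count n hn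
  obtain ⟨C₄, hC₄, h4⟩ := har n hn
  have hk : 0 ≤ kpn n := by
    unfold kpn
    positivity
  have hlC : 0 ≤ Real.log (2 * C₁) := Real.log_nonneg (by linarith)
  obtain ⟨E, hE⟩ : ∃ E : ℝ, E = (kpn n + C₂) * (2 * C₁) * C₄ * (1 + Real.log (2 * C₁)) ^ n := ⟨_, rfl⟩
  have hE0 : 0 ≤ E := by rw [hE]; positivity
  refine ⟨C₂ + E, A₂, by linarith, ?_⟩
  intro L _ _ hF X hX hCX M hM
  have hd : 1 ≤ dd L := one_le_dd L
  obtain ⟨s, hs⟩ : ∃ s : ℝ, s = Real.sqrt (dd L) := ⟨_, rfl⟩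
  have hs1 : 1 ≤ s := by
    rw [hs]
    exact Real.one_le_sqrt.2 hd
  have hs2 : s * s = dd L := by
    rw [hs]
    exact Real.mul_self_sqrt (by linarith)
  have hsd : s ≤ dd L := by nlinarith
  have hdA : 0 ≤ dd L ^ A₂ := by positivity
  have hX1 : C₂ * dd L ^ A₂ ≤ X := by nlinarith
  have hY : 1 ≤ 2 * C₁ * s * X := by
    have : 1 ≤ C₁ * s := by nlinarith
    nlinarith
  obtain ⟨R, hR1, hRn, -⟩ := uni_root hn hY
  have hR0 : 0 < R := by linarith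
  have hZ2 : 2 ≤ 2 * C₁ * s := by nlinarith
  have hlog : 0 ≤ Real.log (2 * C₁ * s) := Real.log_nonneg (by linarith)
  have hsum := h4 L hF.2 (2 * C₁ * s) hZ2
  have hmaj := uni_major hC₁ hF (h1 L hF) (by linarith) hR0 (by rw [hRn, hs]) (fun _ => (1 : ℝ)) (fun _ => zero_le_one) M hM
  rw [← hs] at hmaj
  simp only [Finset.sum_const, nsmul_eq_mul, mul_one] at hmaj
  have hone : ∀ 𝔫 ∈ IN L (2 * C₁ * s), ((bxs 𝔫 R).card : ℝ) ≤
      (kpn n + C₂) * (2 * C₁) * X * (1 / Ideal.absNorm 𝔫) := by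
    intro 𝔫 h𝔫
    obtain ⟨hn1, hn0⟩ := (mem_IN (by linarith)).1 h𝔫
    have hN𝔫 : 0 < (Ideal.absNorm 𝔫 : ℝ) := by
      have : Ideal.absNorm 𝔫 ≠ 0 := by rwa [Ne, Ideal.absNorm_eq_zero_iff]
      exact_mod_cast Nat.pos_of_ne_zero this
    have h5 := uni_card hn (h2 L hF 𝔫 hn0 R R hR0 le_rfl (by
      rw [hRn]
      calc C₂ * dd L ^ A₂ * Ideal.absNorm 𝔫 ≤ X * (2 * C₁ * s) := by
            refine mul_le_mul hX1 hn1 hN𝔫.le (by linarith)
        _ = 2 * C₁ * s * X := by ring) 0)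
    rw [hRn, ← hs] at h5
    rw [mul_one_div, le_div_iff₀ hN𝔫]
    have hs0 : 0 < s := by linarith
    refine le_of_mul_le_mul_right ?_ hs0
    calc ((bxs 𝔫 R).card : ℝ) * Ideal.absNorm 𝔫 * s = ((bxs 𝔫 R).card : ℝ) * (Ideal.absNorm 𝔫 * s) := by ring
      _ ≤ (kpn n + C₂) * (2 * C₁ * s * X) := h5
      _ = (kpn n + C₂) * (2 * C₁) * X * s := by ring
  have hlogd : 0 ≤ Real.log (dd L) := Real.log_nonneg hd
  have hlogX : Real.log (2 * C₁ * s) ≤ (1 + Real.log (2 * C₁)) * (1 + Real.log (dd L)) := by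
    rw [Real.log_mul (by positivity) (by positivity)]
    have h6 : Real.log s ≤ Real.log (dd L) := Real.log_le_log (by linarith) hsd
    nlinarith [mul_nonneg hlC hlogd]
  have hX0 : 0 ≤ X := by linarith
  calc (M.card : ℝ) ≤ ∑ 𝔫 ∈ IN L (2 * C₁ * s), ((bxs 𝔫 R).card : ℝ) := hmaj
    _ ≤ ∑ 𝔫 ∈ IN L (2 * C₁ * s), (kpn n + C₂) * (2 * C₁) * X * (1 / Ideal.absNorm 𝔫) :=
        Finset.sum_le_sum hone
    _ = (kpn n + C₂) * (2 * C₁) * X * ∑ 𝔫 ∈ IN L (2 * C₁ * s), (1 : ℝ) / Ideal.absNorm 𝔫 := by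
        rw [Finset.mul_sum]
    _ ≤ (kpn n + C₂) * (2 * C₁) * X * (C₄ * Real.log (2 * C₁ * s) ^ n) :=
        mul_le_mul_of_nonneg_left hsum (by positivity)
    _ ≤ (kpn n + C₂) * (2 * C₁) * X * (C₄ * ((1 + Real.log (2 * C₁)) * (1 + Real.log (dd L))) ^ n) := by
        refine mul_le_mul_of_nonneg_left ?_ (by positivity)
        exact mul_le_mul_of_nonneg_left (pow_le_pow_left₀ hlog hlogX n) (by linarith)
    _ = E * (X * (1 + Real.log (dd L)) ^ n) := by rw [hE, mul_pow]; ring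
    _ ≤ (C₂ + E) * (X * (1 + Real.log (dd L)) ^ n) := by
        have h6 : 0 ≤ X * (1 + Real.log (dd L)) ^ n := by positivity
        exact mul_le_mul_of_nonneg_right (by linarith) h6

private theorem cui_pow {Y : ℝ} (hY : 1 ≤ Y) : ∃ i : ℕ, Y ≤ 2 ^ i ∧ (i : ℝ) ≤ 2 * (1 + Real.log Y) := by
  have h2 : (1 / 2 : ℝ) < Real.log 2 := by
    have := Real.log_two_gt_d9
    linarith
  have hY0 : 0 ≤ Real.log Y := Real.log_nonneg hY
  refine ⟨⌈Real.log Y / Real.log 2⌉₊, ?_, ?_⟩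
  · have h3 := Nat.le_ceil (Real.log Y / Real.log 2)
    rw [div_le_iff₀ (by linarith), ← Real.log_pow] at h3
    exact (Real.log_le_log_iff (by linarith) (by positivity)).1 h3
  · have h3 := Nat.ceil_lt_add_one (show 0 ≤ Real.log Y / Real.log 2 by positivity)
    have h4 : Real.log Y / Real.log 2 ≤ 2 * Real.log Y := by
      rw [div_le_iff₀ (by linarith)]
      nlinarith
    linarith

theorem hsu (n : ℕ) (hn : 0 < n) : ∃ (C : ℝ) (A : ℕ), 1 ≤ C ∧ ∀ (L : Type) [Field L] [NumberField L], TC L n →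
    ∀ Y : ℝ, 1 ≤ Y → ∑ I ∈ IN L Y, (1 : ℝ) / Ideal.absNorm I ≤ C * (1 + Real.log (dd L)) ^ A * (1 + Real.log Y) := by
  obtain ⟨C, A, hC, h1⟩ := cui n hn
  obtain ⟨C₅, hC₅, h5⟩ := in_har n hn
  have hl : 0 ≤ Real.log (2 * C) := Real.log_nonneg (by linarith)
  obtain ⟨K, hK⟩ : ∃ K : ℝ, K = 1 + Real.log (2 * C) + A := ⟨_, rfl⟩
  have hK1 : 1 ≤ K := by
    rw [hK]
    have : (0 : ℝ) ≤ A := Nat.cast_nonneg _
    linarith
  have hKn : 1 ≤ K ^ n := one_le_pow₀ hK1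
  refine ⟨C₅ * K ^ n + 2 * C, n, by nlinarith, ?_⟩
  intro L _ _ hF Y hY
  have hd : 1 ≤ dd L := one_le_dd L
  have hlogd : 0 ≤ Real.log (dd L) := Real.log_nonneg hd
  obtain ⟨D, hD⟩ : ∃ D : ℝ, D = 1 + Real.log (dd L) := ⟨_, rfl⟩
  have hD1 : 1 ≤ D := by rw [hD]; linarith
  obtain ⟨X₀, hX₀⟩ : ∃ X₀ : ℝ, X₀ = 2 * C * dd L ^ A := ⟨_, rfl⟩
  have hdA : 1 ≤ dd L ^ A := one_le_pow₀ hd
  have hX2 : 2 ≤ X₀ := by
    rw [hX₀]
    nlinarith
  have hX3 : C * dd L ^ A ≤ X₀ := by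
    rw [hX₀]
    nlinarith
  have hlX : 1 + Real.log X₀ ≤ K * D := by
    rw [hX₀, Real.log_mul (by positivity) (by positivity), Real.log_pow, hK, hD]
    have h6 : (0 : ℝ) ≤ A := Nat.cast_nonneg _
    nlinarith [mul_nonneg hl hlogd]
  have hlX0 : 0 ≤ Real.log X₀ := Real.log_nonneg (by linarith)
  -- one step
  have hstep : ∀ y : ℝ, X₀ ≤ y → ∑ I ∈ IN L (2 * y), (1 : ℝ) / Ideal.absNorm I ≤
      ∑ I ∈ IN L y, (1 : ℝ) / Ideal.absNorm I + C * D ^ n := by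
    intro y hy
    have hy0 : 0 < y := by linarith
    have hsub : IN L y ⊆ IN L (2 * y) := by
      intro I hI
      rw [mem_IN hy0.le] at hI
      rw [mem_IN (by linarith)]
      exact ⟨by linarith [hI.1], hI.2⟩
    rw [← Finset.sum_sdiff hsub, add_comm]
    refine add_le_add le_rfl ?_
    have hM : ∀ I ∈ IN L (2 * y) \ IN L y, y < Ideal.absNorm I ∧ (Ideal.absNorm I : ℝ) ≤ 2 * y := by
      intro I hI
      rw [Finset.mem_sdiff, mem_IN (by linarith), mem_IN hy0.le] at hI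
      refine ⟨?_, hI.1.1⟩
      by_contra h
      exact hI.2 ⟨not_lt.1 h, hI.1.2⟩
    have h6 := h1 L hF y (by linarith) (hX3.trans hy) _ hM
    calc ∑ I ∈ IN L (2 * y) \ IN L y, (1 : ℝ) / Ideal.absNorm I
        ≤ ∑ _I ∈ IN L (2 * y) \ IN L y, 1 / y := by
          refine Finset.sum_le_sum fun I hI => ?_
          exact one_div_le_one_div_of_le hy0 (hM I hI).1.le
      _ = ((IN L (2 * y) \ IN L y).card : ℝ) * (1 / y) := by rw [Finset.sum_const, nsmul_eq_mul]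
      _ ≤ C * (y * (1 + Real.log (dd L)) ^ n) * (1 / y) := mul_le_mul_of_nonneg_right h6 (by positivity)
      _ = C * D ^ n := by
          rw [hD]
          field_simp
  have hit : ∀ i : ℕ, ∑ I ∈ IN L (2 ^ i * X₀), (1 : ℝ) / Ideal.absNorm I ≤
      ∑ I ∈ IN L X₀, (1 : ℝ) / Ideal.absNorm I + i * (C * D ^ n) := by
    intro i
    induction i with
    | zero => simp
    | succ i ih =>
      have h6 := hstep (2 ^ i * X₀) (le_mul_of_one_le_left (by linarith) (one_le_pow₀ (by norm_num)))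
      have e : 2 * (2 ^ i * X₀) = 2 ^ (i + 1) * X₀ := by ring
      rw [e] at h6
      push_cast
      linarith
  obtain ⟨i, hi1, hi2⟩ := cui_pow hY
  have hsub : IN L Y ⊆ IN L (2 ^ i * X₀) := by
    intro I hI
    rw [mem_IN (by linarith)] at hI
    rw [mem_IN (by positivity)]
    refine ⟨hI.1.trans ?_, hI.2⟩
    have : (2 : ℝ) ^ i ≤ 2 ^ i * X₀ := le_mul_of_one_le_right (by positivity) (by linarith)
    linarith
  have hDn : 1 ≤ D ^ n := one_le_pow₀ hD1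
  have hlY : 0 ≤ Real.log Y := Real.log_nonneg hY
  rw [← hD]
  calc ∑ I ∈ IN L Y, (1 : ℝ) / Ideal.absNorm I
      ≤ ∑ I ∈ IN L (2 ^ i * X₀), (1 : ℝ) / Ideal.absNorm I :=
        Finset.sum_le_sum_of_subset_of_nonneg hsub fun I _ _ => by positivity
    _ ≤ ∑ I ∈ IN L X₀, (1 : ℝ) / Ideal.absNorm I + i * (C * D ^ n) := hit i
    _ ≤ C₅ * (K * D) ^ n + 2 * (1 + Real.log Y) * (C * D ^ n) := by
        refine add_le_add ((h5 L hF.2 X₀ (by linarith)).trans ?_) ?_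
        · exact mul_le_mul_of_nonneg_left (pow_le_pow_left₀ (by linarith) hlX n) (by linarith)
        · exact mul_le_mul_of_nonneg_right hi2 (by positivity)
    _ ≤ C₅ * (K * D) ^ n * (1 + Real.log Y) + 2 * (1 + Real.log Y) * (C * D ^ n) := by
        refine add_le_add (le_mul_of_one_le_right (by positivity) (by linarith)) le_rfl
    _ = (C₅ * K ^ n + 2 * C) * D ^ n * (1 + Real.log Y) := by rw [mul_pow]; ring

end H57.AN
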