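import Pool.Agent.H57.AN.Moa
import Pool.Agent.H57.LC.Rec
import Pool.Agent.H57.LI.Sfk

/-!
# [H57 AN MO] The main term: from all elements to the squarefree products (250 lines)

Notation as in `H57.LC.cmp` (read the proof in H57/LC/Cmp.lean and copy its private lemmas): `T` a finite set of primes, `S T` the set of all `q` with
`u q ∈ T`, `U_T M = G.U p g 1 T (S T) M`, `P_l = (1 + g l X) ∏_{q, u q = l} (1 - X^(f q))`, `U_(insert l T) = op (N l) P_l (U_T)`, `U_∅ = W = #B`.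
`lp M = 1 + max 0 (log M)`; class of the functions with `‖F M‖ ≤ D M (lp M)^k` for all `M > 0`.
`mo_op` (file Moa): `‖op N P F M - F M‖ ≤ η D M (lp M)^k`, `η = ∑_{j ≥ 1} ‖coeff j‖ N^(-j)` (`P.coeff 0 = 1`; `op N P F M = ∑_j coeff_j F (M / N^j)`).
`mo_lim` (file Moa): `F M / (M log^k M) → τ` implies `op N P F M / (M log^k M) → τ P(1/N)` (finite sum; `log (M / N^j) / log M → 1`; `H63.MB.bue_scale` is a model).
`η_l`: `l ∉ Sb`: `coeff 1 = 0`, so `η_l ≤ H (N l)^(-2)`, `H = l1 P_l ≤ (1 + E) 2^e`; `l ∈ Sb`: `η_l ≤ H (N l)^(-1)`; so `∑_{l ∈ T} η_l ≤ Σ₀` for all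
finite `T` (`hS`; `∑ (N l)^(-2)` as `cmp_sum` in H57/LC/Cmp.lean).
Then (i) `‖U_T M‖ ≤ D₁ M (lp M)^k`, `D₁ = C exp Σ₀`, for all `T`, `M > 0` (for `M < 1` all is `0`); (ii) for disjoint `T`, `T'`:
`‖U_(T ∪ T') M - U_T M‖ ≤ D₁ (exp (∑_{T'} η) - 1) M (lp M)^k`; (iii) `U_T M / (M log^k M) → λ_T = τ ∏_{l ∈ T} P_l(1 / N l)`, a positive real number
(`1 - (N l)^(-f) ≥ 1/2`); (iv) `U_(p.P Y) Y = ∑_{s ∈ p.SF Y} ∏ g` (`U_end`). Given `ε` choose `T` finite with `∑_{T'} η ≤ ε` for all `T'` disjoint from `T`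
(a sum of nonnegative terms with bounded partial sums), so the limit `l` exists (Cauchy: `H63.MB.bue_cauchy` is a model) and `|l - λ_T| ≤ 2 D₁ ε`
for all large `T`. Positivity: `P_l(1/N l) ≥ 1 - η_l`; with `T₀` such that `∑_{T'} η ≤ 1/4` outside `T₀`, `λ_T ≥ (3/4) λ_{T₀} > 0` for all `T ⊇ T₀`
(`∏ (1 - η) ≥ 1 - ∑ η`), so `l ≥ (3/4) λ_{T₀}`.
-/

set_option autoImplicit false

open Filter Topology
open scoped Classical

noncomputable section

namespace H57.AN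

open H57.LC H57.LI Polynomial

private def et (N : ℝ) (P : ℂ[X]) : ℝ := ∑ j ∈ P.support.erase 0, ‖P.coeff j‖ * (N ^ j)⁻¹

private theorem mo_et0 (N : ℝ) (hN : 2 ≤ N) (P : ℂ[X]) : 0 ≤ et N P := by
  unfold et
  exact Finset.sum_nonneg fun j _ => by positivity

private theorem mo_l1_0 (P : ℂ[X]) : 0 ≤ l1 P := by
  unfold l1
  exact Finset.sum_nonneg fun _ _ => norm_nonneg _

private theorem mo_et1 (N : ℝ) (hN : 2 ≤ N) (P : ℂ[X]) : et N P ≤ l1 P * N⁻¹ := by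
  unfold et l1
  rw [Finset.sum_mul]
  refine (Finset.sum_le_sum fun j hj => ?_).trans
    (Finset.sum_le_sum_of_subset_of_nonneg (Finset.erase_subset 0 P.support) fun j _ _ => by positivity)
  have hj0 : j ≠ 0 := Finset.ne_of_mem_erase hj
  refine mul_le_mul_of_nonneg_left ?_ (norm_nonneg _)
  exact inv_anti₀ (by linarith) (le_self_pow₀ (by linarith) hj0)

private theorem mo_et2 (N : ℝ) (hN : 2 ≤ N) (P : ℂ[X]) (h1 : P.coeff 1 = 0) : et N P ≤ l1 P * (N ^ 2)⁻¹ := by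
  unfold et l1
  rw [Finset.sum_mul]
  refine (Finset.sum_le_sum fun j hj => ?_).trans
    (Finset.sum_le_sum_of_subset_of_nonneg (Finset.erase_subset 0 P.support) fun j _ _ => by positivity)
  have hj0 : j ≠ 0 := Finset.ne_of_mem_erase hj
  by_cases hj1 : j = 1
  · rw [hj1, h1, norm_zero, zero_mul, zero_mul]
  · refine mul_le_mul_of_nonneg_left ?_ (norm_nonneg _)
    exact inv_anti₀ (by positivity) (pow_le_pow_right₀ (by linarith) (by omega))

private theorem mo_ev (N : ℝ) (hN : 2 ≤ N) (P : ℂ[X]) (h0 : P.coeff 0 = 1) :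
    ‖P.eval ((N : ℂ)⁻¹) - 1‖ ≤ et N P := by
  have h0m : 0 ∈ P.support := by
    rw [mem_support_iff, h0]
    exact one_ne_zero
  rw [eval_eq_sum, sum_def, ← Finset.add_sum_erase _ _ h0m, h0, pow_zero, mul_one, add_sub_cancel_left]
  unfold et
  refine (norm_sum_le _ _).trans (Finset.sum_le_sum fun j _ => le_of_eq ?_)
  rw [norm_mul, norm_pow, norm_inv, Complex.norm_real, Real.norm_eq_abs, abs_of_pos (by linarith), inv_pow]

section abs

variable {ι : Type} (V : Finset ι → ℝ → ℂ) (N : ι → ℝ) (hN : ∀ l, 2 ≤ N l) (P : ι → ℂ[X]) (h0 : ∀ l, (P l).coeff 0 = 1)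
  (hV : ∀ (T : Finset ι) (l : ι), l ∉ T → V (insert l T) = op (N l) (P l) (V T)) (C : ℝ) (k : ℕ)
  (hC : ∀ M : ℝ, 0 < M → ‖V ∅ M‖ ≤ C * M * (1 + max 0 (Real.log M)) ^ k)

include hN h0 hV hC

private theorem mo_a1 (T : Finset ι) : ∀ M : ℝ, 0 < M →
    ‖V T M‖ ≤ (C * ∏ l ∈ T, (1 + et (N l) (P l))) * M * (1 + max 0 (Real.log M)) ^ k := by
  induction T using Finset.induction_on with
  | empty =>
    intro M hM
    rw [Finset.prod_empty, mul_one]
    exact hC M hM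
  | insert l T hl ih =>
    intro M hM
    have h1 := mo_op (N l) (hN l) (P l) (h0 l) (V T) _ k ih M hM
    have h2 := ih M hM
    rw [hV T l hl, Finset.prod_insert hl]
    have h3 : op (N l) (P l) (V T) M = (op (N l) (P l) (V T) M - V T M) + V T M := by ring
    rw [h3]
    refine (norm_add_le _ _).trans ((add_le_add h1 h2).trans (le_of_eq ?_))
    unfold et
    ring

private theorem mo_a2 (T T' : Finset ι) (hd : Disjoint T' T) : ∀ M : ℝ, 0 < M →
    ‖V (T' ∪ T) M - V T M‖ ≤ (C * ∏ l ∈ T, (1 + et (N l) (P l))) * (∏ l ∈ T', (1 + et (N l) (P l)) - 1) *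
      (M * (1 + max 0 (Real.log M)) ^ k) := by
  induction T' using Finset.induction_on with
  | empty =>
    intro M hM
    rw [Finset.empty_union, Finset.prod_empty, sub_self, norm_zero, sub_self, mul_zero, zero_mul]
  | insert l T' hl ih =>
    intro M hM
    have hd1 : Disjoint T' T := Disjoint.mono_left (Finset.subset_insert l T') hd
    have hlT : l ∉ T := fun h => (Finset.disjoint_left.1 hd (Finset.mem_insert_self l T')) h
    have hlu : l ∉ T' ∪ T := by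
      rw [Finset.mem_union]
      exact fun h => h.elim hl hlT
    have ih1 := ih hd1 M hM
    have h1 := mo_op (N l) (hN l) (P l) (h0 l) (V (T' ∪ T)) _ k (mo_a1 V N hN P h0 hV C k hC (T' ∪ T)) M hM
    rw [Finset.insert_union, hV _ l hlu, Finset.prod_insert hl]
    have h3 : op (N l) (P l) (V (T' ∪ T)) M - V T M =
        (op (N l) (P l) (V (T' ∪ T)) M - V (T' ∪ T) M) + (V (T' ∪ T) M - V T M) := by ring
    rw [h3]
    refine (norm_add_le _ _).trans ((add_le_add h1 ih1).trans (le_of_eq ?_))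
    rw [Finset.prod_union hd1]
    unfold et
    ring

omit hN h0 hC in
private theorem mo_a3 (hN : ∀ l, 2 ≤ N l) (τ : ℂ)
    (hF : Tendsto (fun M : ℝ => V ∅ M / ((M * Real.log M ^ k : ℝ) : ℂ)) atTop (𝓝 τ)) (T : Finset ι) :
    Tendsto (fun M : ℝ => V T M / ((M * Real.log M ^ k : ℝ) : ℂ)) atTop
      (𝓝 (τ * ∏ l ∈ T, (P l).eval ((N l : ℂ)⁻¹))) := by
  induction T using Finset.induction_on with
  | empty =>
    rw [Finset.prod_empty, mul_one]
    exact hF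
  | insert l T hl ih =>
    have h1 := mo_lim (N l) (hN l) (P l) (V T) _ k ih
    rw [hV T l hl, Finset.prod_insert hl]
    have h2 : τ * ((P l).eval ((N l : ℂ)⁻¹) * ∏ l ∈ T, (P l).eval ((N l : ℂ)⁻¹)) =
        τ * (∏ l ∈ T, (P l).eval ((N l : ℂ)⁻¹)) * (P l).eval ((N l : ℂ)⁻¹) := by ring
    rw [h2]
    exact h1

end abs

private theorem mo_prod {ι : Type} (x η : ι → ℝ) (hx : ∀ l, 0 ≤ x l) (hη : ∀ l, 0 ≤ η l) (h : ∀ l, 1 - η l ≤ x l)
    (T : Finset ι) : 1 - ∑ l ∈ T, η l ≤ ∏ l ∈ T, x l := by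
  induction T using Finset.induction_on with
  | empty => rw [Finset.sum_empty, Finset.prod_empty, sub_zero]
  | insert l T hl ih =>
    rw [Finset.sum_insert hl, Finset.prod_insert hl]
    have h1 : 0 ≤ ∑ l ∈ T, η l := Finset.sum_nonneg fun _ _ => hη _
    have h2 : 0 ≤ ∏ l ∈ T, x l := Finset.prod_nonneg fun _ _ => hx _
    have h3 := hx l
    have h4 := hη l
    have h5 := h l
    rcases le_total 0 (1 - ∑ l ∈ T, η l) with h6 | h6
    · have h7 : x l * (1 - ∑ l ∈ T, η l) ≤ x l * ∏ l ∈ T, x l := mul_le_mul_of_nonneg_left ih h3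
      nlinarith
    · have h7 := mul_nonneg h3 h2
      linarith

private theorem mo_exp {ι : Type} (η : ι → ℝ) (hη : ∀ l, 0 ≤ η l) (T : Finset ι) (c : ℝ) (h : ∑ l ∈ T, η l ≤ c) :
    ∏ l ∈ T, (1 + η l) ≤ Real.exp c := by
  have h1 : ∏ l ∈ T, (1 + η l) ≤ ∏ l ∈ T, Real.exp (η l) :=
    Finset.prod_le_prod (fun l _ => by have := hη l; linarith) fun l _ => by
      have := Real.add_one_le_exp (η l)
      linarith
  rw [← Real.exp_sum] at h1
  exact h1.trans (Real.exp_le_exp.2 h)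

private theorem mo_one {ι : Type} (η : ι → ℝ) (hη : ∀ l, 0 ≤ η l) (T : Finset ι) : 1 ≤ ∏ l ∈ T, (1 + η l) := by
  have h := Finset.prod_le_prod (s := T) (f := fun _ => (1 : ℝ)) (g := fun l => 1 + η l)
    (fun _ _ => zero_le_one) (fun l _ => by have := hη l; linarith)
  rwa [Finset.prod_const_one] at h

/-- the limit, abstractly -/
private theorem mo_main {ι : Type} (V : Finset ι → ℝ → ℂ) (N : ι → ℝ) (hN : ∀ l, 2 ≤ N l) (P : ι → ℂ[X])
    (h0 : ∀ l, (P l).coeff 0 = 1) (hV : ∀ (T : Finset ι) (l : ι), l ∉ T → V (insert l T) = op (N l) (P l) (V T))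
    (C : ℝ) (k : ℕ) (hC : ∀ M : ℝ, 0 < M → ‖V ∅ M‖ ≤ C * M * (1 + max 0 (Real.log M)) ^ k)
    (x : ι → ℝ) (hx : ∀ l, 0 < x l) (hxP : ∀ l, (P l).eval ((N l : ℂ)⁻¹) = (x l : ℂ))
    (hs : Summable fun l => et (N l) (P l)) (τ : ℝ) (hτ : 0 < τ)
    (hF : Tendsto (fun M : ℝ => V ∅ M / ((M * Real.log M ^ k : ℝ) : ℂ)) atTop (𝓝 (τ : ℂ)))
    (Z : ℝ → Finset ι) (hZ : ∀ l, ∀ᶠ Y in atTop, l ∈ Z Y) (a : ℝ → ℝ) (ha : ∀ Y : ℝ, V (Z Y) Y = (a Y : ℂ)) :
    ∃ l : ℝ, 0 < l ∧ Tendsto (fun Y : ℝ => a Y / (Y * Real.log Y ^ k)) atTop (𝓝 l) := by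
  have hη : ∀ l, 0 ≤ et (N l) (P l) := fun l => mo_et0 _ (hN l) _
  obtain ⟨S0, hS0⟩ : ∃ S0 : ℝ, ∀ T : Finset ι, ∑ l ∈ T, et (N l) (P l) ≤ S0 :=
    ⟨_, fun T => hs.sum_le_tsum T fun l _ => hη l⟩
  have hC0 : 0 ≤ C := by
    have h := hC 1 one_pos
    rw [Real.log_one, max_self, add_zero, one_pow, mul_one, mul_one] at h
    exact (norm_nonneg _).trans h
  -- comparison
  have hcmp : ∀ (δ : ℝ) (T : Finset ι), 0 ≤ δ → (∀ T' : Finset ι, Disjoint T' T → ∑ l ∈ T', et (N l) (P l) ≤ δ) →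
      ∀ᶠ Y : ℝ in atTop, |a Y / (Y * Real.log Y ^ k) - (V T Y).re / (Y * Real.log Y ^ k)| ≤
        C * Real.exp S0 * (Real.exp δ - 1) * 2 ^ k := by
    intro δ T hδ hT
    have hsub : ∀ᶠ Y : ℝ in atTop, T ⊆ Z Y := by
      have h1 : ∀ᶠ Y : ℝ in atTop, ∀ l ∈ T, l ∈ Z Y := (Filter.eventually_all_finset T).2 fun l _ => hZ l
      exact h1.mono fun Y h l hl => h l hl
    filter_upwards [hsub, eventually_ge_atTop (Real.exp 1)] with Y hY1 hY2
    have hY0 : 0 < Y := lt_of_lt_of_le (Real.exp_pos 1) hY2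
    have hlog : 1 ≤ Real.log Y := by
      rw [Real.le_log_iff_exp_le hY0]
      exact hY2
    have hpos : 0 < Y * Real.log Y ^ k := by positivity
    have hd : Disjoint (Z Y \ T) T := Finset.sdiff_disjoint
    have h1 := mo_a2 V N hN P h0 hV C k hC T (Z Y \ T) hd Y hY0
    rw [Finset.sdiff_union_of_subset hY1, ha] at h1
    have h2 : |a Y - (V T Y).re| ≤ ‖(a Y : ℂ) - V T Y‖ := by
      have h3 := Complex.abs_re_le_norm ((a Y : ℂ) - V T Y)
      rwa [Complex.sub_re, Complex.ofReal_re] at h3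
    rw [← sub_div, abs_div, abs_of_pos hpos, div_le_iff₀ hpos]
    refine (h2.trans h1).trans ?_
    have e1 : (1 + max 0 (Real.log Y)) ^ k ≤ 2 ^ k * Real.log Y ^ k := by
      rw [← mul_pow, max_eq_right (by linarith)]
      exact pow_le_pow_left₀ (by linarith) (by linarith) k
    have e2 : C * ∏ l ∈ T, (1 + et (N l) (P l)) ≤ C * Real.exp S0 :=
      mul_le_mul_of_nonneg_left (mo_exp _ hη T S0 (hS0 T)) hC0
    have e3 : ∏ l ∈ Z Y \ T, (1 + et (N l) (P l)) - 1 ≤ Real.exp δ - 1 := by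
      have := mo_exp _ hη (Z Y \ T) δ (hT _ hd)
      linarith
    have e4 : 0 ≤ ∏ l ∈ Z Y \ T, (1 + et (N l) (P l)) - 1 := by
      have := mo_one _ hη (Z Y \ T)
      linarith
    have e5 : 0 ≤ C * Real.exp S0 := mul_nonneg hC0 (Real.exp_pos _).le
    have e6 : 0 ≤ Real.exp δ - 1 := by
      have := Real.one_le_exp hδ
      linarith
    have e7 : C * Real.exp S0 * (Real.exp δ - 1) * 2 ^ k * (Y * Real.log Y ^ k) =
        C * Real.exp S0 * (Real.exp δ - 1) * (Y * (2 ^ k * Real.log Y ^ k)) := by ring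
    rw [e7]
    refine mul_le_mul (mul_le_mul e2 e3 e4 e5) (mul_le_mul_of_nonneg_left e1 hY0.le) ?_ (mul_nonneg e5 e6)
    have : 0 ≤ max 0 (Real.log Y) := le_max_left _ _
    positivity
  -- the limits
  have hlim : ∀ T : Finset ι, Tendsto (fun Y : ℝ => (V T Y).re / (Y * Real.log Y ^ k)) atTop
      (𝓝 (τ * ∏ l ∈ T, x l)) := by
    intro T
    have h1 := mo_a3 V N P hV k hN (τ : ℂ) hF T
    have h2 := (Complex.continuous_re.tendsto _).comp h1
    have e1 : ((τ : ℂ) * ∏ l ∈ T, (P l).eval ((N l : ℂ)⁻¹)).re = τ * ∏ l ∈ T, x l := by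
      have e2 : ∏ l ∈ T, (P l).eval ((N l : ℂ)⁻¹) = ((∏ l ∈ T, x l : ℝ) : ℂ) := by
        rw [Complex.ofReal_prod]
        exact Finset.prod_congr rfl fun l _ => hxP l
      rw [e2, ← Complex.ofReal_mul, Complex.ofReal_re]
    rw [e1] at h2
    refine h2.congr fun Y => ?_
    show (V T Y / ((Y * Real.log Y ^ k : ℝ) : ℂ)).re = _
    rw [Complex.div_ofReal_re]
  have hvan : ∀ δ : ℝ, 0 < δ → ∃ T : Finset ι, ∀ T' : Finset ι, Disjoint T' T → ∑ l ∈ T', et (N l) (P l) ≤ δ := by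
    intro δ hδ
    obtain ⟨T, hT⟩ := summable_iff_vanishing_norm.1 hs δ hδ
    refine ⟨T, fun T' hT' => ?_⟩
    have h1 := hT T' hT'
    exact (le_abs_self _).trans (Real.norm_eq_abs _ ▸ h1.le)
  have hsmall : ∀ ε : ℝ, 0 < ε → ∃ δ : ℝ, 0 < δ ∧ C * Real.exp S0 * (Real.exp δ - 1) * 2 ^ k ≤ ε := by
    intro ε hε
    have h1 : Tendsto (fun δ : ℝ => C * Real.exp S0 * (Real.exp δ - 1) * 2 ^ k) (𝓝 0)
        (𝓝 (C * Real.exp S0 * (Real.exp 0 - 1) * 2 ^ k)) :=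
      (((Real.continuous_exp.tendsto 0).sub_const 1).const_mul _).mul_const _
    rw [Real.exp_zero, sub_self, mul_zero, zero_mul] at h1
    have h2 := (h1.eventually (gt_mem_nhds hε)).filter_mono (nhdsWithin_le_nhds (s := Set.Ioi (0 : ℝ)))
    obtain ⟨δ, h3, h4⟩ := (h2.and self_mem_nhdsWithin).exists
    exact ⟨δ, h4, h3.le⟩
  obtain ⟨L, hL⟩ : ∃ L : ℝ, Tendsto (fun Y : ℝ => a Y / (Y * Real.log Y ^ k)) atTop (𝓝 L) := by
    have hc : Cauchy (map (fun Y : ℝ => a Y / (Y * Real.log Y ^ k)) atTop) := by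
      rw [Metric.cauchy_iff]
      refine ⟨inferInstance, fun ε hε => ?_⟩
      obtain ⟨δ, hδ, hδ2⟩ := hsmall (ε / 6) (by positivity)
      obtain ⟨T, hT⟩ := hvan δ hδ
      have hfg := hcmp δ T hδ.le hT
      have h1 := (Metric.tendsto_nhds.1 (hlim T)) (ε / 6) (by positivity)
      obtain ⟨l, hl⟩ : ∃ l : ℝ, l = τ * ∏ l ∈ T, x l := ⟨_, rfl⟩
      obtain ⟨gg, hgg⟩ : ∃ gg : ℝ → ℝ, gg = fun Y => (V T Y).re / (Y * Real.log Y ^ k) := ⟨_, rfl⟩
      obtain ⟨ff, hff⟩ : ∃ ff : ℝ → ℝ, ff = fun Y => a Y / (Y * Real.log Y ^ k) := ⟨_, rfl⟩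
      rw [← hff]
      refine ⟨ff '' {y | |ff y - gg y| ≤ ε / 6 ∧ dist (gg y) l < ε / 6}, ?_, ?_⟩
      · rw [mem_map]
        filter_upwards [hfg, h1] with y hy1 hy2
        refine ⟨y, ⟨?_, ?_⟩, rfl⟩
        · rw [hff, hgg]
          exact hy1.trans hδ2
        · rw [hgg, hl]
          exact hy2
      · rintro _ ⟨y, ⟨hy1, hy2⟩, rfl⟩ _ ⟨z, ⟨hz1, hz2⟩, rfl⟩
        rw [Real.dist_eq] at *
        rw [abs_le] at hy1 hz1
        rw [abs_lt] at hy2 hz2 ⊢
        obtain ⟨a1, a2⟩ := hy1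
        obtain ⟨b1, b2⟩ := hz1
        obtain ⟨c1, c2⟩ := hy2
        obtain ⟨d1, d2⟩ := hz2
        constructor <;> linarith
    obtain ⟨L, hL⟩ := CompleteSpace.complete hc
    exact ⟨L, hL⟩
  refine ⟨L, ?_, hL⟩
  obtain ⟨T0, hT0⟩ := hvan (1 / 4) (by norm_num)
  have hl0 : 0 < τ * ∏ l ∈ T0, x l := mul_pos hτ (Finset.prod_pos fun l _ => hx l)
  obtain ⟨δ, hδ, hδ2⟩ := hsmall ((τ * ∏ l ∈ T0, x l) / 4) (by positivity)
  obtain ⟨T2, hT2⟩ := hvan δ hδ
  have hT1 : ∀ T' : Finset ι, Disjoint T' (T2 ∪ T0) → ∑ l ∈ T', et (N l) (P l) ≤ δ := fun T' h =>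
    hT2 T' (h.mono_right Finset.subset_union_left)
  have h1 := hcmp δ (T2 ∪ T0) hδ.le hT1
  have h2 : |L - τ * ∏ l ∈ T2 ∪ T0, x l| ≤ (τ * ∏ l ∈ T0, x l) / 4 := by
    have h3 : Tendsto (fun Y : ℝ => |a Y / (Y * Real.log Y ^ k) - (V (T2 ∪ T0) Y).re / (Y * Real.log Y ^ k)|) atTop
        (𝓝 |L - τ * ∏ l ∈ T2 ∪ T0, x l|) := (hL.sub (hlim _)).abs
    exact le_of_tendsto h3 (h1.mono fun Y h => h.trans hδ2)
  have h3 : 3 / 4 ≤ ∏ l ∈ T2 \ T0, x l := by
    have h4 := mo_prod x (fun l => et (N l) (P l)) (fun l => (hx l).le) hη (fun l => ?_) (T2 \ T0)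
    · have h5 := hT0 (T2 \ T0) Finset.sdiff_disjoint
      linarith
    · have h5 := mo_ev (N l) (hN l) (P l) (h0 l)
      rw [hxP l, ← Complex.ofReal_one, ← Complex.ofReal_sub, Complex.norm_real, Real.norm_eq_abs] at h5
      have h6 := (abs_le.1 h5).1
      linarith
  have h4 : ∏ l ∈ T2 ∪ T0, x l = (∏ l ∈ T2 \ T0, x l) * ∏ l ∈ T0, x l := by
    rw [← Finset.sdiff_union_self_eq_union, Finset.prod_union Finset.sdiff_disjoint]
  rw [h4] at h2
  have h5 := (abs_le.1 h2).1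
  have h6 : 3 / 4 * (τ * ∏ l ∈ T0, x l) ≤ τ * ((∏ l ∈ T2 \ T0, x l) * ∏ l ∈ T0, x l) := by
    have h7 := mul_le_mul_of_nonneg_right h3 hl0.le
    linarith
  linarith

section loc

variable {𝓘 π ι : Type} [CommMonoid 𝓘] (G : GM 𝓘 π) (p : Pr ι) (ψ : 𝓘 →* ℂ)

private theorem mo_Q (g : ι → ℂ) (T : Finset ι) (S Q : Finset π) (l : ι) (u : π → ι) (f : π → ℕ)
    (hN : ∀ q, G.N (G.pr q) = p.N (u q) ^ f q) (hQ : ∀ q ∈ Q, u q = l) (hd : Disjoint S Q) :
    G.U p g ψ T (S ∪ Q) = op (p.N l) (∏ q ∈ Q, (1 - C (ψ (G.pr q)) * X ^ f q)) (G.U p g ψ T S) := by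
  induction Q using Finset.induction_on with
  | empty => rw [Finset.union_empty, Finset.prod_empty, op_one]
  | insert q Q hq ih =>
    have hd1 : Disjoint S Q := Disjoint.mono_right (Finset.subset_insert q Q) hd
    have hqS : q ∉ S := fun h => (Finset.disjoint_left.1 hd h) (Finset.mem_insert_self q Q)
    have hq' : q ∉ S ∪ Q := by
      rw [Finset.mem_union]
      exact fun h => h.elim hqS hq
    rw [Finset.union_insert, Finset.prod_insert hq, op_mul, ← ih (fun q' h' => hQ q' (Finset.mem_insert_of_mem h')) hd1]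
    funext M
    rw [U_S G p g ψ T (S ∪ Q) q hq' M, op_lin, hN, hQ q (Finset.mem_insert_self q Q)]
    push_cast
    rfl

private theorem mo_c0 (a : ℂ) (k : ℕ) (hk : 1 ≤ k) : (1 - C a * X ^ k : ℂ[X]).coeff 0 = 1 := by
  rw [coeff_sub, coeff_one_zero, coeff_C_mul, coeff_X_pow, if_neg (by omega), mul_zero, sub_zero]

private theorem mo_c1 (a : ℂ) (k : ℕ) : (1 - C a * X ^ k : ℂ[X]).coeff 1 = -(if k = 1 then a else 0) := by
  rw [coeff_sub, coeff_one, if_neg one_ne_zero, coeff_C_mul, coeff_X_pow, zero_sub]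
  by_cases h : k = 1
  · rw [if_pos h, if_pos h.symm, mul_one]
  · rw [if_neg h, if_neg (fun h' => h h'.symm), mul_zero]

private theorem mo_coeff (a : π → ℂ) (f : π → ℕ) (hf : ∀ q, 1 ≤ f q) (Q : Finset π) :
    (∏ q ∈ Q, (1 - C (a q) * X ^ f q) : ℂ[X]).coeff 0 = 1 ∧
    (∏ q ∈ Q, (1 - C (a q) * X ^ f q) : ℂ[X]).coeff 1 = -∑ q ∈ Q, (if f q = 1 then a q else 0) := by
  induction Q using Finset.induction_on with
  | empty =>
    rw [Finset.prod_empty, Finset.sum_empty, coeff_one_zero, coeff_one, if_neg one_ne_zero, neg_zero]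
    exact ⟨rfl, rfl⟩
  | insert q Q hq ih =>
    rw [Finset.prod_insert hq, Finset.sum_insert hq, mul_coeff_zero, mul_coeff_one, ih.1, ih.2, mo_c0 _ _ (hf q),
      mo_c1]
    refine ⟨one_mul _, ?_⟩
    ring

private theorem mo_l1_fac (a : ℂ) (ha : ‖a‖ ≤ 1) (k : ℕ) : l1 (1 - C a * X ^ k) ≤ 2 := by
  have e : (1 - C a * X ^ k : ℂ[X]) = 1 + C (-a) * X ^ k := by
    rw [C_neg]
    ring
  rw [e]
  have h1 := l1_add 1 (C (-a) * X ^ k)
  have h2 := l1_one
  have h3 := l1_mon (-a) k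
  rw [norm_neg] at h3
  linarith

private theorem mo_l1_prod (a : π → ℂ) (ha : ∀ q, ‖a q‖ ≤ 1) (f : π → ℕ) (Q : Finset π) :
    l1 (∏ q ∈ Q, (1 - C (a q) * X ^ f q)) ≤ 2 ^ Q.card := by
  induction Q using Finset.induction_on with
  | empty =>
    rw [Finset.prod_empty, Finset.card_empty, pow_zero]
    exact l1_one
  | insert q Q hq ih =>
    rw [Finset.prod_insert hq, Finset.card_insert_of_notMem hq, pow_succ']
    refine (l1_mul _ _).trans ?_
    exact mul_le_mul (mo_l1_fac _ (ha q) _) ih (mo_l1_0 _) (by norm_num)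

private theorem mo_l1_g (y E : ℝ) (hx : |y| ≤ E) : l1 (1 + C (y : ℂ) * X) ≤ 1 + E := by
  have h1 := l1_add 1 (C (y : ℂ) * X)
  have h2 := l1_one
  have h3 := l1_mon (y : ℂ) 1
  rw [pow_one, Complex.norm_real, Real.norm_eq_abs] at h3
  linarith

private theorem mo_gc (y : ℂ) : (1 + C y * X : ℂ[X]).coeff 0 = 1 ∧ (1 + C y * X : ℂ[X]).coeff 1 = y := by
  constructor
  · rw [coeff_add, coeff_one_zero, coeff_C_mul, coeff_X_zero, mul_zero, add_zero]
  · rw [coeff_add, coeff_one, if_neg one_ne_zero, coeff_C_mul, coeff_X_one, mul_one, zero_add]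

private theorem mo_sum (T : Finset ι) : ∑ l ∈ T, ((p.N l : ℝ) ^ 2)⁻¹ ≤ p.n * ∑' m : ℕ, ((m : ℝ) ^ 2)⁻¹ := by
  have hs : Summable fun m : ℕ => ((m : ℝ) ^ 2)⁻¹ := Real.summable_nat_pow_inv.2 (by norm_num)
  have hmaps : ∀ i ∈ T, p.N i ∈ T.image p.N := fun i hi => Finset.mem_image_of_mem _ hi
  rw [← Finset.sum_fiberwise_of_maps_to hmaps]
  have hfib : ∀ m ∈ T.image p.N,
      ∑ i ∈ T.filter (fun i => p.N i = m), ((p.N i : ℝ) ^ 2)⁻¹ ≤ p.n * ((m : ℝ) ^ 2)⁻¹ := by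
    intro m _
    have h1 : ∑ i ∈ T.filter (fun i => p.N i = m), ((p.N i : ℝ) ^ 2)⁻¹
        = ∑ i ∈ T.filter (fun i => p.N i = m), ((m : ℝ) ^ 2)⁻¹ := by
      refine Finset.sum_congr rfl fun i hi => ?_
      rw [(Finset.mem_filter.1 hi).2]
    rw [h1, Finset.sum_const, nsmul_eq_mul]
    refine mul_le_mul_of_nonneg_right ?_ (by positivity)
    have h2 : (T.filter (fun i => p.N i = m)).card ≤ p.n := by
      rw [← Set.ncard_coe_finset]
      refine (Set.ncard_le_ncard ?_ (p.fin m)).trans (p.mul m)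
      intro i hi
      exact (Finset.mem_filter.1 (Finset.mem_coe.1 hi)).2
    exact_mod_cast h2
  refine (Finset.sum_le_sum hfib).trans ?_
  rw [← Finset.mul_sum]
  refine mul_le_mul_of_nonneg_left ?_ (Nat.cast_nonneg _)
  exact hs.sum_le_tsum _ fun m _ => by positivity

end loc

theorem mo {ι : Type} (p : Pr ι) {𝓘 π : Type} [CommMonoid 𝓘] (G : GM 𝓘 π) (u : π → ι) (f : π → ℕ) (hf : ∀ q, 1 ≤ f q)
    (hN : ∀ q, G.N (G.pr q) = p.N (u q) ^ f q) (e : ℕ) (he : ∀ l, {q | u q = l}.Finite ∧ {q | u q = l}.ncard ≤ e)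
    (g : ι → ℝ) (E : ℝ) (hg : ∀ l, 0 ≤ g l ∧ g l ≤ E) (Sb : Set ι)
    (hS : ∃ c : ℝ, ∀ T : Finset ι, (∀ l ∈ T, l ∈ Sb) → ∑ l ∈ T, (p.N l : ℝ)⁻¹ ≤ c)
    (hgl : ∀ l, l ∉ Sb → g l = ({q | u q = l ∧ f q = 1}.ncard : ℝ)) (k : ℕ) (τ : ℝ) (hτ : 0 < τ)
    (hW : Tendsto (fun M : ℝ => ((G.B M).card : ℝ) / (M * Real.log M ^ k)) atTop (𝓝 τ)) (C : ℝ)
    (hC : ∀ M : ℝ, 1 ≤ M → ((G.B M).card : ℝ) ≤ C * M * (1 + Real.log M) ^ k) :
    ∃ l : ℝ, 0 < l ∧ Tendsto (fun Y : ℝ => (∑ s ∈ p.SF Y, pd g s) / (Y * Real.log Y ^ k)) atTop (𝓝 l) := by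
  have hfin : ∀ l, {q | u q = l}.Finite := fun l => (he l).1
  obtain ⟨P, hP⟩ : ∃ P : ι → ℂ[X], ∀ l, P l = (1 + Polynomial.C (g l : ℂ) * X) *
      ∏ q ∈ (hfin l).toFinset, (1 - Polynomial.C ((1 : 𝓘 →* ℂ) (G.pr q)) * X ^ f q) := ⟨_, fun _ => rfl⟩
  obtain ⟨V, hVd⟩ : ∃ V : Finset ι → ℝ → ℂ, ∀ T, V T =
      G.U p (fun l => (g l : ℂ)) 1 T (T.biUnion fun l => (hfin l).toFinset) := ⟨_, fun _ => rfl⟩
  have hco := fun l => mo_coeff (fun q => (1 : 𝓘 →* ℂ) (G.pr q)) f hf (hfin l).toFinset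
  have hgc := fun l => mo_gc (g l : ℂ)
  have hN2 : ∀ l, (2 : ℝ) ≤ p.N l := fun l => p.two_le l
  have h0 : ∀ l, (P l).coeff 0 = 1 := fun l => by
    rw [hP, mul_coeff_zero, (hco l).1, (hgc l).1, mul_one]
  have hV : ∀ (T : Finset ι) (l : ι), l ∉ T → V (insert l T) = op (p.N l) (P l) (V T) := by
    intro T l hl
    have hS : ((insert l T).biUnion fun l => (hfin l).toFinset) =
        (T.biUnion fun l => (hfin l).toFinset) ∪ (hfin l).toFinset := by
      rw [Finset.biUnion_insert, Finset.union_comm]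
    have hQ : ∀ q ∈ (hfin l).toFinset, u q = l := fun q hq => (hfin l).mem_toFinset.1 hq
    have hd : Disjoint (T.biUnion fun l => (hfin l).toFinset) (hfin l).toFinset := by
      rw [Finset.disjoint_left]
      intro q hq hq'
      rw [Finset.mem_biUnion] at hq
      obtain ⟨l', hl', hq⟩ := hq
      have h1 : u q = l' := (hfin l').mem_toFinset.1 hq
      have h2 := hQ q hq'
      rw [h1] at h2
      exact hl (h2 ▸ hl')
    rw [hVd, hVd, hP, op_mul, ← mo_Q G p 1 (fun l => (g l : ℂ)) T _ _ l u f hN hQ hd, hS]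
    funext M
    rw [U_T G p (fun l => (g l : ℂ)) 1 T _ l hl M, op_add]
  have hVe : ∀ M : ℝ, V ∅ M = ((G.B M).card : ℂ) := by
    intro M
    rw [hVd, Finset.biUnion_empty, U_zero]
    unfold GM.W
    simp
  have hC0 : 0 ≤ C := by
    have h := hC 1 le_rfl
    rw [Real.log_one, add_zero, one_pow, mul_one, mul_one] at h
    exact (Nat.cast_nonneg _).trans h
  have hCV : ∀ M : ℝ, 0 < M → ‖V ∅ M‖ ≤ C * M * (1 + max 0 (Real.log M)) ^ k := by
    intro M hM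
    rw [hVe, Complex.norm_natCast]
    rcases le_or_gt 1 M with h | h
    · rw [max_eq_right (Real.log_nonneg h)]
      exact hC M h
    · have h1 : G.B M = ∅ := by
        rw [Finset.eq_empty_iff_forall_notMem]
        intro I hI
        rw [G.mem_B] at hI
        have h1 : (1 : ℝ) ≤ G.N I := by exact_mod_cast G.pos I
        linarith
      have h2 : 0 ≤ max 0 (Real.log M) := le_max_left _ _
      rw [h1, Finset.card_empty, Nat.cast_zero]
      positivity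
  obtain ⟨x, hxd⟩ : ∃ x : ι → ℝ, ∀ l, x l = (1 + g l * (p.N l : ℝ)⁻¹) *
      ∏ q ∈ (hfin l).toFinset, (1 - ((p.N l : ℝ)⁻¹) ^ f q) := ⟨_, fun _ => rfl⟩
  have hx : ∀ l, 0 < x l := by
    intro l
    have h1 := hN2 l
    have h2 : (p.N l : ℝ)⁻¹ ≤ 1 / 2 := by
      rw [one_div]
      exact inv_anti₀ (by norm_num) h1
    have h3 : 0 ≤ (p.N l : ℝ)⁻¹ := by positivity
    rw [hxd]
    refine mul_pos ?_ (Finset.prod_pos fun q _ => ?_)
    · have h4 := mul_nonneg (hg l).1 h3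
      linarith
    · have h4 : ((p.N l : ℝ)⁻¹) ^ f q ≤ (p.N l : ℝ)⁻¹ := pow_le_of_le_one h3 (by linarith) (by have := hf q; omega)
      linarith
  have hxP : ∀ l, (P l).eval (((p.N l : ℝ) : ℂ)⁻¹) = (x l : ℂ) := by
    intro l
    rw [hP, hxd, eval_mul, eval_add, eval_one, eval_mul, eval_C, eval_X, eval_prod]
    push_cast
    congr 1
    refine Finset.prod_congr rfl fun q _ => ?_
    rw [eval_sub, eval_one, eval_mul, eval_C, eval_pow, eval_X, MonoidHom.one_apply, one_mul]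
  have hl1 : ∀ l, l1 (P l) ≤ |1 + E| * 2 ^ e := by
    intro l
    refine le_trans ?_ (mul_le_mul_of_nonneg_right (le_abs_self (1 + E)) (by positivity))
    have hQe : ((hfin l).toFinset).card ≤ e := by
      rw [← Set.ncard_eq_toFinset_card _ (hfin l)]
      exact (he l).2
    have h1 := hg l
    rw [hP]
    refine (l1_mul _ _).trans ?_
    refine mul_le_mul (mo_l1_g _ E ?_) ((mo_l1_prod _ (fun q => ?_) f _).trans ?_) (mo_l1_0 _) (by linarith)
    · rw [abs_of_nonneg h1.1]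
      exact h1.2
    · rw [MonoidHom.one_apply, norm_one]
    · exact pow_le_pow_right₀ (by norm_num) hQe
  have hs : Summable fun l => et (p.N l) (P l) := by
    obtain ⟨c, hc⟩ := hS
    obtain ⟨H, hH⟩ : ∃ H : ℝ, H = |1 + E| * 2 ^ e := ⟨_, rfl⟩
    have hH0 : 0 ≤ H := by
      rw [hH]
      positivity
    refine summable_of_sum_le (c := H * (c + p.n * ∑' m : ℕ, ((m : ℝ) ^ 2)⁻¹)) (fun l => mo_et0 _ (hN2 l) _) fun T => ?_
    · rw [← Finset.sum_filter_add_sum_filter_not T (fun l => l ∈ Sb), mul_add]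
      refine add_le_add ?_ ?_
      · refine (Finset.sum_le_sum (g := fun l => H * (p.N l : ℝ)⁻¹) fun l hl => ?_).trans ?_
        · refine (mo_et1 _ (hN2 l) _).trans (mul_le_mul_of_nonneg_right (hH ▸ hl1 l) ?_)
          positivity
        · rw [← Finset.mul_sum]
          exact mul_le_mul_of_nonneg_left (hc _ fun l hl => (Finset.mem_filter.1 hl).2) hH0
      · refine (Finset.sum_le_sum (g := fun l => H * ((p.N l : ℝ) ^ 2)⁻¹) fun l hl => ?_).trans ?_
        · have hP1 : (P l).coeff 1 = 0 := by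
            rw [hP, mul_coeff_one, (hco l).1, (hco l).2, (hgc l).1, (hgc l).2, mul_one, one_mul,
              hgl l (Finset.mem_filter.1 hl).2]
            have h2 : ({q | u q = l ∧ f q = 1}.ncard : ℂ) =
                ∑ q ∈ (hfin l).toFinset, (if f q = 1 then (1 : 𝓘 →* ℂ) (G.pr q) else 0) := by
              have e1 : ∀ q ∈ (hfin l).toFinset.filter (fun q => f q = 1), (1 : 𝓘 →* ℂ) (G.pr q) = 1 :=
                fun q _ => MonoidHom.one_apply _
              have e2 : {q | u q = l ∧ f q = 1} = (((hfin l).toFinset.filter (fun q => f q = 1) : Finset π) : Set π) := by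
                ext q
                rw [Finset.mem_coe, Finset.mem_filter, Set.Finite.mem_toFinset]
                rfl
              rw [← Finset.sum_filter, Finset.sum_congr rfl e1, Finset.sum_const, nsmul_eq_mul, mul_one, e2,
                Set.ncard_coe_finset]
            rw [← h2]
            push_cast
            ring
          refine (mo_et2 _ (hN2 l) _ hP1).trans (mul_le_mul_of_nonneg_right (hH ▸ hl1 l) ?_)
          positivity
        · rw [← Finset.mul_sum]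
          exact mul_le_mul_of_nonneg_left (mo_sum p _) hH0
  have hend : ∀ Y : ℝ, V (p.P Y) Y = ((∑ s ∈ p.SF Y, pd g s : ℝ) : ℂ) := by
    intro Y
    have hS : ∀ q, (G.N (G.pr q) : ℝ) ≤ Y → q ∈ (p.P Y).biUnion fun l => (hfin l).toFinset := by
      intro q hq
      rw [Finset.mem_biUnion]
      refine ⟨u q, ?_, (hfin (u q)).mem_toFinset.2 rfl⟩
      rw [p.mem_P]
      refine le_trans ?_ hq
      rw [hN]
      push_cast
      exact le_self_pow₀ (p.one_le (u q)) (by have := hf q; omega)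
    rw [hVd, U_end G p (fun l => (g l : ℂ)) 1 (p.P Y) _ Y hS]
    unfold Pr.SF pd
    push_cast
    rfl
  refine mo_main V (fun l => (p.N l : ℝ)) hN2 P h0 hV C k hCV x hx hxP hs τ hτ ?_ (fun Y => p.P Y) (fun l => ?_)
    (fun Y => ∑ s ∈ p.SF Y, pd g s) hend
  · have h1 := (Complex.continuous_ofReal.tendsto _).comp hW
    refine h1.congr fun M => ?_
    rw [hVe]
    show (((G.B M).card : ℝ) / (M * Real.log M ^ k) : ℝ) = (_ : ℂ)
    push_cast
    rfl
  · filter_upwards [eventually_ge_atTop (p.N l : ℝ)] with Y hY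
    exact p.mem_P.2 hY

end H57.AN
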