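import Pool.Agent.H57.AN.Mg
import Pool.Agent.H63.MB.BUa
import Pool.Agent.H63.MA.Pv
import Pool.Agent.H63.MA.ADivI

/-!
# [H57 AN MW] The number of elements of norm at most `M` in the product of the monoids of ideals (100 lines)

Induction over the list. One field: `bgc_card` with `bg0_card`, `bg_small`: the number is `#IN E M`, `H63.MA.cnt E`. Step: `bgc_card`, group the ideals by
their norm `n` (`∑_{I ∈ IN E M} F (N I) = ∑_{n ∈ Icc 1 ⌊M⌋} a n F n`, `a n` = the number of nonzero ideals of norm `n`; `(∑_{n ≤ m} a n) / m → κ` by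
`cnt`; see `bub_group`, `bub_card` in H63/MB/BUb.lean for a model), then `H63.MB.bu_conv` (look up its namespace in BUa.lean) with `f y` = the number for
the shorter list. Bound: `∑_{I ∈ IN E M} C (M / N I) (1 + log M)^k ≤ C M (1 + log M)^k C' (1 + log M)` (`adivi_harm E`).
-/

set_option autoImplicit false

open scoped NumberField
open NumberField IsDedekindDomain H63.MA H36.QA H57.TLS H57.LC H57.LI Filter Topology
open scoped Classical

noncomputable section

namespace H57.AN

theorem mw_norm_pos {E : Type} [Field E] [NumberField E] {I : Ideal (𝓞 E)} (h : I ≠ ⊥) :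
    1 ≤ Ideal.absNorm I :=
  Nat.one_le_iff_ne_zero.2 (by rwa [Ne, Ideal.absNorm_eq_zero_iff])

/-- the number of the ideals of norm `n` -/
def mw_a (E : Type) [Field E] [NumberField E] (n : ℕ) : ℝ :=
  (((IN E (n : ℝ)).filter fun I => Ideal.absNorm I = n).card : ℝ)

theorem mw_group (E : Type) [Field E] [NumberField E] {y : ℝ} (hy : 0 ≤ y) (g : ℕ → ℝ) :
    ∑ J ∈ IN E y, g (Ideal.absNorm J) = ∑ n ∈ Finset.Icc 1 ⌊y⌋₊, mw_a E n * g n := by
  have hmap : ∀ J ∈ IN E y, Ideal.absNorm J ∈ Finset.Icc 1 ⌊y⌋₊ := by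
    intro J hJ
    rw [mem_IN hy] at hJ
    exact Finset.mem_Icc.2 ⟨mw_norm_pos hJ.2, Nat.le_floor hJ.1⟩
  rw [← Finset.sum_fiberwise_of_maps_to hmap]
  refine Finset.sum_congr rfl fun n hn => ?_
  rw [Finset.mem_Icc] at hn
  have hny : (n : ℝ) ≤ y := (Nat.le_floor_iff hy).1 hn.2
  have hset : ((IN E y).filter fun J => Ideal.absNorm J = n) =
      (IN E (n : ℝ)).filter fun J => Ideal.absNorm J = n := by
    ext J
    rw [Finset.mem_filter, Finset.mem_filter, mem_IN hy, mem_IN (Nat.cast_nonneg n)]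
    constructor
    · rintro ⟨⟨h1, h2⟩, h4⟩
      exact ⟨⟨by rw [h4], h2⟩, h4⟩
    · rintro ⟨⟨h1, h2⟩, h4⟩
      exact ⟨⟨by rw [h4]; exact hny, h2⟩, h4⟩
  rw [hset, Finset.sum_congr rfl (g := fun _ => g n)
    (fun J hJ => by rw [(Finset.mem_filter.1 hJ).2]), Finset.sum_const, nsmul_eq_mul]
  rfl

theorem mw_card (E : Type) [Field E] [NumberField E] (n : ℕ) :
    ∑ k ∈ Finset.Icc 1 n, mw_a E k = ((IN E (n : ℝ)).card : ℝ) := by
  have h := mw_group E (y := (n : ℝ)) (Nat.cast_nonneg n) (fun _ => 1)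
  rw [Nat.floor_natCast] at h
  simp only [mul_one, Finset.sum_const, nsmul_eq_mul] at h
  exact h.symm

theorem mw_lim (E : Type) [Field E] [NumberField E] :
    ∃ κ : ℝ, 0 < κ ∧ Tendsto (fun y : ℝ => ((IN E y).card : ℝ) / y) atTop (𝓝 κ) := by
  obtain ⟨κ, C, δ, hκ, hC, hδ, hδ1, h⟩ := cnt E
  refine ⟨κ, hκ, ?_⟩
  rw [tendsto_iff_norm_sub_tendsto_zero]
  have hz : Tendsto (fun y : ℝ => C * y ^ (-δ)) atTop (𝓝 0) := by
    have := (tendsto_rpow_neg_atTop hδ).const_mul C
    simpa using this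
  refine squeeze_zero' (Eventually.of_forall fun y => norm_nonneg _) ?_ hz
  filter_upwards [eventually_ge_atTop (1 : ℝ)] with y hy
  have hy0 : 0 < y := by linarith
  have h1 := h y hy
  have h4 : ((IN E y).card : ℝ) / y - κ = (((IN E y).card : ℝ) - κ * y) / y := by
    field_simp
  rw [h4, Real.norm_eq_abs, abs_div, abs_of_pos hy0, div_le_iff₀ hy0]
  refine h1.trans (le_of_eq ?_)
  rw [sub_eq_add_neg, Real.rpow_add hy0, Real.rpow_one]
  ring

theorem mw_up (E : Type) [Field E] [NumberField E] :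
    ∃ C : ℝ, 0 < C ∧ ∀ y : ℝ, 1 ≤ y → ((IN E y).card : ℝ) ≤ C * y := by
  obtain ⟨κ, C, δ, hκ, hC, hδ, hδ1, h⟩ := cnt E
  refine ⟨κ + C, by positivity, fun y hy => ?_⟩
  have h1 := (abs_le.1 (h y hy)).2
  have h2 : y ^ (1 - δ) ≤ y := by
    calc y ^ (1 - δ) ≤ y ^ (1 : ℝ) := Real.rpow_le_rpow_of_exponent_le hy (by linarith)
      _ = y := Real.rpow_one y
  have h3 : C * y ^ (1 - δ) ≤ C * y := mul_le_mul_of_nonneg_left h2 hC.le
  linarith

theorem mw (K : Type) [Field K] [NumberField K] {N : ℕ} (L : Fin N → Type) [∀ i, Field (L i)] [∀ i, NumberField (L i)]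
    [∀ i, Algebra K (L i)] (k : ℕ) (l : List (Fin N)) (hl : l.length = k + 1) :
    ∃ τ C : ℝ, 0 < τ ∧ 0 < C ∧
      Tendsto (fun M : ℝ => (((bgl K L l).G.B M).card : ℝ) / (M * Real.log M ^ k)) atTop (𝓝 τ) ∧
      ∀ M : ℝ, 1 ≤ M → (((bgl K L l).G.B M).card : ℝ) ≤ C * M * (1 + Real.log M) ^ k := by
  induction k generalizing l with
  | zero =>
    obtain ⟨i, rfl⟩ := List.length_eq_one_iff.1 hl
    have hcard : ∀ M : ℝ, 0 ≤ M → (((bgl K L [i]).G.B M).card : ℝ) = ((IN (L i) M).card : ℝ) := by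
      intro M hM
      have h1 := bgc_card K (L i) (bg0 K) M hM
      have h2 : ∑ I ∈ IN (L i) M, ((bg0 K).G.B (M / Ideal.absNorm I)).card =
          (IN (L i) M).card := by
        rw [Finset.card_eq_sum_ones]
        refine Finset.sum_congr rfl fun I hI => bg0_card K _ ?_
        rw [mem_IN hM] at hI
        have h3 : (1 : ℝ) ≤ (Ideal.absNorm I : ℝ) := by exact_mod_cast mw_norm_pos hI.2
        rw [le_div_iff₀ (by linarith), one_mul]
        exact hI.1
      rw [h2] at h1
      exact_mod_cast h1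
    obtain ⟨κ, hκ, hlim⟩ := mw_lim (L i)
    obtain ⟨C, hC, hup⟩ := mw_up (L i)
    refine ⟨κ, C, hκ, hC, hlim.congr' ?_, fun M hM => ?_⟩
    · filter_upwards [eventually_ge_atTop (0 : ℝ)] with M hM
      rw [hcard M hM, pow_zero, mul_one]
    · rw [hcard M (by linarith), pow_zero, mul_one]
      exact hup M hM
  | succ k ih =>
    obtain ⟨i, l', rfl⟩ : ∃ i l', l = i :: l' := by
      cases l with
      | nil => simp at hl
      | cons i l' => exact ⟨i, l', rfl⟩
    have hl' : l'.length = k + 1 := by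
      rw [List.length_cons] at hl
      omega
    obtain ⟨τ, C, hτ, hC, hlim, hup⟩ := ih l' hl'
    obtain ⟨κ, hκ, hκl⟩ := mw_lim (L i)
    obtain ⟨C', hC', hharm⟩ := adivi_harm (L i)
    have hκn : Tendsto (fun n : ℕ => (∑ j ∈ Finset.Icc 1 n, mw_a (L i) j) / (n : ℝ)) atTop (𝓝 κ) := by
      refine (hκl.comp tendsto_natCast_atTop_atTop).congr fun n => ?_
      rw [mw_card]
      rfl
    have hrec : ∀ M : ℝ, 0 ≤ M → (((bgl K L (i :: l')).G.B M).card : ℝ) =
        ∑ I ∈ IN (L i) M, (((bgl K L l').G.B (M / Ideal.absNorm I)).card : ℝ) := by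
      intro M hM
      have h1 := bgc_card K (L i) (bgl K L l') M hM
      exact_mod_cast h1
    have h := H63.MA.bu_conv (mw_a (L i)) (fun n => Nat.cast_nonneg _) κ hκn k
      (fun y => (((bgl K L l').G.B y).card : ℝ)) τ C hlim (fun y hy => by
        rw [abs_of_nonneg (Nat.cast_nonneg _)]
        exact hup y hy)
    refine ⟨κ * τ / (k + 1), C * C', by positivity, by positivity, h.congr' ?_, fun M hM => ?_⟩
    · filter_upwards [eventually_ge_atTop (0 : ℝ)] with y hy
      rw [hrec y hy, ← mw_group (L i) hy fun n => (((bgl K L l').G.B (y / (n : ℝ))).card : ℝ)]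
    · rw [hrec M (by linarith)]
      have hM0 : 0 ≤ M := by linarith
      have hlM : 0 ≤ Real.log M := Real.log_nonneg hM
      have h1 : ∑ I ∈ IN (L i) M, (((bgl K L l').G.B (M / Ideal.absNorm I)).card : ℝ) ≤
          ∑ I ∈ IN (L i) M, C * M * (1 + Real.log M) ^ k * (1 / (Ideal.absNorm I : ℝ)) := by
        refine Finset.sum_le_sum fun I hI => ?_
        rw [mem_IN hM0] at hI
        have h3 : (1 : ℝ) ≤ (Ideal.absNorm I : ℝ) := by exact_mod_cast mw_norm_pos hI.2
        have h4 : 1 ≤ M / (Ideal.absNorm I : ℝ) := by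
          rw [le_div_iff₀ (by linarith), one_mul]
          exact hI.1
        have h5 : M / (Ideal.absNorm I : ℝ) ≤ M := div_le_self hM0 h3
        have h6 : (1 + Real.log (M / (Ideal.absNorm I : ℝ))) ^ k ≤ (1 + Real.log M) ^ k := by
          refine pow_le_pow_left₀ ?_ ?_ _
          · have := Real.log_nonneg h4
            linarith
          · have := Real.log_le_log (by linarith) h5
            linarith
        refine (hup _ h4).trans ?_
        calc C * (M / (Ideal.absNorm I : ℝ)) * (1 + Real.log (M / (Ideal.absNorm I : ℝ))) ^ k ≤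
              C * (M / (Ideal.absNorm I : ℝ)) * (1 + Real.log M) ^ k :=
              mul_le_mul_of_nonneg_left h6 (by positivity)
          _ = C * M * (1 + Real.log M) ^ k * (1 / (Ideal.absNorm I : ℝ)) := by ring
      rw [← Finset.mul_sum] at h1
      refine h1.trans ?_
      calc C * M * (1 + Real.log M) ^ k * ∑ I ∈ IN (L i) M, 1 / (Ideal.absNorm I : ℝ) ≤
            C * M * (1 + Real.log M) ^ k * (C' * (1 + Real.log M)) :=
            mul_le_mul_of_nonneg_left (hharm M hM) (by positivity)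
        _ = C * C' * M * (1 + Real.log M) ^ (k + 1) := by
            rw [pow_succ]
            ring

end H57.AN
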