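import Pool.Agent.H57.AN.One
import Pool.Agent.H57.AN.Ub
import Pool.Agent.H57.AN.Mw
import Pool.Agent.H57.AN.Mo
import Pool.Agent.H51.MM.An

/-!
# [H57 AN IFA] The interfaces AN1, AN3a, AN3b, AN4 of H51/MM/An.lean
-/

set_option autoImplicit false

open scoped NumberField
open NumberField IsDedekindDomain H63.MA H36.QA H57.TLS Filter Topology H51.MM
open scoped Classical

noncomputable section

namespace H57.AN

/-- common constants for finitely many -/
theorem ifa_cmb {ι : Type} (S : Finset ι) (C : ι → ℝ) (A : ι → ℕ) (δ : ι → ℝ) (hC : ∀ n, 1 ≤ C n) (hδ : ∀ n, 0 < δ n)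
    (hδ1 : ∀ n, δ n ≤ 1) : (∀ n ∈ S, C n ≤ ∑ n ∈ S, C n ∧ A n ≤ ∑ n ∈ S, A n ∧ ∏ n ∈ S, δ n ≤ δ n) ∧ 0 < ∏ n ∈ S, δ n := by
  refine ⟨fun n hn => ⟨?_, ?_, ?_⟩, Finset.prod_pos fun n _ => hδ n⟩
  · exact Finset.single_le_sum (f := C) (fun m _ => by linarith [hC m]) hn
  · exact Finset.single_le_sum (f := A) (fun m _ => Nat.zero_le _) hn
  · rw [← Finset.mul_prod_erase S δ hn]
    exact mul_le_of_le_one_right (hδ n).le (Finset.prod_le_one (fun m _ => (hδ m).le) fun m _ => hδ1 m)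

theorem ifa_fme {K : Type} [Field K] [NumberField K] {E : Type} [Field E] [NumberField E] [Algebra K E] (B : Finset (Pl K))
    (g : Finset (Pl E)) : Fme K B g ↔ Ok K g ∧ ∀ w ∈ g, dn K w ∉ B := by
  constructor
  · rintro ⟨h1, h2⟩
    refine ⟨⟨fun w hw => (h1 w hw).2, fun w hw w' hw' h => ?_⟩, fun w hw => (h1 w hw).1⟩
    by_contra h3
    exact h2 w hw w' hw' h3 h
  · rintro ⟨h1, h2⟩
    exact ⟨fun w hw => ⟨h2 w hw, h1.pr w hw⟩, fun w hw w' hw' h h3 => h (h1.inj hw hw' h3)⟩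

theorem ifa_FE (K E : Type) [Field K] [NumberField K] [Field E] [NumberField E] [Algebra K E] (B : Finset (Pl K)) (M : ℝ) :
    FE K E B M = LFam K E B M := by
  unfold FE LFam
  exact Finset.filter_congr fun g _ => ifa_fme B g

theorem ifa_deg (K E : Type) [Field K] [NumberField K] [Field E] [NumberField E] [Algebra K E] {d : ℕ}
    (h : Module.finrank K E ≤ d) : Module.finrank ℚ E ∈ Finset.range (d * Module.finrank ℚ K + 1) ∧
      0 < Module.finrank ℚ E := by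
  refine ⟨?_, Module.finrank_pos⟩
  rw [Finset.mem_range, Nat.lt_succ_iff, ← Module.finrank_mul_finrank ℚ K E, mul_comm]
  exact Nat.mul_le_mul_right _ h

theorem i1 (K : Type) [Field K] [NumberField K] (d : ℕ) : AN1 K d := by
  have h : ∀ n : ℕ, ∃ (C : ℝ) (A : ℕ) (δ : ℝ), 1 ≤ C ∧ 0 < δ ∧ δ ≤ 1 / 4 ∧ (0 < n →
      ∀ (L : Type) [Field L] [NumberField L] [Algebra K L], TC L n → ∀ 𝔣 : Ideal (𝓞 L), 𝔣 ≠ ⊥ → ∀ χ : RC L 𝔣, χ.Non →
      ∀ E : Finset (Pl K), ∀ x : ℝ, 1 ≤ x →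
        ‖∑ b ∈ LFam K L E x, ∏ w ∈ b, χ.χ w.asIdeal‖ ≤
          C * C ^ E.card * (dd L * Ideal.absNorm 𝔣) ^ A * x ^ (1 - δ)) := by
    intro n
    rcases Nat.eq_zero_or_pos n with hn | hn
    · exact ⟨1, 0, 1 / 4, le_rfl, by norm_num, le_rfl, fun h => absurd hn (by omega)⟩
    · obtain ⟨C, A, δ, h1, h2, h3, h4⟩ := an1 K n hn
      exact ⟨C, A, δ, h1, h2, h3, fun _ => h4⟩
  choose C A δ hC hδ hδ4 hP using h
  obtain ⟨S, hS⟩ : ∃ S : Finset ℕ, S = Finset.range (d * Module.finrank ℚ K + 1) := ⟨_, rfl⟩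
  obtain ⟨hc, hpos⟩ := ifa_cmb S C A δ hC hδ fun n => (hδ4 n).trans (by norm_num)
  have h0 : 0 ∈ S := by rw [hS]; exact Finset.mem_range.2 (Nat.succ_pos _)
  have hC0 : 1 ≤ ∑ n ∈ S, C n := (hC 0).trans (hc 0 h0).1
  refine ⟨∑ n ∈ S, C n, ∑ n ∈ S, A n, ∏ n ∈ S, δ n, hC0, hpos, ((hc 0 h0).2.2).trans (hδ4 0), ?_⟩
  intro E _ _ _ hE hd 𝔣 h𝔣 χ hχ B M hM
  obtain ⟨hn, hn0⟩ := ifa_deg K E hd
  rw [← hS] at hn
  obtain ⟨h1, h2, h3⟩ := hc _ hn
  have h4 := hP _ hn0 E ⟨hE, rfl⟩ 𝔣 h𝔣 χ hχ B M hM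
  rw [ifa_FE]
  refine h4.trans ?_
  have hN : (1 : ℝ) ≤ Ideal.absNorm 𝔣 := by
    have : Ideal.absNorm 𝔣 ≠ 0 := fun h => h𝔣 (Ideal.absNorm_eq_zero_iff.1 h)
    exact_mod_cast Nat.one_le_iff_ne_zero.2 this
  have hdd : 1 ≤ dd E := one_le_dd E
  have hq : 1 ≤ dd E * (Ideal.absNorm 𝔣 : ℝ) := one_le_mul_of_one_le_of_one_le hdd hN
  have hCn := hC (Module.finrank ℚ E)
  have hM0 : 0 < M := by linarith
  refine mul_le_mul (mul_le_mul (mul_le_mul h1 (pow_le_pow_left₀ (by linarith) h1 _) (by positivity) (by positivity))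
    (pow_le_pow_right₀ hq h2) (by positivity) (by positivity)) ?_ (Real.rpow_nonneg hM0.le _) (by positivity)
  exact Real.rpow_le_rpow_of_exponent_le hM (by linarith)

theorem i3a (K : Type) [Field K] [NumberField K] : AN3a K := by
  intro c hc
  obtain ⟨C, A, hC, hA, h⟩ := af_pow K ⌈c⌉₊
  refine ⟨C + 1, ⌈A⌉₊, by linarith, fun Y hY => ?_⟩
  obtain ⟨h1, h2⟩ := h Y hY
  have hlog : 0 ≤ Real.log Y := Real.log_nonneg hY
  have hpow : (1 + Real.log Y) ^ A ≤ (1 + Real.log Y) ^ ⌈A⌉₊ := by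
    rw [← Real.rpow_natCast]
    exact Real.rpow_le_rpow_of_exponent_le (by linarith) (Nat.le_ceil A)
  have hcc : ∀ s : Finset (Pl K), c ^ s.card ≤ (⌈c⌉₊ : ℝ) ^ s.card := fun s =>
    pow_le_pow_left₀ (by linarith) (Nat.le_ceil c) _
  constructor
  · refine (Finset.sum_le_sum fun s _ => hcc s).trans (h1.trans ?_)
    exact mul_le_mul (mul_le_mul_of_nonneg_right (by linarith) (by linarith)) hpow
      (Real.rpow_nonneg (by linarith) _) (by nlinarith)
  · have h3 : ∀ s ∈ AF K Y, c ^ s.card / nr s ≤ (⌈c⌉₊ : ℝ) ^ s.card * (nr s)⁻¹ := by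
      intro s _
      rw [div_eq_mul_inv]
      exact mul_le_mul_of_nonneg_right (hcc s) (inv_nonneg.2 (by linarith [one_le_nr s]))
    refine (Finset.sum_le_sum h3).trans (h2.trans ?_)
    exact mul_le_mul (by linarith) hpow (Real.rpow_nonneg (by linarith) _) (by linarith)

theorem ifa_ncard (K : Type) [Field K] [NumberField K] {E : Type} [Field E] [NumberField E] [Algebra K E] (v : Pl K) :
    {w : Pl E | Over w v ∧ (nm w).Prime}.ncard = (fbr K v : Finset (Pl E)).card := by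
  rw [← Set.ncard_coe_finset]
  congr 1
  ext w
  rw [Finset.mem_coe, mem_fbr]
  exact and_congr_left fun _ => ⟨fun h => dn_eq K h, fun h => h ▸ dn_over K w⟩

theorem ifa_fbr_le (K : Type) [Field K] [NumberField K] {E : Type} [Field E] [NumberField E] [Algebra K E] (v : Pl K) :
    (fbr K v : Finset (Pl E)).card ≤ Module.finrank K E :=
  fib K v _ fun _ hw => (mem_fbr.1 hw).1

theorem i3b (K : Type) [Field K] [NumberField K] (N d : ℕ) : AN3b K N d := by
  have h : ∀ n : ℕ, ∃ (C : ℝ) (A : ℕ), 1 ≤ C ∧ (0 < n → ∀ (L : Type) [Field L] [NumberField L], TC L n →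
    ∀ Y : ℝ, 3 ≤ Y → ∑ w ∈ PB L Y, (1 : ℝ) / nm w ≤
      Real.log (Real.log Y) + A * Real.log (1 + Real.log (dd L)) + C) := by
    intro n
    rcases Nat.eq_zero_or_pos n with hn | hn
    · exact ⟨1, 0, le_rfl, fun h => absurd hn (by omega)⟩
    · obtain ⟨C, A, h1, h2⟩ := zt n hn
      exact ⟨C, A, h1, fun _ => h2⟩
  choose C A hC hP using h
  obtain ⟨S, hS⟩ : ∃ S : Finset ℕ, S = Finset.range (d * Module.finrank ℚ K + 1) := ⟨_, rfl⟩
  obtain ⟨hc, -⟩ := ifa_cmb S C A (fun _ => 1) hC (fun _ => one_pos) fun _ => le_rfl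
  obtain ⟨C', hC'⟩ : ∃ C' : ℝ, C' = ∑ n ∈ S, C n := ⟨_, rfl⟩
  obtain ⟨A', hA'⟩ : ∃ A' : ℕ, A' = ∑ n ∈ S, A n := ⟨_, rfl⟩
  rw [← hC', ← hA'] at hc
  obtain ⟨U, hU, hub⟩ := ub K (N * d : ℕ) (Nat.cast_nonneg _)
  have hC'0 : 0 ≤ C' := by
    rw [hC']
    exact Finset.sum_nonneg fun n _ => by linarith [hC n]
  refine ⟨U * Real.exp (N * C'), N * A', ?_, ?_⟩
  · refine one_le_mul_of_one_le_of_one_le hU (Real.one_le_exp ?_)
    positivity
  intro L _ _ _ hTC hdeg D hD hdd B J hJ Y hY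
  have hL1 : 1 < Real.log Y := by
    rw [Real.lt_log_iff_exp_lt (by linarith)]
    have := Real.exp_one_lt_d9
    linarith
  have hJN : J.card ≤ N := (Finset.card_le_univ J).trans (by rw [Fintype.card_fin])
  have hlb : ∀ v : Pl K, (lbn K L J B v : ℝ) ≤ ∑ i ∈ J, ((ubW K v : Finset (Pl (L i))).card : ℝ) := by
    intro v
    unfold lbn
    split_ifs
    · simp only [Nat.cast_zero]
      exact Finset.sum_nonneg fun i _ => Nat.cast_nonneg _
    · push_cast
      refine Finset.sum_le_sum fun i _ => ?_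
      rw [ifa_ncard]
      rfl
  have hlb2 : ∀ v : Pl K, (lbn K L J B v : ℝ) ≤ (N * d : ℕ) := by
    intro v
    refine (hlb v).trans ?_
    have h1 : ∀ i ∈ J, ((ubW K v : Finset (Pl (L i))).card : ℝ) ≤ d := fun i _ => by
      exact_mod_cast (ifa_fbr_le K (E := L i) v).trans (hdeg i)
    refine (Finset.sum_le_card_nsmul _ _ _ h1).trans ?_
    rw [nsmul_eq_mul]
    push_cast
    exact mul_le_mul_of_nonneg_right (by exact_mod_cast hJN) (Nat.cast_nonneg _)
  have h1 := hub (fun v => (lbn K L J B v : ℝ)) (fun v => ⟨Nat.cast_nonneg _, hlb2 v⟩) Y (by linarith)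
  have hlD : 0 ≤ Real.log D := Real.log_nonneg hD
  have hexp : ∑ v ∈ PB K Y, (lbn K L J B v : ℝ) / nm v ≤
      J.card * (Real.log (Real.log Y)) + N * A' * Real.log (1 + Real.log D) + N * C' := by
    have e1 : ∑ v ∈ PB K Y, (lbn K L J B v : ℝ) / nm v ≤
        ∑ i ∈ J, ∑ v ∈ PB K Y, ((ubW K v : Finset (Pl (L i))).card : ℝ) / nm v := by
      rw [Finset.sum_comm]
      refine Finset.sum_le_sum fun v _ => ?_
      rw [← Finset.sum_div]
      exact div_le_div_of_nonneg_right (hlb v) (Nat.cast_nonneg _)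
    have e2 : ∀ i ∈ J, ∑ v ∈ PB K Y, ((ubW K v : Finset (Pl (L i))).card : ℝ) / nm v ≤
        Real.log (Real.log Y) + (A' * Real.log (1 + Real.log D) + C') := by
      intro i _
      obtain ⟨hn, hn0⟩ := ifa_deg K (L i) (hdeg i)
      rw [← hS] at hn
      obtain ⟨c1, c2, -⟩ := hc _ hn
      refine (ub_P K (L i) Y).trans ((hP _ hn0 (L i) ⟨hTC i, rfl⟩ Y hY).trans ?_)
      have d1 : 1 ≤ dd (L i) := one_le_dd (L i)
      have d2 : Real.log (dd (L i)) ≤ Real.log D := Real.log_le_log (by linarith) (hdd i)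
      have d3 : 0 ≤ Real.log (dd (L i)) := Real.log_nonneg d1
      have d4 : Real.log (1 + Real.log (dd (L i))) ≤ Real.log (1 + Real.log D) :=
        Real.log_le_log (by linarith) (by linarith)
      have d5 : 0 ≤ Real.log (1 + Real.log (dd (L i))) := Real.log_nonneg (by linarith)
      have d6 : (A (Module.finrank ℚ (L i)) : ℝ) ≤ A' := by exact_mod_cast c2
      have d7 : (A (Module.finrank ℚ (L i)) : ℝ) * Real.log (1 + Real.log (dd (L i))) ≤ A' * Real.log (1 + Real.log D) :=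
        mul_le_mul d6 d4 d5 (Nat.cast_nonneg _)
      linarith
    refine e1.trans ((Finset.sum_le_card_nsmul _ _ _ e2).trans ?_)
    rw [nsmul_eq_mul, mul_add]
    have d8 : 0 ≤ Real.log (1 + Real.log D) := Real.log_nonneg (by linarith)
    have d9 : (J.card : ℝ) * (A' * Real.log (1 + Real.log D) + C') ≤ N * (A' * Real.log (1 + Real.log D) + C') :=
      mul_le_mul_of_nonneg_right (by exact_mod_cast hJN) (by positivity)
    linarith
  have hlY : 0 < Real.log Y := by linarith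
  have hD1 : 0 < 1 + Real.log D := by linarith
  have hE : Real.exp (∑ v ∈ PB K Y, (lbn K L J B v : ℝ) / nm v) ≤
      Real.log Y ^ J.card * (1 + Real.log D) ^ (N * A') * Real.exp (N * C') := by
    refine (Real.exp_le_exp.2 hexp).trans (le_of_eq ?_)
    rw [Real.exp_add, Real.exp_add, mul_comm (J.card : ℝ), Real.exp_mul, Real.exp_log hlY, Real.rpow_natCast,
      mul_comm ((N : ℝ) * A'), Real.exp_mul, Real.exp_log hD1, ← Nat.cast_mul, Real.rpow_natCast]
  refine h1.trans ?_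
  have hcard : J.card = J.card - 1 + 1 := by
    have := hJ.card_pos
    omega
  calc U * (Y / Real.log Y) * Real.exp (∑ v ∈ PB K Y, (lbn K L J B v : ℝ) / nm v)
      ≤ U * (Y / Real.log Y) * (Real.log Y ^ J.card * (1 + Real.log D) ^ (N * A') * Real.exp (N * C')) :=
        mul_le_mul_of_nonneg_left hE (by positivity)
    _ = U * Real.exp (N * C') * (1 + Real.log D) ^ (N * A') * (Y * Real.log Y ^ (J.card - 1)) := by
        rw [hcard, pow_succ]
        field_simp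
        rw [Nat.add_sub_cancel]

theorem ifa_SF (K : Type) [Field K] [NumberField K] (Y : ℝ) : (H57.LI.prK K).SF Y = AF K Y := by
  ext s
  rw [H57.LI.Pr.mem_SF, mem_AF]
  unfold H57.LI.Pr.nn H63.MA.nr
  rw [Finset.prod_congr rfl fun l _ => by rw [H57.LI.prK_N l]]

/-- the places of nonprime norm -/
theorem ifa_np (K : Type) [Field K] [NumberField K] : ∃ c : ℝ, ∀ T : Finset (Pl K), (∀ l ∈ T, ¬ (nm l).Prime) →
    ∑ l ∈ T, (nm l : ℝ)⁻¹ ≤ c := by
  have hs : Summable fun m : ℕ => ((m : ℝ) ^ 2)⁻¹ := by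
    simpa using Real.summable_nat_pow_inv.2 (by norm_num : 1 < 2)
  refine ⟨Module.finrank ℚ K * ∑' m : ℕ, ((m : ℝ) ^ 2)⁻¹, fun T hT => ?_⟩
  have h1 : ∀ l ∈ T, (nm l : ℝ)⁻¹ ≤ (((nm l).minFac : ℝ) ^ 2)⁻¹ := by
    intro l hl
    obtain ⟨hp, f, hf, he⟩ := H57.LI.prk_pow l
    have h2 : 2 ≤ f := by
      by_contra h3
      have h4 : f = 1 := by omega
      rw [h4, pow_one] at he
      exact hT l hl (he ▸ hp)
    have h5 : (1 : ℝ) ≤ (nm l).minFac := by exact_mod_cast hp.one_lt.le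
    refine inv_anti₀ (by positivity) ?_
    have h6 : ((nm l).minFac : ℝ) ^ 2 ≤ ((nm l).minFac : ℝ) ^ f := pow_le_pow_right₀ h5 h2
    have h7 : (nm l : ℝ) = ((nm l).minFac : ℝ) ^ f := by exact_mod_cast he
    rw [h7]
    exact h6
  refine (Finset.sum_le_sum h1).trans ?_
  have hmaps : ∀ l ∈ T, (nm l).minFac ∈ T.image (fun l => (nm l).minFac) := fun l hl => Finset.mem_image_of_mem _ hl
  rw [← Finset.sum_fiberwise_of_maps_to hmaps]
  have hfib : ∀ m ∈ T.image (fun l => (nm l).minFac),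
      ∑ l ∈ T.filter (fun l => (nm l).minFac = m), (((nm l).minFac : ℝ) ^ 2)⁻¹ ≤
        Module.finrank ℚ K * ((m : ℝ) ^ 2)⁻¹ := by
    intro m _
    have e1 : ∑ l ∈ T.filter (fun l => (nm l).minFac = m), (((nm l).minFac : ℝ) ^ 2)⁻¹ =
        ∑ l ∈ T.filter (fun l => (nm l).minFac = m), ((m : ℝ) ^ 2)⁻¹ := by
      refine Finset.sum_congr rfl fun l hl => ?_
      rw [(Finset.mem_filter.1 hl).2]
    rw [e1, Finset.sum_const, nsmul_eq_mul]
    refine mul_le_mul_of_nonneg_right ?_ (by positivity)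
    exact_mod_cast H57.LI.prk_fibre m _ fun v hv => (Finset.mem_filter.1 hv).2
  refine (Finset.sum_le_sum hfib).trans ?_
  rw [← Finset.mul_sum]
  refine mul_le_mul_of_nonneg_left ?_ (Nat.cast_nonneg _)
  exact hs.sum_le_tsum _ fun m _ => by positivity

theorem i4 (K : Type) [Field K] [NumberField K] : AN4 K := by
  intro N L _ _ _ hTC B J hJ
  obtain ⟨k, hk⟩ : ∃ k, J.card = k + 1 := ⟨J.card - 1, by have := hJ.card_pos; omega⟩
  obtain ⟨τ, C, hτ, hC, hlim, hbd⟩ := mw K L k J.toList (by rw [Finset.length_toList, hk])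
  obtain ⟨c, hc⟩ := ifa_np K
  have hsum : ∀ F : Fin N → ℕ, (J.toList.map F).sum = ∑ i ∈ J, F i := fun F => Finset.sum_map_toList J F
  have a1 : ∀ v : Pl K, 0 ≤ (lbn K L J B v : ℝ) ∧ (lbn K L J B v : ℝ) ≤ ∑ i ∈ J, (Module.finrank K (L i) : ℝ) := by
    intro v
    refine ⟨Nat.cast_nonneg _, ?_⟩
    unfold lbn
    split_ifs
    · simp only [Nat.cast_zero]
      exact Finset.sum_nonneg fun i _ => Nat.cast_nonneg _
    · push_cast
      refine Finset.sum_le_sum fun i _ => ?_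
      rw [ifa_ncard]
      exact_mod_cast ifa_fbr_le K (E := L i) v
  have a2 : ∃ c : ℝ, ∀ T : Finset (Pl K), (∀ l ∈ T, l ∈ {v : Pl K | v ∈ B ∨ ¬ (nm v).Prime}) →
      ∑ l ∈ T, ((H57.LI.prK K).N l : ℝ)⁻¹ ≤ c := by
    refine ⟨∑ v ∈ B, (nm v : ℝ)⁻¹ + c, fun T hT => ?_⟩
    rw [← Finset.sum_filter_add_sum_filter_not T (fun v => v ∈ B)]
    refine add_le_add ?_ ?_
    · rw [Finset.sum_congr rfl fun l _ => by rw [H57.LI.prK_N l]]
      refine Finset.sum_le_sum_of_subset_of_nonneg (fun v hv => (Finset.mem_filter.1 hv).2) fun v _ _ => ?_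
      exact inv_nonneg.2 (Nat.cast_nonneg _)
    · rw [Finset.sum_congr rfl fun l _ => by rw [H57.LI.prK_N l]]
      refine hc _ fun v hv => ?_
      have h1 := Finset.mem_filter.1 hv
      exact (hT v h1.1).resolve_left h1.2
  have a3 : ∀ v : Pl K, v ∉ {v : Pl K | v ∈ B ∨ ¬ (nm v).Prime} → (lbn K L J B v : ℝ) =
      ({q | (bgl K L J.toList).u q = v ∧ (bgl K L J.toList).f q = 1}.ncard : ℝ) := by
    intro v hv
    rw [Set.mem_setOf_eq, not_or, not_not] at hv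
    rw [bgl_one, hsum]
    unfold lbn
    rw [if_neg hv.1]
    push_cast
    refine Finset.sum_congr rfl fun i _ => ?_
    congr 2
    ext w
    refine and_congr_right fun h1 => ⟨fun h2 => ?_, fun h2 => ?_⟩
    · rw [← nm_dn K h2, dn_eq K h1]
    · rw [h2]
      exact hv.2
  obtain ⟨l, hl, h⟩ := mo (H57.LI.prK K) (bgl K L J.toList).G (bgl K L J.toList).u (bgl K L J.toList).f
    (bgl K L J.toList).f1 (fun q => by rw [(bgl K L J.toList).hN, H57.LI.prK_N]) (∑ i ∈ J, Module.finrank K (L i))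
    (fun v => ⟨(bgl K L J.toList).fin v, (bgl_all K L J.toList v).trans (hsum _).le⟩)
    (fun v => (lbn K L J B v : ℝ)) (∑ i ∈ J, (Module.finrank K (L i) : ℝ)) a1 {v | v ∈ B ∨ ¬ (nm v).Prime} a2 a3 k τ hτ hlim C hbd
  refine ⟨l, hl, ?_⟩
  rw [hk, Nat.add_sub_cancel]
  refine h.congr fun Y => ?_
  rw [ifa_SF]
  rfl

end H57.AN
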