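import Pool.Agent.H63.MA.ABilB

/-!
# [H57 AN HYP] From rectangles to the region under the hyperbola, abstract (200 lines)

Copy of the proof of `H63.MA.bilH` (H63/MA/ABilB.lean) with: `GF D Y`, `nr` replaced by the finite sets `P`, `Q` and the size functions `ρ`, `σ`; `T` is the
given kernel; `bil_rect` replaced by the hypothesis `hrect`, `af_short` by `hP`, `hQ`. `θ = z^(-δ/2)`. The diagonal strips: `Pk` and `R` have at most
`S (θ + x^(-δ))^(3/4) x` and `S (θ + y^(-δ))^(3/4) y` elements, `x ≥ z`, `y ≥ z / 2`, `x^(-δ) ≤ θ`, `y^(-δ) ≤ 2 θ`; so the product is at most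
`S^2 (2 θ)^(3/4) (3 θ)^(3/4) Y ≤ 6 S^2 θ^(3/2) Y`; there are `L ≤ 2 (1 + log Y) / θ` strips. Main part: `L * E * 2 * Y * z^(-δ)`, `z^(-δ) / θ = z^(-δ/2)`.
(`dy_L`, `dy_sum` of ABilB are abstract and can be used.) If `y < 1` then `R` is empty (`σ ≥ 1`; elements of `R` have `z < σ n ≤ (1+θ) y < 2`: here
use `hint`: sizes are `1` or at least `2`).
-/

set_option autoImplicit false

open scoped Classical

noncomputable section

namespace H57.AN

theorem hyp : ∃ c : ℝ, 0 < c ∧ ∀ (α β : Type) (ρ : α → ℝ) (σ : β → ℝ) (P : Finset α) (Q : Finset β) (T : α → β → ℂ)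
    (z Y E S δ : ℝ), 1 ≤ z → 1 ≤ Y → 0 ≤ E → 1 ≤ S → 0 < δ → δ ≤ 1 →
    (∀ m n, ‖T m n‖ ≤ 1) → (∀ m ∈ P, z < ρ m) → (∀ n ∈ Q, z < σ n) → (∀ n ∈ Q, σ n = 1 ∨ 2 ≤ σ n) →
    (∀ P' ⊆ P, ∀ Q' ⊆ Q, ∀ M N : ℝ, 1 ≤ M → 1 ≤ N → M * N ≤ 2 * Y → (∀ m ∈ P', ρ m ≤ M) → (∀ n ∈ Q', σ n ≤ N) →
      ‖∑ m ∈ P', ∑ n ∈ Q', T m n‖ ≤ E * (M * N) * z ^ (-δ)) →
    (∀ x θ : ℝ, 1 ≤ x → x ≤ Y → 0 ≤ θ → θ ≤ 1 → ∀ P' ⊆ P, (∀ m ∈ P', x < ρ m ∧ ρ m ≤ (1 + θ) * x) →
      (P'.card : ℝ) ≤ S * ((θ + x ^ (-δ)) ^ (3 / 4 : ℝ) * x)) →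
    (∀ x θ : ℝ, 1 ≤ x → x ≤ Y → 0 ≤ θ → θ ≤ 1 → ∀ Q' ⊆ Q, (∀ n ∈ Q', x < σ n ∧ σ n ≤ (1 + θ) * x) →
      (Q'.card : ℝ) ≤ S * ((θ + x ^ (-δ)) ^ (3 / 4 : ℝ) * x)) →
    ‖∑ m ∈ P, ∑ n ∈ Q, if ρ m * σ n ≤ Y then T m n else 0‖ ≤
      c * (E + S ^ 2) * Y * z ^ (-(δ / 4)) * (1 + Real.log Y) := by
  refine ⟨12, by norm_num, fun α β ρ σ P0 Q T z Y E S δ hz hY hE hS hδ hδ1 hT1 hρ hσ hint hrect
    hPs hQs => ?_⟩
  have hz0 : 0 < z := by linarith
  have hY0 : 0 < Y := by linarith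
  have hS0 : 0 < S := by linarith
  have hl : 0 ≤ Real.log Y := Real.log_nonneg hY
  obtain ⟨η, hη⟩ : ∃ η : ℝ, η = z ^ (-(δ / 4)) := ⟨_, rfl⟩
  have hη0 : 0 < η := by rw [hη]; exact Real.rpow_pos_of_pos hz0 _
  have hη1 : η ≤ 1 := by rw [hη]; exact Real.rpow_le_one_of_one_le_of_nonpos hz (by linarith)
  obtain ⟨θ, hθ⟩ : ∃ θ : ℝ, θ = η ^ 2 := ⟨_, rfl⟩
  have hθ0 : 0 < θ := by rw [hθ]; positivity
  have hθη : θ ≤ η := by
    rw [hθ, sq]
    exact mul_le_of_le_one_left hη0.le hη1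
  have hθ1 : θ ≤ 1 := hθη.trans hη1
  have hzδ : z ^ (-δ) = θ * θ := by
    rw [hθ, hη, ← Real.rpow_natCast, ← Real.rpow_mul hz0.le, ← Real.rpow_add hz0]
    congr 1
    push_cast
    ring
  have hθθ : θ * θ ≤ θ := mul_le_of_le_one_left hθ0.le hθ1
  have hq : 1 ≤ 1 + θ := by linarith
  obtain ⟨L, hL1, hL2⟩ := H63.MA.dy_L hY hθ0 hθ1
  have hσ1 : ∀ n ∈ Q, 1 ≤ σ n := fun n hn => by
    rcases hint n hn with h | h <;> linarith
  -- restrict to `ρ m ≤ Y`
  obtain ⟨P, hP⟩ : ∃ P, P = P0.filter (fun m => ρ m ≤ Y) := ⟨_, rfl⟩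
  have hPm : ∀ m ∈ P, m ∈ P0 ∧ z < ρ m ∧ ρ m ≤ Y := by
    intro m hm
    rw [hP, Finset.mem_filter] at hm
    exact ⟨hm.1, hρ m hm.1, hm.2⟩
  have hPP : (∑ m ∈ P0, ∑ n ∈ Q, if ρ m * σ n ≤ Y then T m n else 0) =
      ∑ m ∈ P, ∑ n ∈ Q, if ρ m * σ n ≤ Y then T m n else 0 := by
    rw [hP, Finset.sum_filter]
    refine Finset.sum_congr rfl fun m hm => ?_
    by_cases h : ρ m ≤ Y
    · rw [if_pos h]
    · rw [if_neg h]
      refine Finset.sum_eq_zero fun n hn => if_neg fun h' => h ?_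
      have h1 := hσ1 n hn
      have h2 := hρ m hm
      exact (le_mul_of_one_le_right (by linarith) h1).trans h'
  rw [hPP, H63.MA.dy_sum P ρ _ hz0.le hq L (fun m hm => ⟨(hPm m hm).2.1, (hPm m hm).2.2.trans
    (hL2.trans (le_mul_of_one_le_left (by positivity) hz))⟩)]
  have hk : ∀ k ∈ Finset.range L,
      ‖∑ m ∈ P.filter (fun m => z * (1 + θ) ^ k < ρ m ∧ ρ m ≤ z * (1 + θ) ^ (k + 1)),
        ∑ n ∈ Q, if ρ m * σ n ≤ Y then T m n else 0‖ ≤
      6 * (E + S ^ 2) * Y * η ^ 3 := by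
    intro k _
    obtain ⟨x, hx⟩ : ∃ x : ℝ, x = z * (1 + θ) ^ k := ⟨_, rfl⟩
    have hx1 : z * (1 + θ) ^ (k + 1) = (1 + θ) * x := by
      rw [hx, pow_succ]
      ring
    have hzx : z ≤ x := by
      rw [hx]
      exact le_mul_of_one_le_right hz0.le (one_le_pow₀ hq)
    have hx0 : 0 < x := by linarith
    have h1x : 1 ≤ x := hz.trans hzx
    rw [← hx, hx1]
    obtain ⟨Pk, hPk⟩ : ∃ Pk, Pk = P.filter (fun m => x < ρ m ∧ ρ m ≤ (1 + θ) * x) := ⟨_, rfl⟩
    obtain ⟨Q1, hQ1⟩ : ∃ Q1, Q1 = Q.filter (fun n => σ n ≤ Y / x) := ⟨_, rfl⟩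
    rw [← hPk]
    have hPkm : ∀ m ∈ Pk, m ∈ P0 ∧ x < ρ m ∧ ρ m ≤ (1 + θ) * x := by
      intro m hm
      rw [hPk, Finset.mem_filter] at hm
      exact ⟨(hPm m hm.1).1, hm.2.1, hm.2.2⟩
    have hPkP : Pk ⊆ P0 := fun m hm => (hPkm m hm).1
    have hQ1Q : Q1 ⊆ Q := by
      rw [hQ1]
      exact Finset.filter_subset _ _
    have hR0 : 0 ≤ 6 * (E + S ^ 2) * Y * η ^ 3 := by positivity
    have hsplit : ∀ m ∈ Pk, (∑ n ∈ Q, if ρ m * σ n ≤ Y then T m n else 0) =
        ∑ n ∈ Q1, T m n - ∑ n ∈ Q1, (if ρ m * σ n ≤ Y then 0 else T m n) := by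
      intro m hm
      rw [← Finset.sum_sub_distrib, hQ1, Finset.sum_filter]
      refine Finset.sum_congr rfl fun n hn => ?_
      have h1 := (hPkm m hm).2.1
      by_cases h2 : ρ m * σ n ≤ Y
      · rw [if_pos h2, if_pos h2, if_pos, sub_zero]
        rw [le_div_iff₀ hx0]
        have h3 := hσ1 n hn
        calc σ n * x ≤ σ n * ρ m := mul_le_mul_of_nonneg_left h1.le (by linarith)
          _ = ρ m * σ n := mul_comm _ _
          _ ≤ Y := h2
      · rw [if_neg h2, if_neg h2, sub_self, ite_self]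
    rw [Finset.sum_congr rfl hsplit, Finset.sum_sub_distrib]
    rcases Finset.eq_empty_or_nonempty Q1 with hQe | ⟨n0, hn0⟩
    · rw [hQe]
      simp only [Finset.sum_empty, Finset.sum_const_zero, sub_self, norm_zero]
      exact hR0
    rw [hQ1, Finset.mem_filter] at hn0
    have hzY : z < Y / x := (hσ n0 hn0.1).trans_le hn0.2
    have h1Y : 1 ≤ Y / x := by linarith
    have hxY : x ≤ Y := by
      rw [le_div_iff₀ hx0, one_mul] at h1Y
      exact h1Y
    have hmainb : ‖∑ m ∈ Pk, ∑ n ∈ Q1, T m n‖ ≤ 2 * E * Y * η ^ 3 := by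
      have h4 : (1 + θ) * x * (Y / x) = (1 + θ) * Y := by
        field_simp
      have h1 := hrect Pk hPkP Q1 hQ1Q ((1 + θ) * x) (Y / x) (by nlinarith) h1Y
        (by rw [h4]; exact mul_le_mul_of_nonneg_right (by linarith) hY0.le)
        (fun m hm => (hPkm m hm).2.2) (fun n hn => by
          rw [hQ1, Finset.mem_filter] at hn
          exact hn.2)
      refine h1.trans ?_
      rw [h4, hzδ, hθ]
      have h5 : η ^ 2 * η ^ 2 ≤ η ^ 3 := by
        have : η ^ 2 * η ^ 2 = η * η ^ 3 := by ring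
        rw [this]
        exact mul_le_of_le_one_left (by positivity) hη1
      have h6 : E * ((1 + η ^ 2) * Y) ≤ 2 * E * Y := by
        rw [← hθ]
        have : E * ((1 + θ) * Y) ≤ E * (2 * Y) :=
          mul_le_mul_of_nonneg_left (mul_le_mul_of_nonneg_right (by linarith) hY0.le) hE
        linarith
      exact mul_le_mul h6 h5 (by positivity) (by positivity)
    have herr : ‖∑ m ∈ Pk, ∑ n ∈ Q1, (if ρ m * σ n ≤ Y then 0 else T m n)‖ ≤
        6 * S ^ 2 * Y * η ^ 3 := by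
      obtain ⟨y, hy⟩ : ∃ y : ℝ, y = Y / ((1 + θ) * x) := ⟨_, rfl⟩
      have hyx : (1 + θ) * y = Y / x := by
        rw [hy]
        field_simp
      obtain ⟨R, hR⟩ : ∃ R, R = Q.filter (fun n => y < σ n ∧ σ n ≤ (1 + θ) * y) := ⟨_, rfl⟩
      have h1 : ∀ m ∈ Pk, ‖∑ n ∈ Q1, (if ρ m * σ n ≤ Y then 0 else T m n)‖ ≤ (R.card : ℝ) := by
        intro m hm
        have h2 : ∀ n ∈ Q1, ‖(if ρ m * σ n ≤ Y then 0 else T m n)‖ ≤
            if n ∈ R then (1 : ℝ) else 0 := by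
          intro n hn
          rw [hQ1, Finset.mem_filter] at hn
          by_cases h3 : ρ m * σ n ≤ Y
          · rw [if_pos h3, norm_zero]
            split_ifs
            · exact zero_le_one
            · exact le_rfl
          · rw [if_neg h3, if_pos]
            · exact hT1 m n
            · rw [hR, Finset.mem_filter, hyx]
              refine ⟨hn.1, ?_, hn.2⟩
              push Not at h3
              rw [hy, div_lt_iff₀ (by positivity)]
              have h4 := (hPkm m hm).2.2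
              have h5 := hσ1 n hn.1
              calc Y < ρ m * σ n := h3
                _ ≤ (1 + θ) * x * σ n := mul_le_mul_of_nonneg_right h4 (by linarith)
                _ = _ := by ring
        refine (norm_sum_le _ _).trans ((Finset.sum_le_sum h2).trans ?_)
        rw [Finset.sum_ite_mem, Finset.sum_const, nsmul_eq_mul, mul_one]
        exact_mod_cast Finset.card_le_card Finset.inter_subset_right
      refine (norm_sum_le _ _).trans ((Finset.sum_le_card_nsmul _ _ _ h1).trans ?_)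
      rw [nsmul_eq_mul]
      rcases Finset.eq_empty_or_nonempty R with hRe | ⟨n1, hn1⟩
      · rw [hRe, Finset.card_empty, Nat.cast_zero, mul_zero]
        positivity
      rw [hR, Finset.mem_filter] at hn1
      have hy0 : 0 < y := by rw [hy]; positivity
      have hy2 : (1 + θ) * y ≤ 2 * y := mul_le_mul_of_nonneg_right (by linarith) hy0.le
      have hy1 : 1 ≤ y := by
        by_contra hlt
        push Not at hlt
        have h2 := hσ n1 hn1.1
        rcases hint n1 hn1.1 with h3 | h3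
        · linarith
        · linarith [hn1.2.2]
      have hyz : z ≤ 2 * y := by
        have := hσ n1 hn1.1
        linarith [hn1.2.2]
      have hyY : y ≤ Y := by
        rw [hy]
        refine div_le_self hY0.le ?_
        nlinarith
      have hcR := hQs y θ hy1 hyY hθ0.le hθ1 R (by rw [hR]; exact Finset.filter_subset _ _)
        (fun n hn => by
          rw [hR, Finset.mem_filter] at hn
          exact hn.2)
      have hcP := hPs x θ h1x hxY hθ0.le hθ1 Pk hPkP (fun m hm => (hPkm m hm).2)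
      have e1 : x ^ (-δ) ≤ θ :=
        (Real.rpow_le_rpow_of_nonpos hz0 hzx (by linarith)).trans (hzδ.le.trans hθθ)
      have e2 : y ^ (-δ) ≤ 2 * θ := by
        have h3 : y ^ (-δ) ≤ (z / 2) ^ (-δ) :=
          Real.rpow_le_rpow_of_nonpos (by linarith) (by linarith) (by linarith)
        have h4 : (z / 2) ^ (-δ) = z ^ (-δ) * 2 ^ δ := by
          rw [Real.div_rpow hz0.le (by norm_num), Real.rpow_neg (by norm_num : (0 : ℝ) ≤ 2) δ,
            div_inv_eq_mul]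
        have h5 : (2 : ℝ) ^ δ ≤ 2 := by
          have := Real.rpow_le_rpow_of_exponent_le (show (1 : ℝ) ≤ 2 by norm_num) hδ1
          rwa [Real.rpow_one] at this
        have h7 : 0 ≤ (2 : ℝ) ^ δ := Real.rpow_nonneg (by norm_num) _
        rw [h4] at h3
        have h8 : z ^ (-δ) * 2 ^ δ ≤ θ * 2 := mul_le_mul (hzδ.le.trans hθθ) h5 h7 hθ0.le
        linarith
      have e3 : (Pk.card : ℝ) ≤ S * ((2 * θ) ^ (3 / 4 : ℝ) * x) := by
        refine hcP.trans (mul_le_mul_of_nonneg_left (mul_le_mul_of_nonneg_right ?_ hx0.le) hS0.le)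
        refine Real.rpow_le_rpow ?_ (by linarith) (by norm_num)
        have := Real.rpow_nonneg hx0.le (-δ)
        linarith
      have e4 : (R.card : ℝ) ≤ S * ((3 * θ) ^ (3 / 4 : ℝ) * y) := by
        refine hcR.trans (mul_le_mul_of_nonneg_left (mul_le_mul_of_nonneg_right ?_ hy0.le) hS0.le)
        refine Real.rpow_le_rpow ?_ (by linarith) (by norm_num)
        have := Real.rpow_nonneg hy0.le (-δ)
        linarith
      have e5 : x * y ≤ Y := by
        have h3 : x * y = Y / (1 + θ) := by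
          rw [hy]
          field_simp
        rw [h3]
        exact div_le_self hY0.le hq
      have e6 : (2 * θ) ^ (3 / 4 : ℝ) * (3 * θ) ^ (3 / 4 : ℝ) ≤ 6 * η ^ 3 := by
        rw [← Real.mul_rpow (by positivity) (by positivity)]
        have h3 : 2 * θ * (3 * θ) = 6 * η ^ 4 := by rw [hθ]; ring
        rw [h3, Real.mul_rpow (by norm_num) (by positivity)]
        have h4 : (6 : ℝ) ^ (3 / 4 : ℝ) ≤ 6 := by
          have := Real.rpow_le_rpow_of_exponent_le (show (1 : ℝ) ≤ 6 by norm_num)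
            (show (3 / 4 : ℝ) ≤ 1 by norm_num)
          rwa [Real.rpow_one] at this
        have h5 : (η ^ 4) ^ (3 / 4 : ℝ) = η ^ 3 := by
          rw [← Real.rpow_natCast, ← Real.rpow_natCast, ← Real.rpow_mul hη0.le]
          congr 1
          norm_num
        rw [h5]
        exact mul_le_mul_of_nonneg_right h4 (by positivity)
      have e7 : 0 ≤ (2 * θ) ^ (3 / 4 : ℝ) := Real.rpow_nonneg (by positivity) _
      have e8 : 0 ≤ (3 * θ) ^ (3 / 4 : ℝ) := Real.rpow_nonneg (by positivity) _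
      calc (Pk.card : ℝ) * R.card ≤
            (S * ((2 * θ) ^ (3 / 4 : ℝ) * x)) * (S * ((3 * θ) ^ (3 / 4 : ℝ) * y)) :=
            mul_le_mul e3 e4 (Nat.cast_nonneg _) (by positivity)
        _ = S ^ 2 * ((2 * θ) ^ (3 / 4 : ℝ) * (3 * θ) ^ (3 / 4 : ℝ)) * (x * y) := by ring
        _ ≤ S ^ 2 * (6 * η ^ 3) * Y := by
            refine mul_le_mul (mul_le_mul_of_nonneg_left e6 (by positivity)) e5 (by positivity)
              (by positivity)
        _ = _ := by ring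
    refine (norm_sub_le _ _).trans ?_
    have h4 : 6 * (E + S ^ 2) * Y * η ^ 3 = 6 * E * Y * η ^ 3 + 6 * S ^ 2 * Y * η ^ 3 := by ring
    have h5 : 2 * E * Y * η ^ 3 ≤ 6 * E * Y * η ^ 3 := by
      have : 0 ≤ E * Y * η ^ 3 := by positivity
      linarith
    linarith
  refine (norm_sum_le _ _).trans ((Finset.sum_le_card_nsmul _ _ _ hk).trans ?_)
  rw [Finset.card_range, nsmul_eq_mul, ← hη]
  have hB0 : 0 ≤ 6 * (E + S ^ 2) * Y * η ^ 3 := by positivity
  calc (L : ℝ) * (6 * (E + S ^ 2) * Y * η ^ 3)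
      ≤ (2 * (1 + Real.log Y) / θ) * (6 * (E + S ^ 2) * Y * η ^ 3) :=
        mul_le_mul_of_nonneg_right hL1 hB0
    _ = _ := by
        rw [hθ]
        field_simp
        ring

end H57.AN
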