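import Pool.Agent.H57.AN.Bk
import Pool.Agent.H57.AN.Hyp

/-!
# [H57 AN TWO] The bilinear theorem (150 lines)

`an2_rect` (rectangles): for `P ⊆ B`, `P' ⊆ B'` with `z < nr`, `nr ≤ M` on `P`, `nr ≤ N` on `P'`, `M N ≤ 2 Y`: if `N ≤ M`: `bk` for `(P, P')` (`HK` restricts
to subsets), `N^(-δ) ≤ z^(-δ)` if `P'` is nonempty (`z < nr ≤ N`). If `M < N`: `k b b' = η (cl b) (cl' b') k' b' b`; for each pair `(c, c')` of classes `bk`
for `(P', P)`, `k'`, with the coefficients `β b' 1[cl' b' = c']` and `α b 1[cl b = c]`; sum over the `≤ q^2` pairs with `‖η‖ ≤ 1`.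
`an2`: `hyp` with `α = Finset (Pl L)`, `β = Finset (Pl L')`, `ρ = σ = nr`, `P = B.filter (z < nr)`, `Q = B'.filter (z < nr)`, `T b b' = α b β b' k b b'` on
`B × B'` and `0` outside (`‖k b b'‖ ≤ 1` on `B × B'`: `HK`, `rc_le_one`), `E` = the constant of `an2_rect` times `q^A (1 + log (2 Y))^A`, `S` = the constant
of `fam_short` times `(1 + log Y)^A` (for `K`, `d = max n n'`; both fields; take the least `δ`, note that `x^(-δ)` decreases in `δ`). Sizes: `nr b = 1`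
(`b = ∅`) or `≥ 2` (`H63.MA.nr_lt_two`). Terms with `nr b > Y` do not occur because `nr b * nr b' ≤ Y`; restrict `P`, `Q` to `nr ≤ Y` if needed.
-/

set_option autoImplicit false

open scoped NumberField
open NumberField IsDedekindDomain H63.MA H36.QA H57.TLS
open scoped Classical

noncomputable section

namespace H57.AN

/-- `HK` in both directions, up to a function of classes -/
structure BD (K : Type) [Field K] [NumberField K] {L L' : Type} [Field L] [NumberField L] [Algebra K L] [Field L'] [NumberField L']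
    [Algebra K L'] (q : ℝ) (A : ℕ) (B : Finset (Finset (Pl L))) (B' : Finset (Finset (Pl L')))
    (k : Finset (Pl L) → Finset (Pl L') → ℂ) : Prop where
  one : 1 ≤ q
  dL : dd L ≤ q
  dL' : dd L' ≤ q
  ok : ∀ b ∈ B, Ok K b
  ok' : ∀ b ∈ B', Ok K b
  hk : HK K q A B B' k
  sw : ∃ k' : Finset (Pl L') → Finset (Pl L) → ℂ, HK K q A B' B k' ∧
    ∃ (ι ι' : Type) (_ : Fintype ι) (_ : Fintype ι') (cl : Finset (Pl L) → ι) (cl' : Finset (Pl L') → ι') (η : ι → ι' → ℂ),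
      (Fintype.card ι : ℝ) ≤ q ∧ (Fintype.card ι' : ℝ) ≤ q ∧ (∀ c c', ‖η c c'‖ ≤ 1) ∧
      ∀ b ∈ B, ∀ b' ∈ B', k b b' = η (cl b) (cl' b') * k' b' b

theorem two_finrank (K : Type) [Field K] [NumberField K] {L : Type} [Field L] [NumberField L] [Algebra K L] {n : ℕ} (h : TC L n) :
    Module.finrank K L ≤ n := by
  have h1 : Module.finrank ℚ K * Module.finrank K L = Module.finrank ℚ L := Module.finrank_mul_finrank ℚ K L
  have h2 : 0 < Module.finrank ℚ K := Module.finrank_pos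
  rw [h.2] at h1
  nlinarith

theorem two_hk {K : Type} [Field K] [NumberField K] {L L' : Type} [Field L] [NumberField L] [Field L'] [NumberField L']
    [Algebra K L'] {q : ℝ} {A : ℕ} {B P : Finset (Finset (Pl L))} {B' P' : Finset (Finset (Pl L'))}
    {k : Finset (Pl L) → Finset (Pl L') → ℂ} (h : HK K q A B B' k) (hP : P ⊆ B) (hP' : P' ⊆ B') : HK K q A P P' k := by
  obtain ⟨𝔣, χ, h1, h2, h3⟩ := h
  exact ⟨𝔣, χ, fun b hb => h1 b (hP' hb), fun b hb b' hb' => h2 b (hP hb) b' (hP' hb'),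
    fun b hb b' hb' => h3 b (hP' hb) b' (hP' hb')⟩

theorem two_k_le {K : Type} [Field K] [NumberField K] {L L' : Type} [Field L] [NumberField L] [Field L'] [NumberField L']
    [Algebra K L'] {q : ℝ} {A : ℕ} {B : Finset (Finset (Pl L))} {B' : Finset (Finset (Pl L'))}
    {k : Finset (Pl L) → Finset (Pl L') → ℂ} (h : HK K q A B B' k) {b : Finset (Pl L)} {b' : Finset (Pl L')}
    (hb : b ∈ B) (hb' : b' ∈ B') : ‖k b b'‖ ≤ 1 := by
  obtain ⟨𝔣, χ, -, h2, -⟩ := h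
  rw [h2 b hb b' hb', norm_prod]
  exact Finset.prod_le_one (fun w _ => norm_nonneg _) fun w _ => rc_le_one _ _

theorem two_bd {K : Type} [Field K] [NumberField K] {L L' : Type} [Field L] [NumberField L] [Algebra K L] [Field L'] [NumberField L']
    [Algebra K L'] {q : ℝ} {A : ℕ} {B P : Finset (Finset (Pl L))} {B' P' : Finset (Finset (Pl L'))}
    {k : Finset (Pl L) → Finset (Pl L') → ℂ} (h : BD K q A B B' k) (hP : P ⊆ B) (hP' : P' ⊆ B') : BD K q A P P' k := by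
  refine ⟨h.one, h.dL, h.dL', fun b hb => h.ok b (hP hb), fun b hb => h.ok' b (hP' hb), two_hk h.hk hP hP', ?_⟩
  obtain ⟨k', h1, ι, ι', i1, i2, cl, cl', η, h2, h3, h4, h5⟩ := h.sw
  exact ⟨k', two_hk h1 hP' hP, ι, ι', i1, i2, cl, cl', η, h2, h3, h4, fun b hb b' hb' => h5 b (hP hb) b' (hP' hb')⟩

theorem an2_rect (K : Type) [Field K] [NumberField K] (n n' A₀ : ℕ) (hn : 0 < n) (hn' : 0 < n') :
    ∃ (C : ℝ) (A : ℕ) (δ : ℝ), 1 ≤ C ∧ 0 < δ ∧ δ ≤ 1 ∧
    ∀ (L L' : Type) [Field L] [NumberField L] [Algebra K L] [Field L'] [NumberField L'] [Algebra K L'], TC L n → TC L' n' →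
      ∀ (q : ℝ) (B : Finset (Finset (Pl L))) (B' : Finset (Finset (Pl L'))) (k : Finset (Pl L) → Finset (Pl L') → ℂ),
        BD K q A₀ B B' k → ∀ M N z : ℝ, 1 ≤ z → 1 ≤ M → 1 ≤ N → (∀ b ∈ B, z < nr b ∧ nr b ≤ M) →
          (∀ b' ∈ B', z < nr b' ∧ nr b' ≤ N) →
          ∀ (α : Finset (Pl L) → ℂ) (β : Finset (Pl L') → ℂ), (∀ b, ‖α b‖ ≤ 1) → (∀ b, ‖β b‖ ≤ 1) →
            ‖∑ b ∈ B, ∑ b' ∈ B', α b * β b' * k b b'‖ ≤
              C * q ^ A * (M * N) * z ^ (-δ) * (1 + Real.log (M * N)) ^ A := by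
  obtain ⟨C1, A1, δ1, hC1, hδ1, hδ1', hb1⟩ := bk K n n' A₀ hn
  obtain ⟨C2, A2, δ2, hC2, hδ2, hδ2', hb2⟩ := bk K n' n A₀ hn'
  refine ⟨max C1 C2, max A1 A2 + 2, min δ1 δ2, hC1.trans (le_max_left _ _), lt_min hδ1 hδ2, (min_le_left _ _).trans hδ1', ?_⟩
  intro L L' _ _ _ _ _ _ hL hL' q B B' k hBD M N z hz hM hN hB hB' α β hα hβ
  have hq := hBD.one
  have hz0 : 0 < z := by linarith
  have hM0 : 0 < M := by linarith
  have hN0 : 0 < N := by linarith
  have hMN : 1 ≤ M * N := one_le_mul_of_one_le_of_one_le hM hN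
  have hlM : Real.log M ≤ Real.log (M * N) := Real.log_le_log hM0 (le_mul_of_one_le_right hM0.le hN)
  have hlN : Real.log N ≤ Real.log (M * N) := Real.log_le_log hN0 (le_mul_of_one_le_left hN0.le hM)
  have hlM0 : 0 ≤ Real.log M := Real.log_nonneg hM
  have hlN0 : 0 ≤ Real.log N := Real.log_nonneg hN
  have hl0 : 0 ≤ Real.log (M * N) := Real.log_nonneg hMN
  have hzδ : ∀ w d : ℝ, z ≤ w → min δ1 δ2 ≤ d → 0 < d → w ^ (-d) ≤ z ^ (-(min δ1 δ2)) := by
    intro w d hw hd hd0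
    calc w ^ (-d) ≤ z ^ (-d) := Real.rpow_le_rpow_of_nonpos hz0 hw (by linarith)
      _ ≤ z ^ (-(min δ1 δ2)) := Real.rpow_le_rpow_of_exponent_le hz (by linarith)
  have hR0 : 0 ≤ max C1 C2 * q ^ (max A1 A2 + 2) * (M * N) * z ^ (-(min δ1 δ2)) * (1 + Real.log (M * N)) ^ (max A1 A2 + 2) := by
    have h1 : 0 ≤ z ^ (-(min δ1 δ2)) := (Real.rpow_pos_of_pos hz0 _).le
    have h2 : 0 ≤ max C1 C2 := le_trans (by linarith) (le_max_left C1 C2)
    have h3 : 0 ≤ q := by linarith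
    positivity
  rcases B.eq_empty_or_nonempty with hBe | ⟨b0, hb0⟩
  · rw [hBe, Finset.sum_empty, norm_zero]
    exact hR0
  rcases B'.eq_empty_or_nonempty with hBe' | ⟨b0', hb0'⟩
  · rw [hBe']
    simp only [Finset.sum_empty, Finset.sum_const_zero, norm_zero]
    exact hR0
  have hzM : z ≤ M := ((hB b0 hb0).1.trans_le (hB b0 hb0).2).le
  have hzN : z ≤ N := ((hB' b0' hb0').1.trans_le (hB' b0' hb0').2).le
  by_cases hNM : N ≤ M
  · have h1 := hb1 L L' hL (two_finrank K hL') q hq hBD.dL B B' k hBD.hk M N hN hNM (fun b hb => (hB b hb).2)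
      (fun b' hb' => ⟨hBD.ok' b' hb', (hB' b' hb').2⟩) α β hα hβ
    refine h1.trans ?_
    have e1 : q ^ A1 ≤ q ^ (max A1 A2 + 2) := pow_le_pow_right₀ hq ((le_max_left A1 A2).trans (Nat.le_add_right _ 2))
    have e2 : N ^ (-δ1) ≤ z ^ (-(min δ1 δ2)) := hzδ N δ1 hzN (min_le_left _ _) hδ1
    have e3 : (1 + Real.log M) ^ A1 ≤ (1 + Real.log (M * N)) ^ (max A1 A2 + 2) :=
      (pow_le_pow_left₀ (by linarith) (by linarith) A1).trans (pow_le_pow_right₀ (by linarith) ((le_max_left A1 A2).trans (Nat.le_add_right _ 2)))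
    have e4 : 0 ≤ N ^ (-δ1) := (Real.rpow_pos_of_pos hN0 _).le
    have e5 : 0 ≤ q := by linarith
    have e6 : C1 ≤ max C1 C2 := le_max_left _ _
    gcongr
  · push Not at hNM
    obtain ⟨k', h1, ι, ι', i1, i2, cl, cl', η, h2, h3, h4, h5⟩ := hBD.sw
    have key : ∀ (c : ι) (c' : ι'), ‖∑ b' ∈ B', ∑ b ∈ B, (if cl' b' = c' then β b' else 0) * (if cl b = c then α b else 0) * k' b' b‖ ≤
        C2 * q ^ A2 * (N * M) * M ^ (-δ2) * (1 + Real.log N) ^ A2 := by
      intro c c'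
      refine hb2 L' L hL' (two_finrank K hL) q hq hBD.dL' B' B k' h1 N M hM hNM.le (fun b hb => (hB' b hb).2)
        (fun b' hb' => ⟨hBD.ok b' hb', (hB b' hb').2⟩) (fun b' => if cl' b' = c' then β b' else 0)
        (fun b => if cl b = c then α b else 0) ?_ ?_
      · intro b
        split_ifs
        · exact hβ b
        · rw [norm_zero]; exact zero_le_one
      · intro b
        split_ifs
        · exact hα b
        · rw [norm_zero]; exact zero_le_one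
    have hsum : ∑ b ∈ B, ∑ b' ∈ B', α b * β b' * k b b' = ∑ c : ι, ∑ c' : ι', η c c' *
        ∑ b' ∈ B', ∑ b ∈ B, (if cl' b' = c' then β b' else 0) * (if cl b = c then α b else 0) * k' b' b := by
      have e1 : ∀ c : ι, ∀ c' : ι', η c c' *
          ∑ b' ∈ B', ∑ b ∈ B, (if cl' b' = c' then β b' else 0) * (if cl b = c then α b else 0) * k' b' b =
          ∑ b ∈ B, ∑ b' ∈ B', η c c' * ((if cl' b' = c' then β b' else 0) * (if cl b = c then α b else 0) * k' b' b) := by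
        intro c c'
        rw [Finset.sum_comm, Finset.mul_sum]
        refine Finset.sum_congr rfl fun b _ => ?_
        rw [Finset.mul_sum]
      simp_rw [e1]
      have e2 : ∀ c : ι, (∑ c' : ι', ∑ b ∈ B, ∑ b' ∈ B', η c c' * ((if cl' b' = c' then β b' else 0) *
          (if cl b = c then α b else 0) * k' b' b)) = ∑ b ∈ B, ∑ b' ∈ B', ∑ c' : ι', η c c' *
          ((if cl' b' = c' then β b' else 0) * (if cl b = c then α b else 0) * k' b' b) := by
        intro c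
        rw [Finset.sum_comm]
        refine Finset.sum_congr rfl fun b _ => ?_
        rw [Finset.sum_comm]
      simp_rw [e2]
      conv_rhs => rw [Finset.sum_comm]
      refine Finset.sum_congr rfl fun b hb => ?_
      conv_rhs => rw [Finset.sum_comm]
      refine Finset.sum_congr rfl fun b' hb' => ?_
      rw [Finset.sum_eq_single (cl b), Finset.sum_eq_single (cl' b')]
      · rw [if_pos rfl, if_pos rfl, h5 b hb b' hb']
        ring
      · intro c' _ hc'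
        rw [if_neg (Ne.symm hc')]
        ring
      · intro h; exact absurd (Finset.mem_univ _) h
      · intro c _ hc
        refine Finset.sum_eq_zero fun c' _ => ?_
        rw [if_neg (Ne.symm hc)]
        ring
      · intro h; exact absurd (Finset.mem_univ _) h
    obtain ⟨G, hG⟩ : ∃ G : ℝ, G = C2 * q ^ A2 * (N * M) * M ^ (-δ2) * (1 + Real.log N) ^ A2 := ⟨_, rfl⟩
    rw [← hG] at key
    have hM0' : 0 ≤ M ^ (-δ2) := (Real.rpow_pos_of_pos hM0 _).le
    have hq0 : 0 ≤ q := by linarith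
    have hG0 : 0 ≤ G := by
      rw [hG]
      have : 0 ≤ C2 := by linarith
      positivity
    have h6 : ‖∑ b ∈ B, ∑ b' ∈ B', α b * β b' * k b b'‖ ≤ q * (q * G) := by
      rw [hsum]
      calc ‖∑ c : ι, ∑ c' : ι', η c c' *
            ∑ b' ∈ B', ∑ b ∈ B, (if cl' b' = c' then β b' else 0) * (if cl b = c then α b else 0) * k' b' b‖ ≤
            ∑ c : ι, ∑ c' : ι', G := by
            refine (norm_sum_le _ _).trans (Finset.sum_le_sum fun c _ => (norm_sum_le _ _).trans (Finset.sum_le_sum fun c' _ => ?_))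
            rw [norm_mul]
            exact (mul_le_of_le_one_left (norm_nonneg _) (h4 c c')).trans (key c c')
        _ = (Fintype.card ι : ℝ) * ((Fintype.card ι' : ℝ) * G) := by
            rw [Finset.sum_const, Finset.sum_const, Finset.card_univ, Finset.card_univ, nsmul_eq_mul, nsmul_eq_mul]
        _ ≤ q * (q * G) := by
            refine mul_le_mul h2 (mul_le_mul_of_nonneg_right h3 hG0) (by positivity) hq0
    refine h6.trans ?_
    have e1 : q ^ (A2 + 2) ≤ q ^ (max A1 A2 + 2) := pow_le_pow_right₀ hq (Nat.add_le_add_right (le_max_right _ _) 2)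
    have e2 : M ^ (-δ2) ≤ z ^ (-(min δ1 δ2)) := hzδ M δ2 hzM (min_le_right _ _) hδ2
    have e3 : (1 + Real.log N) ^ A2 ≤ (1 + Real.log (M * N)) ^ (max A1 A2 + 2) :=
      (pow_le_pow_left₀ (by linarith) (by linarith) A2).trans (pow_le_pow_right₀ (by linarith) ((le_max_right A1 A2).trans (Nat.le_add_right _ 2)))
    have e6 : C2 ≤ max C1 C2 := le_max_right _ _
    have e7 : q * (q * G) = C2 * q ^ (A2 + 2) * (M * N) * M ^ (-δ2) * (1 + Real.log N) ^ A2 := by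
      rw [hG, pow_add]
      ring
    rw [e7]
    have e8 : 0 ≤ C2 := by linarith
    gcongr

theorem an2 (K : Type) [Field K] [NumberField K] (n n' A₀ : ℕ) (hn : 0 < n) (hn' : 0 < n') :
    ∃ (C : ℝ) (A : ℕ) (δ : ℝ), 1 ≤ C ∧ 0 < δ ∧ δ ≤ 1 ∧
    ∀ (L L' : Type) [Field L] [NumberField L] [Algebra K L] [Field L'] [NumberField L'] [Algebra K L'], TC L n → TC L' n' →
      ∀ (q : ℝ) (B : Finset (Finset (Pl L))) (B' : Finset (Finset (Pl L'))) (k : Finset (Pl L) → Finset (Pl L') → ℂ),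
        BD K q A₀ B B' k → ∀ (α : Finset (Pl L) → ℂ) (β : Finset (Pl L') → ℂ), (∀ b, ‖α b‖ ≤ 1) → (∀ b, ‖β b‖ ≤ 1) →
          ∀ z Y : ℝ, 1 ≤ z → 1 ≤ Y →
            ‖∑ b ∈ B, ∑ b' ∈ B', if z < nr b ∧ z < nr b' ∧ nr b * nr b' ≤ Y then α b * β b' * k b b' else 0‖ ≤
              C * q ^ A * Y * z ^ (-δ) * (1 + Real.log Y) ^ A := by
  obtain ⟨Cr, Ar, δr, hCr, hδr, hδr', hrect⟩ := an2_rect K n n' A₀ hn hn'
  obtain ⟨Cs, As, δs, hCs, hδs, hδs', hshort⟩ := fam_short K (max n n')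
  obtain ⟨c, hc, hhyp⟩ := hyp
  obtain ⟨δ, hδ⟩ : ∃ δ, δ = min δr δs := ⟨_, rfl⟩
  have hδ0 : 0 < δ := by rw [hδ]; exact lt_min hδr hδs
  have hδ1 : δ ≤ 1 := by rw [hδ]; exact (min_le_left _ _).trans hδr'
  have hδle1 : δ ≤ δr := by rw [hδ]; exact min_le_left _ _
  have hδle2 : δ ≤ δs := by rw [hδ]; exact min_le_right _ _
  refine ⟨max 1 (c * (Cr * 2 ^ Ar + Cs ^ 2)), Ar + 2 * As + 1, δ / 4, le_max_left _ _, by linarith, by linarith, ?_⟩
  intro L L' _ _ _ _ _ _ hL hL' q B B' k hBD α β hα hβ z Y hz hY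
  have hq := hBD.one
  have hq0 : 0 ≤ q := by linarith
  have hz0 : 0 < z := by linarith
  have hY0 : 0 < Y := by linarith
  have hl : 0 ≤ Real.log Y := Real.log_nonneg hY
  have hl2 : 0 ≤ Real.log (2 * Y) := Real.log_nonneg (by linarith)
  obtain ⟨P, hP⟩ : ∃ P, P = B.filter (fun b => z < nr b) := ⟨_, rfl⟩
  obtain ⟨Q, hQ⟩ : ∃ Q, Q = B'.filter (fun b => z < nr b) := ⟨_, rfl⟩
  have hPB : P ⊆ B := by rw [hP]; exact Finset.filter_subset _ _
  have hQB : Q ⊆ B' := by rw [hQ]; exact Finset.filter_subset _ _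
  have hPz : ∀ m ∈ P, z < nr m := fun m hm => by
    rw [hP, Finset.mem_filter] at hm
    exact hm.2
  have hQz : ∀ m ∈ Q, z < nr m := fun m hm => by
    rw [hQ, Finset.mem_filter] at hm
    exact hm.2
  obtain ⟨T, hT⟩ : ∃ T : Finset (Pl L) → Finset (Pl L') → ℂ, T = fun b b' =>
    if b ∈ B ∧ b' ∈ B' then α b * β b' * k b b' else 0 := ⟨_, rfl⟩
  have hTe : ∀ b ∈ B, ∀ b' ∈ B', T b b' = α b * β b' * k b b' := by
    intro b hb b' hb'
    rw [hT]
    exact if_pos ⟨hb, hb'⟩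
  obtain ⟨E, hE⟩ : ∃ E : ℝ, E = Cr * q ^ Ar * (1 + Real.log (2 * Y)) ^ Ar := ⟨_, rfl⟩
  obtain ⟨S, hS⟩ : ∃ S : ℝ, S = Cs * (1 + Real.log Y) ^ As := ⟨_, rfl⟩
  have hE0 : 0 ≤ E := by
    rw [hE]
    have : 0 ≤ Cr := by linarith
    positivity
  have hS1 : 1 ≤ S := by
    rw [hS]
    exact one_le_mul_of_one_le_of_one_le hCs (one_le_pow₀ (by linarith))
  have hshort' : ∀ (F : Type) [Field F] [NumberField F] [Algebra K F], Module.finrank K F ≤ max n n' →
      ∀ (R : Finset (Finset (Pl F))), (∀ b ∈ R, Ok K b) → ∀ x θ : ℝ, 1 ≤ x → x ≤ Y → 0 ≤ θ → θ ≤ 1 →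
      ∀ P' ⊆ R, (∀ m ∈ P', x < nr m ∧ nr m ≤ (1 + θ) * x) → (P'.card : ℝ) ≤ S * ((θ + x ^ (-δ)) ^ (3 / 4 : ℝ) * x) := by
    intro F _ _ _ hF R hR x θ hx hxY hθ hθ1 P' hP' hm
    have hx0 : 0 < x := by linarith
    have h1 := hshort F hF x θ hx hθ hθ1 P' (fun b hb => ⟨hR b (hP' hb), hm b hb⟩)
    refine h1.trans ?_
    have e0 : 0 ≤ Real.log x := Real.log_nonneg hx
    have e1 : (1 + Real.log x) ^ As ≤ (1 + Real.log Y) ^ As :=
      pow_le_pow_left₀ (by linarith) (by linarith [Real.log_le_log hx0 hxY]) _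
    have e2 : x ^ (-δs) ≤ x ^ (-δ) := Real.rpow_le_rpow_of_exponent_le hx (by linarith)
    have e3 : 0 ≤ x ^ (-δs) := (Real.rpow_pos_of_pos hx0 _).le
    have e4 : 0 ≤ θ + x ^ (-δs) := by linarith
    have e5 : (θ + x ^ (-δs)) ^ (3 / 4 : ℝ) ≤ (θ + x ^ (-δ)) ^ (3 / 4 : ℝ) :=
      Real.rpow_le_rpow e4 (by linarith) (by norm_num)
    have e6 : 0 ≤ (θ + x ^ (-δs)) ^ (3 / 4 : ℝ) := Real.rpow_nonneg e4 _
    rw [hS]
    have e7 : 0 ≤ Cs := by linarith
    gcongr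
  have hmain := hhyp (Finset (Pl L)) (Finset (Pl L')) nr nr P Q T z Y E S δ hz hY hE0 hS1 hδ0 hδ1 ?_ hPz hQz ?_ ?_ ?_ ?_
  · have hsum : (∑ b ∈ B, ∑ b' ∈ B', if z < nr b ∧ z < nr b' ∧ nr b * nr b' ≤ Y then α b * β b' * k b b' else 0) =
        ∑ m ∈ P, ∑ m' ∈ Q, if nr m * nr m' ≤ Y then T m m' else 0 := by
      rw [hP, Finset.sum_filter]
      refine Finset.sum_congr rfl fun b hb => ?_
      by_cases hzb : z < nr b
      · rw [if_pos hzb, hQ, Finset.sum_filter]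
        refine Finset.sum_congr rfl fun b' hb' => ?_
        by_cases hzb' : z < nr b'
        · rw [if_pos hzb', hTe b hb b' hb']
          by_cases h3 : nr b * nr b' ≤ Y
          · rw [if_pos h3, if_pos ⟨hzb, hzb', h3⟩]
          · rw [if_neg h3, if_neg fun h => h3 h.2.2]
        · rw [if_neg hzb', if_neg fun h => hzb' h.2.1]
      · rw [if_neg hzb]
        exact Finset.sum_eq_zero fun b' _ => if_neg fun h => hzb h.1
    rw [hsum]
    refine hmain.trans ?_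
    have e1 : 1 + Real.log (2 * Y) ≤ 2 * (1 + Real.log Y) := by
      rw [Real.log_mul (by norm_num) hY0.ne']
      have := Real.log_two_lt_d9
      linarith
    have e2 : (1 + Real.log (2 * Y)) ^ Ar ≤ 2 ^ Ar * (1 + Real.log Y) ^ Ar := by
      rw [← mul_pow]
      exact pow_le_pow_left₀ (by linarith) e1 _
    have e3 : 0 < z ^ (-(δ / 4)) := Real.rpow_pos_of_pos hz0 _
    have e4 : (1 + Real.log Y) ^ Ar ≤ (1 + Real.log Y) ^ (Ar + 2 * As) := pow_le_pow_right₀ (by linarith) (by omega)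
    have e5 : (1 + Real.log Y) ^ (2 * As) ≤ (1 + Real.log Y) ^ (Ar + 2 * As) := pow_le_pow_right₀ (by linarith) (by omega)
    have e6 : 1 ≤ q ^ Ar := one_le_pow₀ hq
    have e7 : q ^ Ar ≤ q ^ (Ar + 2 * As + 1) := pow_le_pow_right₀ hq (by omega)
    have hL0 : 0 ≤ 1 + Real.log Y := by linarith
    have hCr0 : 0 ≤ Cr := by linarith
    have hCs0 : 0 ≤ Cs := by linarith
    have e8 : E + S ^ 2 ≤ (Cr * 2 ^ Ar + Cs ^ 2) * q ^ Ar * (1 + Real.log Y) ^ (Ar + 2 * As) := by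
      have f1 : E ≤ Cr * 2 ^ Ar * q ^ Ar * (1 + Real.log Y) ^ (Ar + 2 * As) := by
        rw [hE]
        calc Cr * q ^ Ar * (1 + Real.log (2 * Y)) ^ Ar ≤ Cr * q ^ Ar * (2 ^ Ar * (1 + Real.log Y) ^ Ar) :=
              mul_le_mul_of_nonneg_left e2 (by positivity)
          _ ≤ Cr * q ^ Ar * (2 ^ Ar * (1 + Real.log Y) ^ (Ar + 2 * As)) := by gcongr
          _ = Cr * 2 ^ Ar * q ^ Ar * (1 + Real.log Y) ^ (Ar + 2 * As) := by ring
      have f2 : S ^ 2 ≤ Cs ^ 2 * q ^ Ar * (1 + Real.log Y) ^ (Ar + 2 * As) := by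
        rw [hS, mul_pow, ← pow_mul, mul_comm As 2]
        calc Cs ^ 2 * (1 + Real.log Y) ^ (2 * As) ≤ Cs ^ 2 * (1 + Real.log Y) ^ (Ar + 2 * As) := by gcongr
          _ ≤ Cs ^ 2 * (1 + Real.log Y) ^ (Ar + 2 * As) * q ^ Ar := le_mul_of_one_le_right (by positivity) e6
          _ = Cs ^ 2 * q ^ Ar * (1 + Real.log Y) ^ (Ar + 2 * As) := by ring
      calc E + S ^ 2 ≤ _ := add_le_add f1 f2
        _ = _ := by ring
    calc c * (E + S ^ 2) * Y * z ^ (-(δ / 4)) * (1 + Real.log Y) ≤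
          c * ((Cr * 2 ^ Ar + Cs ^ 2) * q ^ Ar * (1 + Real.log Y) ^ (Ar + 2 * As)) * Y * z ^ (-(δ / 4)) * (1 + Real.log Y) := by
          gcongr
      _ = (c * (Cr * 2 ^ Ar + Cs ^ 2)) * q ^ Ar * Y * z ^ (-(δ / 4)) * (1 + Real.log Y) ^ (Ar + 2 * As + 1) := by
          rw [pow_succ (1 + Real.log Y) (Ar + 2 * As)]
          ring
      _ ≤ max 1 (c * (Cr * 2 ^ Ar + Cs ^ 2)) * q ^ (Ar + 2 * As + 1) * Y * z ^ (-(δ / 4)) *
            (1 + Real.log Y) ^ (Ar + 2 * As + 1) := by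
          have g1 : c * (Cr * 2 ^ Ar + Cs ^ 2) ≤ max 1 (c * (Cr * 2 ^ Ar + Cs ^ 2)) := le_max_right _ _
          have g2 : 0 ≤ c * (Cr * 2 ^ Ar + Cs ^ 2) := by positivity
          gcongr
  · intro b b'
    rw [hT]
    show ‖(if b ∈ B ∧ b' ∈ B' then α b * β b' * k b b' else 0)‖ ≤ 1
    split_ifs with h
    · rw [norm_mul, norm_mul]
      have h1 := two_k_le hBD.hk h.1 h.2
      have h2 := hα b
      have h3 := hβ b'
      have h4 : ‖α b‖ * ‖β b'‖ ≤ 1 := mul_le_one₀ h2 (norm_nonneg _) h3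
      exact mul_le_one₀ h4 (norm_nonneg _) h1
    · rw [norm_zero]; exact zero_le_one
  · intro b' hb'
    by_cases h : nr b' < 2
    · exact Or.inl (nr_lt_two h)
    · exact Or.inr (not_lt.1 h)
  · intro P' hP' Q' hQ' M N hM hN hMN hPM hQN
    have hP'B := hP'.trans hPB
    have hQ'B := hQ'.trans hQB
    have h1 := hrect L L' hL hL' q P' Q' k (two_bd hBD hP'B hQ'B) M N z hz hM hN
      (fun b hb => ⟨hPz b (hP' hb), hPM b hb⟩) (fun b hb => ⟨hQz b (hQ' hb), hQN b hb⟩) α β hα hβ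
    have h2 : ∑ m ∈ P', ∑ m' ∈ Q', T m m' = ∑ b ∈ P', ∑ b' ∈ Q', α b * β b' * k b b' :=
      Finset.sum_congr rfl fun b hb => Finset.sum_congr rfl fun b' hb' => hTe b (hP'B hb) b' (hQ'B hb')
    rw [h2]
    refine h1.trans ?_
    have hMN1 : 1 ≤ M * N := one_le_mul_of_one_le_of_one_le hM hN
    have e0 : 0 ≤ Real.log (M * N) := Real.log_nonneg hMN1
    have e1 : (1 + Real.log (M * N)) ^ Ar ≤ (1 + Real.log (2 * Y)) ^ Ar :=
      pow_le_pow_left₀ (by linarith) (by linarith [Real.log_le_log (by linarith) hMN]) _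
    have e2 : z ^ (-δr) ≤ z ^ (-δ) := Real.rpow_le_rpow_of_exponent_le hz (by linarith)
    have e3 : 0 ≤ z ^ (-δr) := (Real.rpow_pos_of_pos hz0 _).le
    have e4 : 0 ≤ Cr := by linarith
    have e5 : 0 ≤ M * N := by linarith
    calc Cr * q ^ Ar * (M * N) * z ^ (-δr) * (1 + Real.log (M * N)) ^ Ar ≤
          Cr * q ^ Ar * (M * N) * z ^ (-δ) * (1 + Real.log (2 * Y)) ^ Ar := by gcongr
      _ = E * (M * N) * z ^ (-δ) := by rw [hE]; ring
  · exact hshort' L ((two_finrank K hL).trans (le_max_left _ _)) P fun b hb => hBD.ok b (hPB hb)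
  · exact hshort' L' ((two_finrank K hL').trans (le_max_right _ _)) Q fun b hb => hBD.ok' b (hQB hb)

end H57.AN
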