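import Pool.Agent.H57.AN.Ifa
import Pool.Agent.H57.AN.Two

/-!
# [H57 AN IFB] The interface AN2 of H51/MM/An.lean
-/

set_option autoImplicit false

open scoped NumberField ComplexConjugate
open NumberField IsDedekindDomain H63.MA H36.QA H57.TLS Filter Topology H51.MM
open scoped Classical

noncomputable section

namespace H57.AN

/-- the trivial character -/
def trc {L : Type} [Field L] [NumberField L] (𝔤 : Ideal (𝓞 L)) : RC L 𝔤 where
  χ := { toFun := fun I => if I ≠ ⊥ ∧ IsCoprime I 𝔤 then 1 else 0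
         map_zero' := by rw [if_neg]; exact fun h => h.1 rfl
         map_one' := by
           rw [if_pos]
           exact ⟨one_ne_zero, isCoprime_one_left⟩
         map_mul' := by
           intro I J
           by_cases h1 : I ≠ ⊥ ∧ IsCoprime I 𝔤
           · by_cases h2 : J ≠ ⊥ ∧ IsCoprime J 𝔤
             · rw [if_pos h1, if_pos h2, if_pos, one_mul]
               exact ⟨mul_ne_zero h1.1 h2.1, h1.2.mul_left h2.2⟩
             · rw [if_neg h2, if_neg, mul_zero]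
               rintro ⟨h3, h4⟩
               exact h2 ⟨fun h => h3 (by rw [h, Ideal.mul_bot]), h4.of_mul_left_right⟩
           · rw [if_neg h1, if_neg, zero_mul]
             rintro ⟨h3, h4⟩
             exact h1 ⟨fun h => h3 (by rw [h, Ideal.bot_mul]), h4.of_mul_left_left⟩ }
  norm_one := by
    intro I hI hc
    show ‖(if I ≠ ⊥ ∧ IsCoprime I 𝔤 then (1 : ℂ) else 0)‖ = 1
    rw [if_pos ⟨hI, hc⟩, norm_one]
  zero_of := by
    intro I hc
    show (if I ≠ ⊥ ∧ IsCoprime I 𝔤 then (1 : ℂ) else 0) = 0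
    rw [if_neg fun h => hc h.2]
  ray := by
    intro x hx hx1
    show (if Ideal.span {x} ≠ ⊥ ∧ IsCoprime (Ideal.span {x}) 𝔤 then (1 : ℂ) else 0) = 1
    rw [if_pos]
    refine ⟨fun h => hx (Ideal.span_singleton_eq_bot.1 h), ?_⟩
    rw [Ideal.isCoprime_iff_exists]
    refine ⟨x, Ideal.mem_span_singleton_self x, 1 - x, ?_, by ring⟩
    have h1 : 1 - x = -(x - 1) := by ring
    rw [h1]
    exact 𝔤.neg_mem hx1

theorem trc_apply {L : Type} [Field L] [NumberField L] (𝔤 I : Ideal (𝓞 L)) :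
    (trc 𝔤).χ I = if I ≠ ⊥ ∧ IsCoprime I 𝔤 then 1 else 0 := rfl

theorem ifb_cop {L : Type} [Field L] [NumberField L] (w : Pl L) (I : Ideal (𝓞 L)) :
    IsCoprime w.asIdeal I ↔ ¬ w.asIdeal ∣ I := by
  constructor
  · intro h h1
    have h2 := h.isUnit_of_dvd' (dvd_refl _) h1
    exact w.isPrime.ne_top (Ideal.isUnit_iff.1 h2)
  · intro h
    rw [Ideal.isCoprime_iff_sup_eq]
    by_contra h1
    have h2 := w.isMaximal.eq_of_le h1 le_sup_left
    exact h (Ideal.dvd_iff_le.2 (h2 ▸ le_sup_right))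

/-- the product of the labels over `t` -/
def gt (K L : Type) [Field K] [NumberField K] [Field L] [NumberField L] [Algebra K L] (t : Finset (Pl K)) : Ideal (𝓞 L) :=
  idl (t.biUnion fun v => (fbr K v : Finset (Pl L)))

theorem gt_dvd {K L : Type} [Field K] [NumberField K] [Field L] [NumberField L] [Algebra K L] (t : Finset (Pl K)) {w : Pl L}
    (hw : (nm w).Prime) : w.asIdeal ∣ gt K L t ↔ dn K w ∈ t := by
  unfold gt
  rw [bilA_dvd, Finset.mem_biUnion]
  constructor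
  · rintro ⟨v, hv, h⟩
    rw [(mem_fbr.1 h).1]
    exact hv
  · intro h
    exact ⟨dn K w, h, mem_fbr.2 ⟨rfl, hw⟩⟩

theorem gt_norm {K L : Type} [Field K] [NumberField K] [Field L] [NumberField L] [Algebra K L] (t : Finset (Pl K)) {d : ℕ}
    (hd : Module.finrank K L ≤ d) : (Ideal.absNorm (gt K L t) : ℝ) ≤ nr t ^ d := by
  unfold gt
  rw [idl_norm]
  unfold nr
  rw [Finset.prod_biUnion, ← Finset.prod_pow]
  · refine Finset.prod_le_prod (fun v _ => Finset.prod_nonneg fun w _ => Nat.cast_nonneg _) fun v _ => ?_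
    have h1 : ∏ w ∈ (fbr K v : Finset (Pl L)), (nm w : ℝ) = (nm v : ℝ) ^ (fbr K v : Finset (Pl L)).card := by
      rw [Finset.prod_congr rfl fun w hw => ?_, Finset.prod_const]
      have h2 := mem_fbr.1 hw
      rw [← nm_dn K h2.2, h2.1]
    rw [h1]
    exact pow_le_pow_right₀ (by exact_mod_cast (one_lt_nm v).le) ((ifa_fbr_le K v).trans hd)
  · intro v _ v' _ hne
    refine Finset.disjoint_left.2 fun w hw hw' => hne ?_
    rw [← (mem_fbr.1 hw).1, (mem_fbr.1 hw').1]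

/-- the kernel -/
def kr (K : Type) [Field K] [NumberField K] {E E' : Type} [Field E] [NumberField E] [Algebra K E] [Field E'] [NumberField E']
    [Algebra K E'] (φ' : Finset (Pl E') → Pl E → ℂ) (g : Finset (Pl E)) (h : Finset (Pl E')) : ℂ :=
  ∏ w ∈ g, if dn K w ∈ dns K h then 0 else φ' h w

theorem ifb_side (K : Type) [Field K] [NumberField K] {E E' : Type} [Field E] [NumberField E] [Algebra K E] [Field E']
    [NumberField E'] [Algebra K E'] {d : ℕ} (hd : Module.finrank K E ≤ d) {D q : ℝ} (hD : 1 ≤ D) (hq : D ≤ q)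
    (B : Finset (Pl K)) (φ' : Finset (Pl E') → Pl E → ℂ) (h1 : ∀ h w, ‖φ' h w‖ = 1)
    (h2 : ∀ h, Fme K B h → ∃ (𝔣 : Ideal (𝓞 E)) (χ : RC E 𝔣), 𝔣 ≠ ⊥ ∧ (Ideal.absNorm 𝔣 : ℝ) ≤ D * nr h ^ d ∧
        ∀ w : Pl E, blw K w ∉ B → (nm w).Prime → blw K w ∉ ud K h → χ.χ w.asIdeal = φ' h w)
    (h3 : ∀ h₁ h₂, Fme K B h₁ → Fme K B h₂ → ud K h₁ ≠ ud K h₂ → ∃ w : Pl E, blw K w ∉ B ∧ (nm w).Prime ∧
        blw K w ∉ ud K h₁ ∧ blw K w ∉ ud K h₂ ∧ φ' h₁ w ≠ φ' h₂ w) (Y : ℝ) :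
    HK K q (2 * d + 1) (FE K E B Y) (FE K E' B Y) (kr K φ') := by
  have key : ∀ h, ∃ R : Σ 𝔣 : Ideal (𝓞 E), RC E 𝔣, Fme K B h → R.1 ≠ ⊥ ∧
      (Ideal.absNorm R.1 : ℝ) ≤ (q * nr h) ^ (2 * d + 1) ∧
      ∀ w : Pl E, blw K w ∉ B → (nm w).Prime → R.2.χ w.asIdeal = if dn K w ∈ dns K h then 0 else φ' h w := by
    intro h
    by_cases hh : Fme K B h
    · obtain ⟨𝔣, χ, e1, e2, e3⟩ := h2 h hh
      have hok := ((ifa_fme B h).1 hh).1
      refine ⟨⟨𝔣 * gt K E (dns K h), prc χ (trc (gt K E (dns K h)))⟩, fun _ => ⟨?_, ?_, ?_⟩⟩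
      · exact mul_ne_zero e1 (idl_ne _)
      · show (Ideal.absNorm (𝔣 * gt K E (dns K h)) : ℝ) ≤ _
        rw [map_mul]
        push_cast
        have e4 := gt_norm (L := E) (dns K h) hd
        rw [hok.nr] at e4
        have e5 := one_le_nr h
        have e6 : (1 : ℝ) ≤ q := hD.trans hq
        calc (Ideal.absNorm 𝔣 : ℝ) * (Ideal.absNorm (gt K E (dns K h)) : ℝ) ≤ (D * nr h ^ d) * nr h ^ d :=
              mul_le_mul e2 e4 (Nat.cast_nonneg _) (by positivity)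
          _ ≤ q ^ (2 * d + 1) * nr h ^ (2 * d + 1) := by
              rw [mul_assoc, ← pow_add]
              refine mul_le_mul ?_ (pow_le_pow_right₀ e5 (by omega)) (by positivity) (by positivity)
              exact hq.trans (le_self_pow₀ e6 (by omega))
          _ = (q * nr h) ^ (2 * d + 1) := by rw [mul_pow]
      · intro w hw hp
        show (prc χ (trc (gt K E (dns K h)))).χ w.asIdeal = _
        rw [prc_apply, trc_apply]
        by_cases h5 : dn K w ∈ dns K h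
        · rw [if_pos h5, if_neg, map_zero, mul_zero]
          rintro ⟨-, h6⟩
          exact (ifb_cop w _).1 h6 ((gt_dvd _ hp).2 h5)
        · rw [if_neg h5, if_pos, map_one, mul_one]
          · exact e3 w hw hp h5
          · exact ⟨w.ne_bot, (ifb_cop w _).2 fun h6 => h5 ((gt_dvd _ hp).1 h6)⟩
    · exact ⟨⟨⊤, trc ⊤⟩, fun h => absurd h hh⟩
  choose R hR using key
  have hF : ∀ h ∈ FE K E' B Y, Fme K B h := fun h hh => (Finset.mem_filter.1 hh).2
  have hF' : ∀ h ∈ FE K E B Y, Fme K B h := fun h hh => (Finset.mem_filter.1 hh).2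
  refine ⟨fun h => (R h).1, fun h => (R h).2, ?_, ?_, ?_⟩
  · intro h hh
    obtain ⟨e1, e2, -⟩ := hR h (hF h hh)
    exact ⟨e1, e2⟩
  · intro g hg h hh
    unfold kr
    refine Finset.prod_congr rfl fun w hw => ?_
    have e1 := (hF' g hg).1 w hw
    exact ((hR h (hF h hh)).2.2 w e1.1 e1.2).symm
  · intro a ha b hb hne
    obtain ⟨w, w1, w2, w3, w4, w5⟩ := h3 a b (hF a ha) (hF b hb) hne
    have e1 := (hR a (hF a ha)).2.2 w w1 w2
    have e2 := (hR b (hF b hb)).2.2 w w1 w2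
    have w3' : dn K w ∉ dns K a := w3
    have w4' : dn K w ∉ dns K b := w4
    rw [if_neg w3'] at e1
    rw [if_neg w4'] at e2
    have e3 : (prc (R a).2 (R b).2).χ w.asIdeal = φ' a w * conj (φ' b w) := by
      rw [prc_apply, e1, e2]
    have e4 : ‖φ' a w * conj (φ' b w)‖ = 1 := by
      rw [norm_mul, RCLike.norm_conj, h1, h1, mul_one]
    refine ⟨w.asIdeal, w.ne_bot, ?_, ?_⟩
    · by_contra h6
      rw [(prc (R a).2 (R b).2).zero_of _ h6] at e3
      rw [← e3, norm_zero] at e4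
      exact zero_ne_one e4
    · rw [e3]
      intro h6
      apply w5
      have e5 : φ' b w * conj (φ' b w) = 1 := by
        rw [Complex.mul_conj, Complex.normSq_eq_norm_sq, h1]
        norm_num
      have e6 : conj (φ' b w) ≠ 0 := fun h7 => by
        rw [h7, mul_zero] at e5
        exact zero_ne_one e5
      exact mul_right_cancel₀ e6 (h6.trans e5.symm)

theorem kr_sw (K : Type) [Field K] [NumberField K] {E E' : Type} [Field E] [NumberField E] [Algebra K E] [Field E']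
    [NumberField E'] [Algebra K E'] (φ : Finset (Pl E) → Pl E' → ℂ) (φ' : Finset (Pl E') → Pl E → ℂ) (x : ℂ)
    (g : Finset (Pl E)) (h : Finset (Pl E'))
    (hx : Disjoint (dns K g) (dns K h) → ∏ w ∈ g, φ' h w = x * ∏ w' ∈ h, φ g w') :
    kr K φ' g h = x * kr K φ h g := by
  unfold kr
  by_cases hd : Disjoint (dns K g) (dns K h)
  · have e1 : ∀ w ∈ g, (if dn K w ∈ dns K h then 0 else φ' h w) = φ' h w := by
      intro w hw
      rw [if_neg (Finset.disjoint_left.1 hd (Finset.mem_image_of_mem _ hw))]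
    have e2 : ∀ w ∈ h, (if dn K w ∈ dns K g then 0 else φ g w) = φ g w := by
      intro w hw
      rw [if_neg (Finset.disjoint_right.1 hd (Finset.mem_image_of_mem _ hw))]
    rw [Finset.prod_congr rfl e1, Finset.prod_congr rfl e2, hx hd]
  · rw [Finset.not_disjoint_iff] at hd
    obtain ⟨v, h1, h2⟩ := hd
    obtain ⟨w, hw, hwv⟩ := Finset.mem_image.1 h1
    obtain ⟨w', hw', hwv'⟩ := Finset.mem_image.1 h2
    rw [Finset.prod_eq_zero hw (by rw [hwv, if_pos h2]), Finset.prod_eq_zero hw' (by rw [hwv', if_pos h1]), mul_zero]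

theorem i2 (K : Type) [Field K] [NumberField K] (d : ℕ) : AN2 K d := by
  have h : ∀ n : ℕ × ℕ, ∃ (C : ℝ) (A : ℕ) (δ : ℝ), 1 ≤ C ∧ 0 < δ ∧ δ ≤ 1 ∧ (0 < n.1 → 0 < n.2 →
      ∀ (L L' : Type) [Field L] [NumberField L] [Algebra K L] [Field L'] [NumberField L'] [Algebra K L'],
        TC L n.1 → TC L' n.2 →
      ∀ (q : ℝ) (B : Finset (Finset (Pl L))) (B' : Finset (Finset (Pl L'))) (k : Finset (Pl L) → Finset (Pl L') → ℂ),
        BD K q (2 * d + 1) B B' k → ∀ (α : Finset (Pl L) → ℂ) (β : Finset (Pl L') → ℂ), (∀ b, ‖α b‖ ≤ 1) →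
          (∀ b, ‖β b‖ ≤ 1) → ∀ z Y : ℝ, 1 ≤ z → 1 ≤ Y →
            ‖∑ b ∈ B, ∑ b' ∈ B', if z < nr b ∧ z < nr b' ∧ nr b * nr b' ≤ Y then α b * β b' * k b b' else 0‖ ≤
              C * q ^ A * Y * z ^ (-δ) * (1 + Real.log Y) ^ A) := by
    intro n
    by_cases hn : 0 < n.1 ∧ 0 < n.2
    · obtain ⟨C, A, δ, h1, h2, h3, h4⟩ := an2 K n.1 n.2 (2 * d + 1) hn.1 hn.2
      exact ⟨C, A, δ, h1, h2, h3, fun _ _ => h4⟩
    · exact ⟨1, 0, 1, le_rfl, one_pos, le_rfl, fun h1 h2 => absurd ⟨h1, h2⟩ hn⟩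
  choose C A δ hC hδ hδ1 hP using h
  obtain ⟨S, hS⟩ : ∃ S : Finset ℕ, S = Finset.range (d * Module.finrank ℚ K + 1) := ⟨_, rfl⟩
  obtain ⟨hc, hpos⟩ := ifa_cmb (S ×ˢ S) C A δ hC hδ hδ1
  have h0 : (0, 0) ∈ S ×ˢ S := by
    rw [hS]
    exact Finset.mem_product.2 ⟨Finset.mem_range.2 (Nat.succ_pos _), Finset.mem_range.2 (Nat.succ_pos _)⟩
  have hC0 : 1 ≤ ∑ n ∈ S ×ˢ S, C n := (hC _).trans (hc _ h0).1
  obtain ⟨C', hC'⟩ : ∃ C' : ℝ, C' = ∑ n ∈ S ×ˢ S, C n := ⟨_, rfl⟩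
  obtain ⟨A', hA'⟩ : ∃ A' : ℕ, A' = ∑ n ∈ S ×ˢ S, A n := ⟨_, rfl⟩
  obtain ⟨δ', hδ'⟩ : ∃ δ' : ℝ, δ' = ∏ n ∈ S ×ˢ S, δ n := ⟨_, rfl⟩
  rw [← hC', ← hA', ← hδ'] at hc
  rw [← hδ'] at hpos
  rw [← hC'] at hC0
  refine ⟨C', A', min δ' (1 / 4), hC0, lt_min hpos (by norm_num), min_le_right _ _, ?_⟩
  intro E E' _ _ _ _ _ _ hE hE' hd hd' D Q hD hQ hdE hdE' B T _ hT t t' Ξ φ φ' hΞ hφ hφ' hs hsp hs' hsp' hx α β hα hβ z Y hz hY
  obtain ⟨m1, m2⟩ := ifa_deg K E hd
  obtain ⟨m3, m4⟩ := ifa_deg K E' hd'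
  rw [← hS] at m1 m3
  obtain ⟨c1, c2, c3⟩ := hc (Module.finrank ℚ E, Module.finrank ℚ E') (Finset.mem_product.2 ⟨m1, m3⟩)
  have hDq : D ≤ Q * D := le_mul_of_one_le_left (by linarith) hQ
  have hQq : Q ≤ Q * D := le_mul_of_one_le_right (by linarith) hD
  have hF : ∀ h ∈ FE K E' B Y, Fme K B h := fun h hh => (Finset.mem_filter.1 hh).2
  have hF' : ∀ h ∈ FE K E B Y, Fme K B h := fun h hh => (Finset.mem_filter.1 hh).2
  have hbd : BD K (Q * D) (2 * d + 1) (FE K E B Y) (FE K E' B Y) (kr K φ') :=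
    { one := hQ.trans hQq
      dL := hdE.trans hDq
      dL' := hdE'.trans hDq
      ok := fun b hb => ((ifa_fme B b).1 (hF' b hb)).1
      ok' := fun b hb => ((ifa_fme B b).1 (hF b hb)).1
      hk := ifb_side K hd hD hDq B φ' hφ' hs' hsp' Y
      sw := ⟨kr K φ, ifb_side K hd' hD hDq B φ hφ hs hsp Y, T, T, inferInstance, inferInstance, t, t', Ξ,
        hT.trans hQq, hT.trans hQq, hΞ, fun g hg h hh =>
          kr_sw K φ φ' _ g h fun hdis => hx g h (hF' g hg) (hF h hh) hdis⟩ }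
  have h5 := hP (Module.finrank ℚ E, Module.finrank ℚ E') m2 m4 E E' ⟨hE, rfl⟩ ⟨hE', rfl⟩ (Q * D) _ _ _ hbd α β hα hβ z Y hz hY
  have h6 : (∑ g ∈ FE K E B Y, ∑ h ∈ FE K E' B Y,
      if z < nr g ∧ z < nr h ∧ nr g * nr h ≤ Y ∧ Disjoint (ud K g) (ud K h) then
        α g * β h * ∏ w ∈ g, φ' h w else 0) =
      ∑ b ∈ FE K E B Y, ∑ b' ∈ FE K E' B Y,
        if z < nr b ∧ z < nr b' ∧ nr b * nr b' ≤ Y then α b * β b' * kr K φ' b b' else 0 := by
    refine Finset.sum_congr rfl fun g _ => Finset.sum_congr rfl fun h _ => ?_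
    by_cases e1 : z < nr g ∧ z < nr h ∧ nr g * nr h ≤ Y
    · rw [if_pos e1]
      by_cases e2 : Disjoint (ud K g) (ud K h)
      · rw [if_pos ⟨e1.1, e1.2.1, e1.2.2, e2⟩]
        congr 1
        unfold kr
        refine Finset.prod_congr rfl fun w hw => ?_
        rw [if_neg]
        exact Finset.disjoint_left.1 e2 (Finset.mem_image_of_mem _ hw)
      · rw [if_neg fun h => e2 h.2.2.2]
        rw [Finset.not_disjoint_iff] at e2
        obtain ⟨v, v1, v2⟩ := e2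
        obtain ⟨w, hw, hwv⟩ := Finset.mem_image.1 v1
        unfold kr
        rw [Finset.prod_eq_zero hw, mul_zero]
        rw [if_pos]
        have : dn K w = v := hwv
        rw [this]
        exact v2
    · rw [if_neg e1, if_neg fun h => e1 ⟨h.1, h.2.1, h.2.2.1⟩]
  rw [h6]
  refine h5.trans ?_
  have hq1 : 1 ≤ Q * D := hQ.trans hQq
  have hl : 0 ≤ Real.log Y := Real.log_nonneg hY
  have hCn := hC (Module.finrank ℚ E, Module.finrank ℚ E')
  refine mul_le_mul (mul_le_mul (mul_le_mul_of_nonneg_right (mul_le_mul c1 (pow_le_pow_right₀ hq1 c2) (by positivity)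
    (by linarith)) (by linarith)) ?_ (Real.rpow_nonneg (by linarith) _) (by positivity))
    (pow_le_pow_right₀ (by linarith) c2) (by positivity) ?_
  · exact Real.rpow_le_rpow_of_exponent_le hz (by have := min_le_left δ' (1 / 4); linarith)
  · exact mul_nonneg (by positivity) (Real.rpow_nonneg (by linarith) _)

end H57.AN
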