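import Pool.Agent.H57.AN.Ls
import Pool.Agent.H57.AN.Fam
import Pool.Agent.H63.MA.ABilA

/-!
# [H57 AN BK] Bilinear sums over rectangles, the shorter variable gives the characters (200 lines)

Let `(C₁, A₁, δ₁)` from `ls n A₀`, `s` a natural number with `s δ₁ ≥ A₁ + 1`, `s ≥ 1`. `T b' = ∑_{b ∈ B} α b * k b b'`, `T₀` = the image of `B'` under
`dns K`; for `t ∈ T₀` choose `r t ∈ B'` with `dns K (r t) = t` and `‖T (r t)‖` maximal.
`bk_pow`: `∑_{t ∈ T₀} ‖T (r t)‖^(2 s) ≤ C q^A X^(2 s) (1 + log X)^A`: `T(b')^s = ∑_{I ∈ IN L (X^s)} bilAb s B α I * χ_{b'} I` (`bilA_pow` for the field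
`L` with `ψ = (χ b').χ`; `k b b' = χ_{b'}(idl b)` by `map_prod`), `ls` with `J = Finset (Pl K)`, `M = T₀`, `χ (r t)`, `y = X^s`; `‖bilAb s B α I‖ ≤ tau s I`
(`bilA_b_le`; for `I ∈ IN`), `tau_u n hn s`; `#T₀ ≤ C X'` (`af_card K`, `Ok.nr`), `X' (q X')^A₁ X^(s (1-δ₁)) ≤ q^A₁ X^s` because `X' ≤ X`.
`bk`: `‖∑∑‖ ≤ ∑_{b' ∈ B'} ‖T b'‖ ≤ ∑_{t ∈ T₀} m^#t ‖T (r t)‖` (`fam_card`), with `a_t = max 1 m ^ #t`, `k = 2 s`:
`(∑ a_t x_t)^k ≤ (∑ a_t^2)^(k-1) ∑ a_t^2 (x_t / a_t)^k ≤ (∑ a_t^2)^(k-1) ∑ x_t^k` (power mean with weights `a_t^2`: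
`inner_le_nnorm_mul_nnorm` / `Real.pow_arith_mean_le_arith_mean_pow`), `∑ a_t^2 ≤ C X' (1 + log X')^A` (`af_pow K`). Take the root: `δ = 1 / (2 s)`.
-/

set_option autoImplicit false

open scoped NumberField
open NumberField IsDedekindDomain H63.MA H36.QA H57.TLS
open scoped Classical

noncomputable section

namespace H57.AN

theorem bk_holder {ι : Type} (S : Finset ι) (a x : ι → ℝ) (ha : ∀ t ∈ S, 1 ≤ a t) (hx : ∀ t ∈ S, 0 ≤ x t)
    (k : ℕ) (hk : 2 ≤ k) : (∑ t ∈ S, a t * x t) ^ k ≤ (∑ t ∈ S, a t ^ 2) ^ (k - 1) * ∑ t ∈ S, x t ^ k := by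
  rcases S.eq_empty_or_nonempty with hS | hS
  · rw [hS, Finset.sum_empty, Finset.sum_empty, Finset.sum_empty, mul_zero, zero_pow (by omega)]
  obtain ⟨W, hW⟩ : ∃ W : ℝ, W = ∑ t ∈ S, a t ^ 2 := ⟨_, rfl⟩
  have hW0 : 0 < W := by
    rw [hW]
    exact Finset.sum_pos (fun t ht => by have := ha t ht; positivity) hS
  rw [← hW]
  have h1 := Real.pow_arith_mean_le_arith_mean_pow S (fun t => a t ^ 2 / W) (fun t => x t / a t)
    (fun t _ => by positivity) (by rw [← Finset.sum_div, ← hW, div_self hW0.ne'])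
    (fun t ht => div_nonneg (hx t ht) (by have := ha t ht; linarith)) k
  have h2 : ∑ t ∈ S, a t ^ 2 / W * (x t / a t) = (∑ t ∈ S, a t * x t) / W := by
    rw [Finset.sum_div]
    refine Finset.sum_congr rfl fun t ht => ?_
    have h3 : a t ≠ 0 := by have := ha t ht; positivity
    field_simp
  have h3 : ∑ t ∈ S, a t ^ 2 / W * (x t / a t) ^ k ≤ (∑ t ∈ S, x t ^ k) / W := by
    rw [Finset.sum_div]
    refine Finset.sum_le_sum fun t ht => ?_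
    have h4 := ha t ht
    have h5 : (0 : ℝ) < a t := by linarith
    have h6 : a t ^ 2 ≤ a t ^ k := pow_le_pow_right₀ h4 hk
    have h7 : 0 ≤ x t ^ k := pow_nonneg (hx t ht) k
    rw [div_pow, div_mul_div_comm]
    rw [div_le_div_iff₀ (by positivity) hW0]
    calc a t ^ 2 * x t ^ k * W ≤ a t ^ k * x t ^ k * W := by gcongr
      _ = x t ^ k * (W * a t ^ k) := by ring
  rw [h2, div_pow] at h1
  have h4 := h1.trans h3
  rw [div_le_div_iff₀ (by positivity) hW0] at h4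
  have h5 : W ^ k = W ^ (k - 1) * W := by
    rw [← pow_succ]
    congr 1
    omega
  rw [h5] at h4
  have h6 : (∑ t ∈ S, a t * x t) ^ k * W ≤ (W ^ (k - 1) * ∑ t ∈ S, x t ^ k) * W := by
    calc _ ≤ _ := h4
      _ = _ := by ring
  exact le_of_mul_le_mul_right h6 hW0

theorem bk_log {X : ℝ} (hX : 1 ≤ X) (s : ℕ) : 1 + Real.log (X ^ s) ≤ ((s : ℝ) + 1) * (1 + Real.log X) := by
  rw [Real.log_pow]
  have h1 : 0 ≤ Real.log X := Real.log_nonneg hX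
  have h2 : (0 : ℝ) ≤ s := Nat.cast_nonneg s
  nlinarith

theorem bk_rp {X X' δ : ℝ} {s A : ℕ} (hX' : 1 ≤ X') (hX : X' ≤ X) (hs : (A : ℝ) + 1 ≤ s * δ) :
    X' * X' ^ A * (X ^ s) ^ (1 - δ) ≤ X ^ s := by
  have hX1 : 1 ≤ X := hX'.trans hX
  have hX0 : 0 < X := by linarith
  have hy0 : 0 < X ^ s := by positivity
  have h1 : (X ^ s) ^ δ * (X ^ s) ^ (1 - δ) = X ^ s := by
    rw [← Real.rpow_add hy0]
    norm_num
  have h2 : X' * X' ^ A ≤ (X ^ s) ^ δ := by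
    calc X' * X' ^ A = X' ^ (A + 1) := by rw [pow_succ]; ring
      _ ≤ X ^ (A + 1) := pow_le_pow_left₀ (by linarith) hX _
      _ = X ^ ((A : ℝ) + 1) := by
          rw [← Real.rpow_natCast]
          push_cast
          rfl
      _ ≤ X ^ ((s : ℝ) * δ) := Real.rpow_le_rpow_of_exponent_le hX1 hs
      _ = (X ^ s) ^ δ := by rw [← Real.rpow_natCast, ← Real.rpow_mul hX0.le]
  calc X' * X' ^ A * (X ^ s) ^ (1 - δ) ≤ (X ^ s) ^ δ * (X ^ s) ^ (1 - δ) :=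
        mul_le_mul_of_nonneg_right h2 (by positivity)
    _ = X ^ s := h1

theorem bk (K : Type) [Field K] [NumberField K] (n m A₀ : ℕ) (hn : 0 < n) : ∃ (C : ℝ) (A : ℕ) (δ : ℝ), 1 ≤ C ∧ 0 < δ ∧ δ ≤ 1 ∧
    ∀ (L L' : Type) [Field L] [NumberField L] [Field L'] [NumberField L'] [Algebra K L'], TC L n →
      Module.finrank K L' ≤ m → ∀ q : ℝ, 1 ≤ q → dd L ≤ q →
      ∀ (B : Finset (Finset (Pl L))) (B' : Finset (Finset (Pl L'))) (k : Finset (Pl L) → Finset (Pl L') → ℂ),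
        HK K q A₀ B B' k → ∀ X X' : ℝ, 1 ≤ X' → X' ≤ X → (∀ b ∈ B, nr b ≤ X) → (∀ b' ∈ B', Ok K b' ∧ nr b' ≤ X') →
          ∀ (α : Finset (Pl L) → ℂ) (β : Finset (Pl L') → ℂ), (∀ b, ‖α b‖ ≤ 1) → (∀ b, ‖β b‖ ≤ 1) →
            ‖∑ b ∈ B, ∑ b' ∈ B', α b * β b' * k b b'‖ ≤
              C * q ^ A * (X * X') * X' ^ (-δ) * (1 + Real.log X) ^ A := by
  obtain ⟨C1, A1, δ1, hC1, hδ1, hδ14, hls⟩ := ls n A₀ hn
  obtain ⟨Ca, hCa, haf⟩ := af_card K
  obtain ⟨s0, hs0⟩ := exists_nat_ge (((A1 : ℝ) + 1) / δ1)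
  obtain ⟨s, hs⟩ : ∃ s : ℕ, s = s0 + 1 := ⟨_, rfl⟩
  have hs1 : 1 ≤ s := by omega
  have hsδ : (A1 : ℝ) + 1 ≤ s * δ1 := by
    rw [div_le_iff₀ hδ1] at hs0
    rw [hs]
    push_cast
    nlinarith
  obtain ⟨C2, A2, hC2, htau⟩ := tau_u n hn s
  obtain ⟨C3, A3, hC3, hA3, hpow⟩ := af_pow K ((max 1 m) ^ 2)
  obtain ⟨A3', hA3'⟩ : ∃ A3' : ℕ, A3' = ⌈A3⌉₊ := ⟨_, rfl⟩
  obtain ⟨C4, hC4⟩ : ∃ C4 : ℝ, C4 = C1 * (1 + Ca) * C2 * ((s : ℝ) + 1) ^ (n + A2) := ⟨_, rfl⟩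
  have hs1R : (1 : ℝ) ≤ (s : ℝ) + 1 := by
    have : (0 : ℝ) ≤ s := Nat.cast_nonneg s
    linarith
  have hC41 : 1 ≤ C4 := by
    rw [hC4]
    have e1 : 1 ≤ C1 * (1 + Ca) := one_le_mul_of_one_le_of_one_le hC1 (by linarith)
    have e2 : 1 ≤ C1 * (1 + Ca) * C2 := one_le_mul_of_one_le_of_one_le e1 hC2
    exact one_le_mul_of_one_le_of_one_le e2 (one_le_pow₀ hs1R)
  have hs0R : (0 : ℝ) < 2 * (s : ℝ) := by
    have : (1 : ℝ) ≤ s := by exact_mod_cast hs1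
    linarith
  refine ⟨C3 + C4, A1 + n + A2 + A3', 1 / (2 * (s : ℝ)), by linarith, by positivity, ?_, ?_⟩
  · rw [div_le_one hs0R]
    have : (1 : ℝ) ≤ s := by exact_mod_cast hs1
    linarith
  intro L L' _ _ _ _ _ hL hfin q hq hdd B B' k hHK X X' hX' hXX' hB hB' α β hα hβ
  obtain ⟨𝔣, χ, hf, hk, hnon⟩ := hHK
  have hX1 : 1 ≤ X := hX'.trans hXX'
  have hX0 : 0 < X := by linarith
  have hX'0 : 0 < X' := by linarith
  have hlogX : 0 ≤ Real.log X := Real.log_nonneg hX1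
  obtain ⟨Lg, hLg⟩ : ∃ Lg : ℝ, Lg = 1 + Real.log X := ⟨_, rfl⟩
  have hLg1 : 1 ≤ Lg := by rw [hLg]; linarith
  obtain ⟨T, hT⟩ : ∃ T : Finset (Pl L') → ℂ, T = fun b' => ∑ b ∈ B, α b * k b b' := ⟨_, rfl⟩
  obtain ⟨T₀, hT₀⟩ : ∃ T₀ : Finset (Finset (Pl K)), T₀ = B'.image (dns K) := ⟨_, rfl⟩
  have hr : ∀ t : Finset (Pl K), ∃ r : Finset (Pl L'), t ∈ T₀ → r ∈ B' ∧ dns K r = t ∧
      ∀ b' ∈ B', dns K b' = t → ‖T b'‖ ≤ ‖T r‖ := by
    intro t
    by_cases ht : t ∈ T₀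
    · rw [hT₀, Finset.mem_image] at ht
      obtain ⟨b0, hb0, hb0t⟩ := ht
      obtain ⟨r, hr1, hr2⟩ := Finset.exists_max_image (B'.filter fun b' => dns K b' = t) (fun b' => ‖T b'‖)
        ⟨b0, Finset.mem_filter.2 ⟨hb0, hb0t⟩⟩
      refine ⟨r, fun _ => ⟨(Finset.mem_filter.1 hr1).1, (Finset.mem_filter.1 hr1).2, fun b' hb' hbt => ?_⟩⟩
      exact hr2 b' (Finset.mem_filter.2 ⟨hb', hbt⟩)
    · exact ⟨∅, fun h => absurd h ht⟩
  choose r hr using hr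
  have hT₀sub : T₀ ⊆ AF K X' := by
    intro t ht
    obtain ⟨h1, h2, -⟩ := hr t ht
    rw [mem_AF, ← h2, (hB' _ h1).1.nr]
    exact (hB' _ h1).2
  -- the powers
  have hTs : ∀ b' ∈ B', (T b') ^ s = ∑ I ∈ IN L (X ^ s), bilAb s B α I * (χ b').χ I := by
    intro b' hb'
    have h1 : T b' = ∑ b ∈ B, α b * (χ b').χ (idl b) := by
      rw [hT]
      refine Finset.sum_congr rfl fun b hb => ?_
      rw [hk b hb b' hb', idl, map_prod]
    rw [h1]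
    exact bilA_pow s B α (χ b').χ (map_one _) (fun I J => map_mul _ I J) X hB hX0.le
  have hys : 1 ≤ X ^ s := one_le_pow₀ hX1
  have hbkpow : ∑ t ∈ T₀, ‖T (r t)‖ ^ (2 * s) ≤ C4 * q ^ A1 * X ^ (2 * s) * Lg ^ (n + A2) := by
    have h1 := hls L hL q X' hq hX' hdd (Finset (Pl K)) T₀ (fun t => 𝔣 (r t)) (fun t => χ (r t))
      (fun t ht => by
        obtain ⟨h2, h3, -⟩ := hr t ht
        refine ⟨(hf _ h2).1, (hf _ h2).2.trans ?_⟩
        have h4 : 0 ≤ nr (r t) := by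
          have := one_le_nr (r t)
          linarith
        refine pow_le_pow_left₀ (by positivity) ?_ _
        exact mul_le_mul_of_nonneg_left (hB' _ h2).2 (by linarith))
      (fun t ht t' ht' htt => by
        obtain ⟨h2, h3, -⟩ := hr t ht
        obtain ⟨h2', h3', -⟩ := hr t' ht'
        refine hnon _ h2 _ h2' ?_
        rw [h3, h3']
        exact htt) (X ^ s) hys (bilAb s B α)
    have h2 : ∑ t ∈ T₀, ‖T (r t)‖ ^ (2 * s) =
        ∑ t ∈ T₀, ‖∑ I ∈ IN L (X ^ s), bilAb s B α I * (χ (r t)).χ I‖ ^ 2 := by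
      refine Finset.sum_congr rfl fun t ht => ?_
      rw [← hTs _ (hr t ht).1, norm_pow, ← pow_mul, mul_comm s 2]
    rw [h2]
    refine h1.trans ?_
    have h3 : ∑ I ∈ IN L (X ^ s), ‖bilAb s B α I‖ ^ 2 ≤ C2 * X ^ s * (((s : ℝ) + 1) * Lg) ^ A2 := by
      refine (Finset.sum_le_sum fun I hI => pow_le_pow_left₀ (norm_nonneg _)
        (bilA_b_le s B α hα ((mem_IN (by positivity)).1 hI).2) 2).trans ((htau L hL.2 (X ^ s) hys).trans ?_)
      refine mul_le_mul_of_nonneg_left ?_ (by positivity)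
      refine pow_le_pow_left₀ ?_ ?_ _
      · have := Real.log_nonneg hys
        linarith
      · rw [hLg]
        exact bk_log hX1 s
    have h4 : X ^ s * (1 + Real.log (X ^ s)) ^ n + T₀.card * ((q * X') ^ A1 * (X ^ s) ^ (1 - δ1)) ≤
        (1 + Ca) * (q ^ A1 * X ^ s * (((s : ℝ) + 1) * Lg) ^ n) := by
      have e1 : X ^ s * (1 + Real.log (X ^ s)) ^ n ≤ q ^ A1 * X ^ s * (((s : ℝ) + 1) * Lg) ^ n := by
        have e2 : (1 + Real.log (X ^ s)) ^ n ≤ (((s : ℝ) + 1) * Lg) ^ n := by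
          refine pow_le_pow_left₀ ?_ ?_ _
          · have := Real.log_nonneg hys
            linarith
          · rw [hLg]
            exact bk_log hX1 s
        have e3 : X ^ s ≤ q ^ A1 * X ^ s := le_mul_of_one_le_left (by positivity) (one_le_pow₀ hq)
        exact mul_le_mul e3 e2 (pow_nonneg (by have := Real.log_nonneg hys; linarith) _) (by positivity)
      have e4 : (T₀.card : ℝ) ≤ Ca * X' := by
        have e5 : (T₀.card : ℝ) ≤ ((AF K X').card : ℝ) := by exact_mod_cast Finset.card_le_card hT₀sub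
        exact e5.trans (haf X' hX')
      have e6 : (T₀.card : ℝ) * ((q * X') ^ A1 * (X ^ s) ^ (1 - δ1)) ≤ Ca * (q ^ A1 * X ^ s) := by
        calc (T₀.card : ℝ) * ((q * X') ^ A1 * (X ^ s) ^ (1 - δ1)) ≤
              (Ca * X') * ((q * X') ^ A1 * (X ^ s) ^ (1 - δ1)) := mul_le_mul_of_nonneg_right e4 (by positivity)
          _ = Ca * q ^ A1 * (X' * X' ^ A1 * (X ^ s) ^ (1 - δ1)) := by rw [mul_pow]; ring
          _ ≤ Ca * q ^ A1 * X ^ s := mul_le_mul_of_nonneg_left (bk_rp hX' hXX' hsδ) (by positivity)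
          _ = Ca * (q ^ A1 * X ^ s) := by ring
      have e7 : Ca * (q ^ A1 * X ^ s) ≤ Ca * (q ^ A1 * X ^ s * (((s : ℝ) + 1) * Lg) ^ n) := by
        refine mul_le_mul_of_nonneg_left ?_ hCa.le
        exact le_mul_of_one_le_right (by positivity)
          (one_le_pow₀ (one_le_mul_of_one_le_of_one_le hs1R hLg1))
      linarith
    calc C1 * (X ^ s * (1 + Real.log (X ^ s)) ^ n + T₀.card * ((q * X') ^ A1 * (X ^ s) ^ (1 - δ1))) *
          ∑ I ∈ IN L (X ^ s), ‖bilAb s B α I‖ ^ 2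
        ≤ C1 * ((1 + Ca) * (q ^ A1 * X ^ s * (((s : ℝ) + 1) * Lg) ^ n)) *
          (C2 * X ^ s * (((s : ℝ) + 1) * Lg) ^ A2) := by
          refine mul_le_mul (mul_le_mul_of_nonneg_left h4 (by linarith)) h3
            (Finset.sum_nonneg fun _ _ => by positivity) (by positivity)
      _ = C4 * q ^ A1 * X ^ (2 * s) * Lg ^ (n + A2) := by
          rw [hC4, two_mul, pow_add, pow_add, pow_add, mul_pow, mul_pow]
          ring
  -- the sum
  obtain ⟨S, hS⟩ : ∃ S : ℝ, S = ‖∑ b ∈ B, ∑ b' ∈ B', α b * β b' * k b b'‖ := ⟨_, rfl⟩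
  have hS1 : S ≤ ∑ t ∈ T₀, ((max 1 m : ℕ) : ℝ) ^ t.card * ‖T (r t)‖ := by
    have h1 : ∑ b ∈ B, ∑ b' ∈ B', α b * β b' * k b b' = ∑ b' ∈ B', β b' * T b' := by
      rw [Finset.sum_comm]
      refine Finset.sum_congr rfl fun b' _ => ?_
      rw [hT, Finset.mul_sum]
      refine Finset.sum_congr rfl fun b _ => ?_
      ring
    rw [hS, h1]
    refine (norm_sum_le _ _).trans ?_
    have h2 : ∀ b' ∈ B', ‖β b' * T b'‖ ≤ ‖T b'‖ := by
      intro b' _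
      rw [norm_mul]
      exact mul_le_of_le_one_left (norm_nonneg _) (hβ b')
    refine (Finset.sum_le_sum h2).trans ?_
    rw [← Finset.sum_fiberwise_of_maps_to (s := B') (t := T₀) (g := dns K)
      (fun b' hb' => by rw [hT₀]; exact Finset.mem_image_of_mem _ hb')]
    refine Finset.sum_le_sum fun t ht => ?_
    obtain ⟨h3, h4, h5⟩ := hr t ht
    have h6 : ∀ b' ∈ B'.filter (fun b' => dns K b' = t), ‖T b'‖ ≤ ‖T (r t)‖ := fun b' hb' =>
      h5 b' (Finset.mem_filter.1 hb').1 (Finset.mem_filter.1 hb').2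
    refine (Finset.sum_le_card_nsmul _ _ _ h6).trans ?_
    rw [nsmul_eq_mul]
    refine mul_le_mul_of_nonneg_right ?_ (norm_nonneg _)
    have h7 := fam_card K hfin t (B'.filter fun b' => dns K b' = t) (fun b' hb' =>
      ⟨(hB' b' (Finset.mem_filter.1 hb').1).1, (Finset.mem_filter.1 hb').2⟩)
    have h8 : m ^ t.card ≤ (max 1 m) ^ t.card := Nat.pow_le_pow_left (le_max_right 1 m) _
    exact_mod_cast h7.trans h8
  have hm1 : (1 : ℝ) ≤ ((max 1 m : ℕ) : ℝ) := by exact_mod_cast le_max_left 1 m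
  have hsq : ∑ t ∈ T₀, (((max 1 m : ℕ) : ℝ) ^ t.card) ^ 2 ≤ C3 * X' * Lg ^ A3' := by
    have h1 : ∑ t ∈ T₀, (((max 1 m : ℕ) : ℝ) ^ t.card) ^ 2 ≤ ∑ t ∈ AF K X', (((max 1 m) ^ 2 : ℕ) : ℝ) ^ t.card := by
      refine (Finset.sum_le_sum_of_subset_of_nonneg hT₀sub fun _ _ _ => by positivity).trans (le_of_eq ?_)
      refine Finset.sum_congr rfl fun t _ => ?_
      push_cast
      rw [← pow_mul, ← pow_mul, mul_comm]
    refine (h1.trans (hpow X' hX').1).trans ?_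
    refine mul_le_mul_of_nonneg_left ?_ (by positivity)
    have hlogX' : 0 ≤ Real.log X' := Real.log_nonneg hX'
    calc (1 + Real.log X') ^ A3 ≤ (1 + Real.log X') ^ ((A3' : ℕ) : ℝ) := by
          refine Real.rpow_le_rpow_of_exponent_le (by linarith) ?_
          rw [hA3']
          exact Nat.le_ceil A3
      _ = (1 + Real.log X') ^ A3' := Real.rpow_natCast _ _
      _ ≤ Lg ^ A3' := by
          refine pow_le_pow_left₀ (by linarith) ?_ _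
          rw [hLg]
          linarith [Real.log_le_log hX'0 hXX']
  have hS0 : 0 ≤ S := by rw [hS]; positivity
  have hSk : S ^ (2 * s) ≤ (C3 * X' * Lg ^ A3') ^ (2 * s - 1) * (C4 * q ^ A1 * X ^ (2 * s) * Lg ^ (n + A2)) := by
    calc S ^ (2 * s) ≤ (∑ t ∈ T₀, ((max 1 m : ℕ) : ℝ) ^ t.card * ‖T (r t)‖) ^ (2 * s) :=
          pow_le_pow_left₀ hS0 hS1 _
      _ ≤ (∑ t ∈ T₀, (((max 1 m : ℕ) : ℝ) ^ t.card) ^ 2) ^ (2 * s - 1) * ∑ t ∈ T₀, ‖T (r t)‖ ^ (2 * s) :=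
          bk_holder T₀ _ _ (fun t _ => one_le_pow₀ hm1) (fun t _ => norm_nonneg _) _ (by omega)
      _ ≤ _ := by
          refine mul_le_mul (pow_le_pow_left₀ (Finset.sum_nonneg fun _ _ => by positivity) hsq _) hbkpow
            (Finset.sum_nonneg fun _ _ => by positivity) (by positivity)
  rw [← hS, ← hLg]
  refine le_of_pow_le_pow_left₀ (by omega : 2 * s ≠ 0) (by positivity) (hSk.trans ?_)
  have hC : C3 ≤ C3 + C4 := by linarith
  have hC' : C4 ≤ C3 + C4 := by linarith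
  have g1 : (X' ^ (-(1 / (2 * (s : ℝ))))) ^ (2 * s) = X'⁻¹ := by
    rw [← Real.rpow_natCast, ← Real.rpow_mul hX'0.le]
    push_cast
    rw [neg_mul, one_div, inv_mul_cancel₀ hs0R.ne', Real.rpow_neg hX'0.le, Real.rpow_one]
  obtain ⟨k2, hk2⟩ : ∃ k2 : ℕ, 2 * s = k2 + 1 := ⟨2 * s - 1, by omega⟩
  have g2 : ((C3 + C4) * q ^ (A1 + n + A2 + A3') * (X * X') * X' ^ (-(1 / (2 * (s : ℝ)))) *
      Lg ^ (A1 + n + A2 + A3')) ^ (2 * s) =
      ((C3 + C4) ^ k2 * (C3 + C4)) * (q ^ (A1 + n + A2 + A3')) ^ (2 * s) * X ^ (2 * s) * X' ^ k2 *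
        (Lg ^ (A1 + n + A2 + A3')) ^ (2 * s) := by
    rw [mul_pow, mul_pow _ (X' ^ (-(1 / (2 * (s : ℝ))))), g1, mul_pow, mul_pow, mul_pow, hk2, pow_succ X' k2,
      pow_succ (C3 + C4) k2]
    field_simp
  rw [g2]
  have hk3 : 2 * s - 1 = k2 := by omega
  rw [hk3]
  have g3 : (C3 * X' * Lg ^ A3') ^ k2 * (C4 * q ^ A1 * X ^ (2 * s) * Lg ^ (n + A2)) =
      (C3 ^ k2 * C4) * q ^ A1 * X ^ (2 * s) * X' ^ k2 * Lg ^ (A3' * k2 + (n + A2)) := by
    rw [mul_pow, mul_pow, ← pow_mul, pow_add]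
    ring
  rw [g3, ← pow_mul, ← pow_mul]
  have g4 : C3 ^ k2 * C4 ≤ (C3 + C4) ^ k2 * (C3 + C4) :=
    mul_le_mul (pow_le_pow_left₀ hC3.le hC _) hC' (by linarith) (by positivity)
  have g5 : q ^ A1 ≤ q ^ ((A1 + n + A2 + A3') * (2 * s)) := by
    refine pow_le_pow_right₀ hq ?_
    rw [hk2]
    nlinarith
  have g6 : Lg ^ (A3' * k2 + (n + A2)) ≤ Lg ^ ((A1 + n + A2 + A3') * (2 * s)) := by
    refine pow_le_pow_right₀ hLg1 ?_
    rw [hk2]
    nlinarith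
  have g7 := mul_le_mul g4 g5 (by positivity) (by positivity)
  have g8 := mul_le_mul_of_nonneg_right (mul_le_mul_of_nonneg_right g7 (by positivity : 0 ≤ X ^ (2 * s)))
    (by positivity : 0 ≤ X' ^ k2)
  exact mul_le_mul g8 g6 (by positivity) (by positivity)

end H57.AN
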