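import Pool.Agent.H57.AN.Tau
import Pool.Agent.H57.TLS.Sve
import Pool.Agent.H1.LS4.Ics

/-!
# [H57 AN LS] Large sieve for ray class characters of `L`, all ideals of norm at most `y` (80 lines)

Duality (`H57.TLS.dual` on the subtype `↥M`): it suffices that for all `ε : ↥M → ℂ`:
`∑_{I ∈ IN L y} ‖∑_j ε j χ_j(I)‖^2 ≤ Δ ∑ ‖ε j‖^2`; this is `H57.TLS.sq_bound` with `D = #IN L y` (`‖χ_j(I)‖ ≤ 1`: `rc_le_one`; bounded by `in_card`) and
`E = C (dd L * N(𝔣_j 𝔣_j'))^A y^(1-δ)` from `H1.LS4.ics n hn` applied to `prc (χ j) (χ j')` (`prc_apply`), `N(𝔣_j 𝔣_j') ≤ (q X)^(2 A₀)`, `dd L ≤ q ≤ q X`.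
-/

set_option autoImplicit false

open scoped NumberField
open NumberField IsDedekindDomain H63.MA H36.QA H57.TLS
open scoped Classical

noncomputable section

namespace H57.AN

theorem ls (n A₀ : ℕ) (hn : 0 < n) : ∃ (C : ℝ) (A : ℕ) (δ : ℝ), 1 ≤ C ∧ 0 < δ ∧ δ ≤ 1 / 4 ∧
    ∀ (L : Type) [Field L] [NumberField L], TC L n → ∀ q X : ℝ, 1 ≤ q → 1 ≤ X → dd L ≤ q →
      ∀ (J : Type) (M : Finset J) (𝔣 : J → Ideal (𝓞 L)) (χ : ∀ j, RC L (𝔣 j)),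
        (∀ j ∈ M, 𝔣 j ≠ ⊥ ∧ (Ideal.absNorm (𝔣 j) : ℝ) ≤ (q * X) ^ A₀) →
        (∀ j ∈ M, ∀ j' ∈ M, j ≠ j' → (prc (χ j) (χ j')).Non) → ∀ y : ℝ, 1 ≤ y → ∀ c : Ideal (𝓞 L) → ℂ,
          ∑ j ∈ M, ‖∑ I ∈ IN L y, c I * (χ j).χ I‖ ^ 2 ≤
            C * (y * (1 + Real.log y) ^ n + M.card * ((q * X) ^ A * y ^ (1 - δ))) * ∑ I ∈ IN L y, ‖c I‖ ^ 2 := by
  obtain ⟨C1, hC1, hcard⟩ := in_card n hn
  obtain ⟨C2, A, δ, hC2, hδ, hδ4, hics⟩ := H1.LS4.ics n hn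
  refine ⟨C1 + C2, (1 + 2 * A₀) * A, δ, by linarith, hδ, hδ4, ?_⟩
  intro L _ _ hL q X hq hX hdd J M 𝔣 χ h1 h2 y hy c
  have hqX : 1 ≤ q * X := by nlinarith
  have hqX0 : 0 < q * X := by linarith
  have hlog : 0 ≤ Real.log y := Real.log_nonneg hy
  have hy0 : 0 < y := by linarith
  obtain ⟨D, hD⟩ : ∃ D : ℝ, D = y * (1 + Real.log y) ^ n := ⟨_, rfl⟩
  obtain ⟨E, hE⟩ : ∃ E : ℝ, E = (q * X) ^ ((1 + 2 * A₀) * A) * y ^ (1 - δ) := ⟨_, rfl⟩
  have hD0 : 0 ≤ D := by rw [hD]; positivity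
  have hE0 : 0 ≤ E := by rw [hE]; positivity
  rw [← hD, ← hE]
  have hΔ : 0 ≤ (C1 + C2) * (D + M.card * E) := by positivity
  have hmain := dual (I := Ideal (𝓞 L)) (J := ↥M) (IN L y) (fun j I => (χ j).χ I) hΔ (fun ε => by
    have h3 := sq_bound (IN L y) ε (fun (j : ↥M) I => (χ j).χ I) (D := C1 * D) (E := C2 * E) (by positivity) ?_ ?_
      (by positivity)
    · refine h3.trans ?_
      refine mul_le_mul_of_nonneg_right ?_ (Finset.sum_nonneg fun _ _ => by positivity)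
      rw [Fintype.card_coe]
      have e1 : 0 ≤ (M.card : ℝ) * E := by positivity
      nlinarith
    · intro j
      refine (norm_sum_le _ _).trans ?_
      have e1 : ∀ I ∈ IN L y, ‖(χ j).χ I * (starRingEnd ℂ) ((χ j).χ I)‖ ≤ 1 := by
        intro I _
        rw [norm_mul, RCLike.norm_conj]
        have := rc_le_one (χ j) I
        nlinarith [norm_nonneg ((χ j).χ I)]
      refine (Finset.sum_le_sum e1).trans ?_
      rw [Finset.sum_const, nsmul_eq_mul, mul_one, hD]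
      exact hcard L hL.2 y hy
    · intro j j' hj
      have e0 : (j : J) ≠ (j' : J) := fun h => hj (Subtype.ext h)
      have e1 := hics L hL (𝔣 j * 𝔣 j') (mul_ne_zero (h1 j j.2).1 (h1 j' j'.2).1) (prc (χ j) (χ j'))
        (h2 j j.2 j' j'.2 e0) y hy
      have e2 : ∑ I ∈ IN L y, (χ j).χ I * (starRingEnd ℂ) ((χ j').χ I) =
          ∑ I ∈ IN L y, (prc (χ j) (χ j')).χ I := rfl
      rw [e2]
      refine e1.trans ?_
      rw [mul_assoc, hE]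
      refine mul_le_mul_of_nonneg_left ?_ (by linarith)
      refine mul_le_mul_of_nonneg_right ?_ (by positivity)
      rw [pow_mul]
      refine pow_le_pow_left₀ (mul_nonneg (dd_pos L).le (Nat.cast_nonneg _)) ?_ A
      rw [pow_add, pow_one, two_mul, pow_add, map_mul, Nat.cast_mul]
      refine mul_le_mul (hdd.trans (by nlinarith)) ?_ (by positivity) hqX0.le
      exact mul_le_mul (h1 j j.2).2 (h1 j' j'.2).2 (Nat.cast_nonneg _) (by positivity)) c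
  have h5 : ∑ j ∈ M, ‖∑ I ∈ IN L y, c I * (χ j).χ I‖ ^ 2 = ∑ j : ↥M, ‖∑ I ∈ IN L y, c I * (χ j).χ I‖ ^ 2 :=
    (Finset.sum_coe_sort M fun j => ‖∑ I ∈ IN L y, c I * (χ j).χ I‖ ^ 2).symm
  rw [h5]
  exact hmain

end H57.AN
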