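import Pool.Agent.H57.LC.Prd
import Pool.Agent.H57.LC.IdG
import Pool.Agent.H57.AN.Df

/-!
# [H57 AN MG] The product of the monoids of ideals of several fields over `K` (150 lines)

`BG K`: a monoid with norms (`H57.LC.GM`), for each prime `q` the place `u q` of `K` below and the exponent `f q`. `bg0`: the trivial monoid. `bgc E X`: the
product of the nonzero ideals of `E` and `X` (`GM.prod`, `idG`); for primes `w` of `E`: `u = dn K w`, `f` = the exponent of `nm_over (dn_over K w)`.
`bgl L l`: the product over a list of indices.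
`bgc_card`: the elements `(I, x)` of norm `≤ M`: sum over `I ∈ IN E M` (`idG_W`-like bijection; `prod_N`, `GM.mem_B`; all norms are `≥ 1`: `GM.pos`).
`bgl_one`, `bgl_all`: induction over `l` (`Sum` splits the set into two, `Set.ncard` of images of injective maps; `fib`, `over_finite`, `dn_eq`): for
`w : Pl E`: `f w = 1 ↔ nm w = nm (dn K w)` (`nm_dn_pow` below, `nm v ≥ 2`).
-/

set_option autoImplicit false

open scoped NumberField
open NumberField IsDedekindDomain H63.MA H36.QA H57.TLS H57.LC H57.LI
open scoped Classical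

noncomputable section

namespace H57.AN

/-- a monoid with norms over `K` -/
structure BG (K : Type) [Field K] [NumberField K] where
  M : Type
  P : Type
  [cm : CommMonoid M]
  G : GM M P
  u : P → Pl K
  f : P → ℕ
  f1 : ∀ q, 1 ≤ f q
  hN : ∀ q, G.N (G.pr q) = nm (u q) ^ f q
  fin : ∀ v, {q | u q = v}.Finite

attribute [instance] BG.cm

/-- the exponent of `nm w` -/
def ex (K : Type) {L : Type} [Field K] [NumberField K] [Field L] [NumberField L] [Algebra K L] (w : Pl L) : ℕ :=
  (nm_over (dn_over K w)).choose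

theorem ex_spec (K : Type) {L : Type} [Field K] [NumberField K] [Field L] [NumberField L] [Algebra K L] (w : Pl L) :
    1 ≤ ex K w ∧ nm w = nm (dn K w) ^ ex K w := (nm_over (dn_over K w)).choose_spec

/-- the trivial monoid -/
def bg0 (K : Type) [Field K] [NumberField K] : BG K where
  M := PUnit
  P := PEmpty
  G := { N := 1, pr := fun q => q.elim, fin := fun m => Set.toFinite _, two := fun q => q.elim, pos := fun _ => le_rfl,
         canc := fun q => q.elim, dvd := fun q => q.elim, ex := fun I h => (h rfl).elim }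
  u := fun q => q.elim
  f := fun q => q.elim
  f1 := fun q => q.elim
  hN := fun q => q.elim
  fin := fun v => Set.toFinite _

/-- the product with the ideals of `E` -/
def bgc (K : Type) [Field K] [NumberField K] (E : Type) [Field E] [NumberField E] [Algebra K E] (X : BG K) : BG K where
  M := nonZeroDivisors (Ideal (𝓞 E)) × X.M
  P := Pl E ⊕ X.P
  G := (idG E).prod X.G
  u := Sum.elim (dn K) X.u
  f := Sum.elim (ex K) X.f
  f1 := by
    rintro (w | q)
    · exact (ex_spec K w).1
    · exact X.f1 q
  hN := by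
    rintro (w | q)
    · show ((idG E).N ((idG E).pr w)) * X.G.N 1 = _
      rw [map_one, mul_one, idG_Npr]
      exact (ex_spec K w).2
    · show (idG E).N 1 * X.G.N (X.G.pr q) = _
      rw [map_one, one_mul]
      exact X.hN q
  fin := by
    intro v
    have h1 : {w : Pl E | dn K w = v}.Finite := (over_finite (L := E) v).subset fun w hw => by
      have h3 : dn K w = v := hw
      have h2 := dn_over K w
      rw [h3] at h2
      exact h2
    refine ((h1.image Sum.inl).union ((X.fin v).image Sum.inr)).subset ?_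
    rintro (w | q) h
    · exact Or.inl ⟨w, h, rfl⟩
    · exact Or.inr ⟨q, h, rfl⟩

/-- the product over a list of indices -/
def bgl (K : Type) [Field K] [NumberField K] {N : ℕ} (L : Fin N → Type) [∀ i, Field (L i)] [∀ i, NumberField (L i)]
    [∀ i, Algebra K (L i)] : List (Fin N) → BG K
  | [] => bg0 K
  | i :: l => bgc K (L i) (bgl K L l)

theorem bg0_card (K : Type) [Field K] [NumberField K] (M : ℝ) (hM : 1 ≤ M) : ((bg0 K).G.B M).card = 1 := by
  rw [Finset.card_eq_one]
  refine ⟨(PUnit.unit : PUnit), ?_⟩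
  ext x
  rw [GM.mem_B, Finset.mem_singleton]
  constructor
  · intro _
    rfl
  · intro _
    show (((1 : ℕ)) : ℝ) ≤ M
    rw [Nat.cast_one]
    exact hM

theorem bg_small {K : Type} [Field K] [NumberField K] (X : BG K) (M : ℝ) (hM : M < 1) : X.G.B M = ∅ := by
  refine Finset.eq_empty_of_forall_notMem fun x hx => ?_
  rw [GM.mem_B] at hx
  have h1 : (1 : ℝ) ≤ (X.G.N x : ℝ) := by exact_mod_cast X.G.pos x
  linarith

theorem bgc_card (K : Type) [Field K] [NumberField K] (E : Type) [Field E] [NumberField E] [Algebra K E] (X : BG K) (M : ℝ)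
    (hM : 0 ≤ M) : ((bgc K E X).G.B M).card = ∑ I ∈ IN E M, (X.G.B (M / Ideal.absNorm I)).card := by
  have hmem : ∀ a : nonZeroDivisors (Ideal (𝓞 E)) × X.M, a ∈ ((idG E).prod X.G).B M ↔
      ((Ideal.absNorm (a.1 : Ideal (𝓞 E)) : ℝ) * (X.G.N a.2 : ℝ)) ≤ M := by
    rintro ⟨I, x⟩
    rw [GM.mem_B, prod_N, idG_N, Nat.cast_mul]
  have hNI : ∀ I : nonZeroDivisors (Ideal (𝓞 E)), (1 : ℝ) ≤ (Ideal.absNorm (I : Ideal (𝓞 E)) : ℝ) := by
    intro I
    exact_mod_cast (idG E).pos I
  have hNx : ∀ x : X.M, (1 : ℝ) ≤ (X.G.N x : ℝ) := by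
    intro x
    exact_mod_cast X.G.pos x
  show (((idG E).prod X.G).B M).card = _
  rw [Finset.card_eq_sum_card_fiberwise (f := fun a : nonZeroDivisors (Ideal (𝓞 E)) × X.M => (a.1 : Ideal (𝓞 E)))
    (t := IN E M)]
  · refine Finset.sum_congr rfl fun I hI => ?_
    obtain ⟨hI1, hI2⟩ := (mem_IN hM).1 hI
    have hI0 : I ∈ nonZeroDivisors (Ideal (𝓞 E)) :=
      mem_nonZeroDivisors_of_ne_zero (by rw [Ideal.zero_eq_bot]; exact hI2)
    have hIp : (0 : ℝ) < (Ideal.absNorm I : ℝ) := lt_of_lt_of_le one_pos (hNI ⟨I, hI0⟩)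
    refine Finset.card_bij (fun a _ => a.2) ?_ ?_ ?_
    · intro a ha
      rw [Finset.mem_filter, hmem] at ha
      rw [GM.mem_B, le_div_iff₀ hIp, ← ha.2, mul_comm]
      exact ha.1
    · intro a ha b hb hab
      rw [Finset.mem_filter] at ha hb
      refine Prod.ext (Subtype.ext (ha.2.trans hb.2.symm)) hab
    · intro x hx
      rw [GM.mem_B, le_div_iff₀ hIp, mul_comm] at hx
      exact ⟨(⟨I, hI0⟩, x), Finset.mem_filter.2 ⟨(hmem _).2 hx, rfl⟩, rfl⟩
  · intro a ha
    rw [Finset.mem_coe, hmem] at ha
    rw [Finset.mem_coe, mem_IN hM]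
    refine ⟨?_, idg_ne E a.1⟩
    have h1 := hNI a.1
    have h2 := hNx a.2
    nlinarith

private theorem mg_sum {α β : Type} (S : Set (α ⊕ β)) (h : S.Finite) :
    S.ncard = (Sum.inl ⁻¹' S).ncard + (Sum.inr ⁻¹' S).ncard := by
  have h1 : (Sum.inl ⁻¹' S).Finite := h.preimage Sum.inl_injective.injOn
  have h2 : (Sum.inr ⁻¹' S).Finite := h.preimage Sum.inr_injective.injOn
  conv_lhs => rw [← Set.image_preimage_inl_union_image_preimage_inr S]
  rw [Set.ncard_union_eq _ (h1.image _) (h2.image _), Set.ncard_image_of_injective _ Sum.inl_injective,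
    Set.ncard_image_of_injective _ Sum.inr_injective]
  rw [Set.disjoint_left]
  rintro _ ⟨a, _, rfl⟩ ⟨b, _, hb⟩
  exact absurd hb (by simp)

theorem bgl_one (K : Type) [Field K] [NumberField K] {N : ℕ} (L : Fin N → Type) [∀ i, Field (L i)] [∀ i, NumberField (L i)]
    [∀ i, Algebra K (L i)] (l : List (Fin N)) (v : Pl K) :
    {q | (bgl K L l).u q = v ∧ (bgl K L l).f q = 1}.ncard =
      (l.map fun i => {w : Pl (L i) | Over w v ∧ nm w = nm v}.ncard).sum := by
  induction l with
  | nil =>
    rw [List.map_nil, List.sum_nil]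
    have h : {q | (bgl K L []).u q = v ∧ (bgl K L []).f q = 1} = ∅ := by
      ext q
      exact q.elim
    rw [h, Set.ncard_empty]
  | cons i l ih =>
    rw [List.map_cons, List.sum_cons, ← ih]
    have hfin : {q : (bgl K L (i :: l)).P | (bgl K L (i :: l)).u q = v ∧ (bgl K L (i :: l)).f q = 1}.Finite :=
      ((bgl K L (i :: l)).fin v).subset fun q hq => hq.1
    refine (mg_sum (α := Pl (L i)) (β := (bgl K L l).P) _ hfin).trans ?_
    congr 1
    congr 1
    ext w
    have hw := ex_spec K w
    constructor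
    · rintro ⟨h1, h2⟩
      have h1' : dn K w = v := h1
      have h2' : ex K w = 1 := h2
      have h3 := dn_over K w
      rw [h1'] at h3
      rw [h2', h1', pow_one] at hw
      exact ⟨h3, hw.2⟩
    · rintro ⟨h1, h2⟩
      have h3 : dn K w = v := dn_eq K h1
      refine ⟨h3, ?_⟩
      show ex K w = 1
      have h4 := hw.2
      rw [h3, h2] at h4
      have h5 : 1 < nm v := one_lt_nm v
      have h6 : nm v ^ 1 = nm v ^ ex K w := by rw [pow_one]; exact h4
      exact (Nat.pow_right_injective h5 h6).symm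

theorem bgl_all (K : Type) [Field K] [NumberField K] {N : ℕ} (L : Fin N → Type) [∀ i, Field (L i)] [∀ i, NumberField (L i)]
    [∀ i, Algebra K (L i)] (l : List (Fin N)) (v : Pl K) :
    {q | (bgl K L l).u q = v}.ncard ≤ (l.map fun i => Module.finrank K (L i)).sum := by
  induction l with
  | nil =>
    have h : {q | (bgl K L []).u q = v} = ∅ := by
      ext q
      exact q.elim
    rw [h, Set.ncard_empty]
    exact Nat.zero_le _
  | cons i l ih =>
    rw [List.map_cons, List.sum_cons]
    have hfin : {q : (bgl K L (i :: l)).P | (bgl K L (i :: l)).u q = v}.Finite := (bgl K L (i :: l)).fin v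
    refine (mg_sum (α := Pl (L i)) (β := (bgl K L l).P) _ hfin).trans_le (Nat.add_le_add ?_ ih)
    have h1 : {w : Pl (L i) | dn K w = v}.Finite := (over_finite (L := L i) v).subset fun w hw => by
      have h3 : dn K w = v := hw
      have h2 := dn_over K w
      rw [h3] at h2
      exact h2
    show {w : Pl (L i) | dn K w = v}.ncard ≤ _
    rw [Set.ncard_eq_toFinset_card _ h1]
    refine fib K v _ fun w hw => ?_
    rw [Set.Finite.mem_toFinset] at hw
    exact hw

end H57.AN
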