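import Pool.Agent.H57.LC.Op

/-!
# [H57 AN MOA] The operators on functions of size `M (log M)^k` (80 lines)

`op N P F M = ∑_{j ∈ P.support} P.coeff j * F (M / N^j)` (`Polynomial.aeval_eq_sum_range` or `Polynomial.sum_def`; `tau_apply`, powers of `tau N`).
`mo_op`: the term `j = 0` is `F M`; for `j ≥ 1`: `‖F (M / N^j)‖ ≤ D (M / N^j) (1 + max 0 (log (M / N^j)))^k ≤ D M (N^j)⁻¹ (1 + max 0 (log M))^k`.
`mo_lim`: finite sum; for fixed `c = N^j ≥ 1`: `F (M / c) / (M log^k M) = [F (M / c) / ((M / c) log^k (M / c))] * c⁻¹ * (log (M / c) / log M)^k → τ c⁻¹`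
(`H63.MB.bue_scale` in H63/MB/BUe.lean is a real valued model); the sum of the limits is `τ * P.eval N⁻¹` (`Polynomial.eval_eq_sum`).
-/

set_option autoImplicit false

open Filter Topology
open scoped Classical

noncomputable section

namespace H57.AN

open H57.LC Polynomial

private theorem moa_tau_pow (N : ℝ) (k : ℕ) (f : ℝ → ℂ) (M : ℝ) :
    ((tau N : Module.End ℂ (ℝ → ℂ)) ^ k) f M = f (M / N ^ k) := by
  induction k generalizing M with
  | zero => simp
  | succ k ih =>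
    rw [pow_succ', Module.End.mul_apply, tau_apply, ih, pow_succ', div_div]

theorem moa_apply_sum (N : ℝ) (p : ℂ[X]) (f : ℝ → ℂ) (M : ℝ) :
    op N p f M = ∑ j ∈ p.support, p.coeff j * f (M / N ^ j) := by
  unfold op
  rw [aeval_def, eval₂_eq_sum, sum_def, LinearMap.sum_apply, Finset.sum_apply]
  refine Finset.sum_congr rfl fun j _ => ?_
  rw [Module.End.mul_apply, Module.algebraMap_end_apply, Pi.smul_apply, moa_tau_pow, smul_eq_mul]

theorem mo_op (N : ℝ) (hN : 2 ≤ N) (P : ℂ[X]) (h0 : P.coeff 0 = 1) (F : ℝ → ℂ) (D : ℝ) (k : ℕ)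
    (hF : ∀ M : ℝ, 0 < M → ‖F M‖ ≤ D * M * (1 + max 0 (Real.log M)) ^ k) (M : ℝ) (hM : 0 < M) :
    ‖op N P F M - F M‖ ≤ (∑ j ∈ P.support.erase 0, ‖P.coeff j‖ * (N ^ j)⁻¹) * (D * M * (1 + max 0 (Real.log M)) ^ k) := by
  have hD : 0 ≤ D := by
    have h := hF 1 one_pos
    rw [Real.log_one, max_self, add_zero, one_pow, mul_one, mul_one] at h
    exact (norm_nonneg _).trans h
  have h0m : 0 ∈ P.support := by
    rw [mem_support_iff, h0]
    exact one_ne_zero
  rw [moa_apply_sum, ← Finset.add_sum_erase _ _ h0m, h0, one_mul, pow_zero, div_one, add_sub_cancel_left, Finset.sum_mul]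
  refine (norm_sum_le _ _).trans (Finset.sum_le_sum fun j _ => ?_)
  have hj : 1 ≤ N ^ j := one_le_pow₀ (by linarith)
  have hj0 : 0 < N ^ j := by linarith
  rw [norm_mul, mul_assoc]
  refine mul_le_mul_of_nonneg_left ?_ (norm_nonneg _)
  refine (hF _ (by positivity)).trans ?_
  have h1 : max 0 (Real.log (M / N ^ j)) ≤ max 0 (Real.log M) := by
    refine max_le_max le_rfl (Real.log_le_log (by positivity) ?_)
    exact div_le_self hM.le hj
  have h2 : 0 ≤ max 0 (Real.log (M / N ^ j)) := le_max_left _ _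
  calc D * (M / N ^ j) * (1 + max 0 (Real.log (M / N ^ j))) ^ k
      ≤ D * (M / N ^ j) * (1 + max 0 (Real.log M)) ^ k := by
        refine mul_le_mul_of_nonneg_left (pow_le_pow_left₀ (by linarith) (by linarith) _) (by positivity)
    _ = (N ^ j)⁻¹ * (D * M * (1 + max 0 (Real.log M)) ^ k) := by
        rw [div_eq_mul_inv]
        ring

private theorem moa_scale (h : ℝ → ℂ) (k : ℕ) (τ : ℂ) (c : ℝ) (hc : 0 < c)
    (hh : Tendsto (fun y : ℝ => h y / ((y * Real.log y ^ k : ℝ) : ℂ)) atTop (𝓝 τ)) :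
    Tendsto (fun y : ℝ => h (y / c) / ((y * Real.log y ^ k : ℝ) : ℂ)) atTop (𝓝 (τ * (c : ℂ)⁻¹)) := by
  have hdiv : Tendsto (fun y : ℝ => y / c) atTop atTop := tendsto_id.atTop_div_const hc
  have h1 : Tendsto (fun y : ℝ => h (y / c) / ((y / c * Real.log (y / c) ^ k : ℝ) : ℂ)) atTop (𝓝 τ) :=
    hh.comp hdiv
  have hlog : Tendsto (fun y : ℝ => Real.log y) atTop atTop := Real.tendsto_log_atTop
  have h2 : Tendsto (fun y : ℝ => 1 - Real.log c / Real.log y) atTop (𝓝 (1 - 0)) :=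
    tendsto_const_nhds.sub (hlog.const_div_atTop _)
  have h2' : Tendsto (fun y : ℝ => ((c⁻¹ * (1 - Real.log c / Real.log y) ^ k : ℝ) : ℂ)) atTop
      (𝓝 ((c⁻¹ * (1 - 0) ^ k : ℝ) : ℂ)) :=
    (Complex.continuous_ofReal.tendsto _).comp (tendsto_const_nhds.mul (h2.pow k))
  have h3 := h1.mul h2'
  rw [sub_zero, one_pow, mul_one, Complex.ofReal_inv] at h3
  refine h3.congr' ?_
  filter_upwards [eventually_gt_atTop (max c 1)] with y hy
  have hyc : c < y := lt_of_le_of_lt (le_max_left _ _) hy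
  have hy1 : 1 < y := lt_of_le_of_lt (le_max_right _ _) hy
  have hy0 : 0 < y := by linarith
  have hl : 0 < Real.log y := Real.log_pos hy1
  have hyc1 : 1 < y / c := by rwa [lt_div_iff₀ hc, one_mul]
  have hlc : 0 < Real.log (y / c) := Real.log_pos hyc1
  have e1 : 1 - Real.log c / Real.log y = Real.log (y / c) / Real.log y := by
    rw [Real.log_div hy0.ne' hc.ne']
    field_simp
  rw [e1, div_pow]
  have hne : Real.log (y / c) ^ k ≠ 0 := (pow_pos hlc k).ne'
  have hne2 : Real.log y ^ k ≠ 0 := (pow_pos hl k).ne'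
  have e2 : ((c⁻¹ * (Real.log (y / c) ^ k / Real.log y ^ k) : ℝ) : ℂ) =
      ((y / c * Real.log (y / c) ^ k : ℝ) : ℂ) / ((y * Real.log y ^ k : ℝ) : ℂ) := by
    rw [← Complex.ofReal_div]
    congr 1
    field_simp
  have hne3 : ((y / c * Real.log (y / c) ^ k : ℝ) : ℂ) ≠ 0 := by
    rw [Complex.ofReal_ne_zero]
    positivity
  rw [e2, div_mul_div_comm, mul_comm (h (y / c)), mul_div_mul_left _ _ hne3]

theorem mo_lim (N : ℝ) (hN : 2 ≤ N) (P : ℂ[X]) (F : ℝ → ℂ) (τ : ℂ) (k : ℕ)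
    (hF : Tendsto (fun M : ℝ => F M / ((M * Real.log M ^ k : ℝ) : ℂ)) atTop (𝓝 τ)) :
    Tendsto (fun M : ℝ => op N P F M / ((M * Real.log M ^ k : ℝ) : ℂ)) atTop (𝓝 (τ * P.eval ((N : ℂ)⁻¹))) := by
  have e : τ * P.eval ((N : ℂ)⁻¹) = ∑ j ∈ P.support, P.coeff j * (τ * ((N ^ j : ℝ) : ℂ)⁻¹) := by
    rw [eval_eq_sum, sum_def, Finset.mul_sum]
    refine Finset.sum_congr rfl fun j _ => ?_
    rw [inv_pow, Complex.ofReal_pow]
    ring
  rw [e]
  have h1 : Tendsto (fun M : ℝ => ∑ j ∈ P.support, P.coeff j * (F (M / N ^ j) / ((M * Real.log M ^ k : ℝ) : ℂ))) atTop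
      (𝓝 (∑ j ∈ P.support, P.coeff j * (τ * ((N ^ j : ℝ) : ℂ)⁻¹))) := by
    refine tendsto_finsetSum _ fun j _ => ?_
    exact (moa_scale F k τ (N ^ j) (by positivity) hF).const_mul _
  refine h1.congr fun M => ?_
  rw [moa_apply_sum, Finset.sum_div]
  refine Finset.sum_congr rfl fun j _ => ?_
  rw [mul_div_assoc]

end H57.AN
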