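import Pool.Agent.H57.AN.Sem
import Pool.Agent.H1.LS4.Ics
import Pool.Agent.H57.TLS.Sve

/-!
# [H57 AN ONE] Power saving for sums of a nontrivial character over families of labels (150 lines)

`LFam K L E x`: the families of labels with norm at most `x`, no label over a prime of `E`.
`one_exp`: `∑_{b ∈ LFam} ∏_{w ∈ b} f w = ∑_{t ∈ AF K x} ∏_{v ∈ t} g v`, `g v = ∑_{w : dn K w = v, nm w prime} f w` if `v ∉ E`, `g v = 0` for `v ∈ E`:
the families `b` with `dns K b = t` are the images of the sections `p ∈ t.pi (fun v => fibre of v)` (`Finset.prod_sum`), `nr b = nr t` (`Ok.nr`).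
The fibre of `v`: `(over_finite v).toFinset.filter (fun w => (nm w).Prime)`, `dn K w = v ↔ Over w v` (`dn_over`, `dn_eq`).
`an1`: `sem K n (n : ℝ)` (`Module.finrank K L ≤ Module.finrank ℚ L = n`) with `ψ = χ.χ`, `B = E`, `‖g v‖ ≤ n` (`fib`), `D = C (dd L * N 𝔣)^A` from
`H1.LS4.ics n hn`; for `v ∉ E`: if `nm v` is prime then `nm w = nm v` implies `nm w` prime and conversely (`nm_dn`), if `nm v` is not prime then `g v = 0`.
(`‖χ.χ I‖ ≤ 1`: `H57.TLS.rc_le_one`.)
-/

set_option autoImplicit false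

open scoped NumberField
open NumberField IsDedekindDomain H63.MA H36.QA H57.TLS
open scoped Classical

noncomputable section

namespace H57.AN

/-- the families of labels of norm at most `x` without labels over `E` -/
def LFam (K L : Type) [Field K] [NumberField K] [Field L] [NumberField L] [Algebra K L] (E : Finset (Pl K)) (x : ℝ) :
    Finset (Finset (Pl L)) :=
  (AF L x).filter fun b => Ok K b ∧ ∀ w ∈ b, dn K w ∉ E

/-- the labels over `v` -/
def fbr (K : Type) {L : Type} [Field K] [NumberField K] [Field L] [NumberField L] [Algebra K L] (v : Pl K) : Finset (Pl L) :=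
  (over_finite (L := L) v).toFinset.filter fun w => (nm w).Prime

theorem mem_fbr {K L : Type} [Field K] [NumberField K] [Field L] [NumberField L] [Algebra K L] {v : Pl K} {w : Pl L} :
    w ∈ fbr K v ↔ dn K w = v ∧ (nm w).Prime := by
  unfold fbr
  rw [Finset.mem_filter, Set.Finite.mem_toFinset]
  exact and_congr_left fun _ => ⟨fun h => dn_eq K h, fun h => h ▸ dn_over K w⟩

private theorem one_fix {K L : Type} [Field K] [NumberField K] [Field L] [NumberField L] [Algebra K L] {E : Finset (Pl K)} {x : ℝ}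
    (f : Pl L → ℂ) {t : Finset (Pl K)} (ht : t ∈ AF K x) :
    ∑ b ∈ (LFam K L E x).filter (fun b => dns K b = t), ∏ w ∈ b, f w =
      ∏ v ∈ t, (if v ∈ E then 0 else ∑ w ∈ fbr K v, f w) := by
  by_cases hE : ∃ v ∈ t, v ∈ E
  · obtain ⟨v, hv, hvE⟩ := hE
    rw [Finset.prod_eq_zero (f := fun v => if v ∈ E then (0 : ℂ) else ∑ w ∈ fbr K v, f w) hv (if_pos hvE)]
    refine Finset.sum_eq_zero fun b hb => ?_
    exfalso
    rw [Finset.mem_filter] at hb
    obtain ⟨hb, rfl⟩ := hb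
    unfold LFam at hb
    rw [Finset.mem_filter] at hb
    obtain ⟨w, hw, rfl⟩ := Finset.mem_image.1 hv
    exact hb.2.2 w hw hvE
  · push Not at hE
    have e1 : ∏ v ∈ t, (if v ∈ E then 0 else ∑ w ∈ fbr K v, f w) = ∏ v ∈ t, ∑ w ∈ fbr K v, f w :=
      Finset.prod_congr rfl fun v hv => if_neg (hE v hv)
    rw [e1, Finset.prod_sum]
    symm
    have hp : ∀ p ∈ t.pi (fun v => fbr (L := L) K v), ∀ v (hv : v ∈ t), dn K (p v hv) = v ∧ (nm (p v hv)).Prime := by
      intro p hp v hv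
      exact mem_fbr.1 (Finset.mem_pi.1 hp v hv)
    have hdns : ∀ p ∈ t.pi (fun v => fbr (L := L) K v),
        dns K (t.attach.image fun v => p v.1 v.2) = t := by
      intro p hpp
      ext v
      unfold dns
      rw [Finset.image_image, Finset.mem_image]
      constructor
      · rintro ⟨u, -, hu⟩
        rw [← hu, Function.comp_apply, (hp p hpp u.1 u.2).1]
        exact u.2
      · intro hv
        exact ⟨⟨v, hv⟩, Finset.mem_attach _ _, (hp p hpp v hv).1⟩
    have hok : ∀ p ∈ t.pi (fun v => fbr (L := L) K v), Ok K (t.attach.image fun v => p v.1 v.2) := by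
      intro p hpp
      refine ⟨?_, ?_⟩
      · intro w hw
        obtain ⟨u, -, rfl⟩ := Finset.mem_image.1 hw
        exact (hp p hpp u.1 u.2).2
      · intro w hw w' hw' h
        obtain ⟨u, -, rfl⟩ := Finset.mem_image.1 (Finset.mem_coe.1 hw)
        obtain ⟨u', -, rfl⟩ := Finset.mem_image.1 (Finset.mem_coe.1 hw')
        rw [(hp p hpp u.1 u.2).1, (hp p hpp u'.1 u'.2).1] at h
        have h2 : u = u' := Subtype.ext h
        rw [h2]
    refine Finset.sum_bij (fun p _ => t.attach.image fun v => p v.1 v.2) ?_ ?_ ?_ ?_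
    · intro p hpp
      rw [Finset.mem_filter]
      refine ⟨?_, hdns p hpp⟩
      unfold LFam
      rw [Finset.mem_filter]
      refine ⟨?_, hok p hpp, ?_⟩
      · rw [mem_AF, ← (hok p hpp).nr, hdns p hpp]
        exact mem_AF.1 ht
      · intro w hw
        obtain ⟨u, -, rfl⟩ := Finset.mem_image.1 hw
        rw [(hp p hpp u.1 u.2).1]
        exact hE u.1 u.2
    · intro p hpp p' hpp' h
      funext v hv
      have h1 : p v hv ∈ t.attach.image fun u => p' u.1 u.2 := by
        rw [← h]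
        exact Finset.mem_image.2 ⟨⟨v, hv⟩, Finset.mem_attach _ _, rfl⟩
      obtain ⟨u, -, hu⟩ := Finset.mem_image.1 h1
      have h2 : u = ⟨v, hv⟩ := by
        apply Subtype.ext
        have h3 := (hp p' hpp' u.1 u.2).1
        rw [hu, (hp p hpp v hv).1] at h3
        exact h3.symm
      rw [← hu, h2]
    · intro b hb
      rw [Finset.mem_filter] at hb
      obtain ⟨hb, hbt⟩ := hb
      unfold LFam at hb
      rw [Finset.mem_filter] at hb
      obtain ⟨hb1, hb2, hb3⟩ := hb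
      have hch : ∀ v, v ∈ t → ∃ w ∈ b, dn K w = v := by
        intro v hv
        rw [← hbt] at hv
        exact Finset.mem_image.1 hv
      refine ⟨fun v hv => (hch v hv).choose, ?_, ?_⟩
      · rw [Finset.mem_pi]
        intro v hv
        rw [mem_fbr]
        exact ⟨(hch v hv).choose_spec.2, hb2.pr _ (hch v hv).choose_spec.1⟩
      · ext w
        rw [Finset.mem_image]
        constructor
        · rintro ⟨u, -, rfl⟩
          exact (hch u.1 u.2).choose_spec.1
        · intro hw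
          have h1 : dn K w ∈ t := by
            rw [← hbt]
            exact Finset.mem_image.2 ⟨w, hw, rfl⟩
          refine ⟨⟨dn K w, h1⟩, Finset.mem_attach _ _, ?_⟩
          exact hb2.inj (Finset.mem_coe.2 (hch _ h1).choose_spec.1) (Finset.mem_coe.2 hw) (hch _ h1).choose_spec.2
    · intro p hpp
      rw [Finset.prod_image]
      intro u _ u' _ h
      apply Subtype.ext
      have h1 := (hp p hpp u.1 u.2).1
      dsimp only at h
      rw [h, (hp p hpp u'.1 u'.2).1] at h1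
      exact h1.symm

theorem one_exp (K L : Type) [Field K] [NumberField K] [Field L] [NumberField L] [Algebra K L] (E : Finset (Pl K)) (x : ℝ)
    (f : Pl L → ℂ) :
    ∑ b ∈ LFam K L E x, ∏ w ∈ b, f w = ∑ t ∈ AF K x, ∏ v ∈ t, (if v ∈ E then 0 else ∑ w ∈ fbr K v, f w) := by
  have hm : ∀ b ∈ LFam K L E x, dns K b ∈ AF K x := by
    intro b hb
    unfold LFam at hb
    rw [Finset.mem_filter] at hb
    rw [mem_AF, hb.2.1.nr]
    exact mem_AF.1 hb.1
  rw [← Finset.sum_fiberwise_of_maps_to hm]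
  exact Finset.sum_congr rfl fun t ht => one_fix f ht

theorem an1 (K : Type) [Field K] [NumberField K] (n : ℕ) (hn : 0 < n) : ∃ (C : ℝ) (A : ℕ) (δ : ℝ), 1 ≤ C ∧ 0 < δ ∧ δ ≤ 1 / 4 ∧
    ∀ (L : Type) [Field L] [NumberField L] [Algebra K L], TC L n → ∀ 𝔣 : Ideal (𝓞 L), 𝔣 ≠ ⊥ → ∀ χ : RC L 𝔣, χ.Non →
      ∀ E : Finset (Pl K), ∀ x : ℝ, 1 ≤ x →
        ‖∑ b ∈ LFam K L E x, ∏ w ∈ b, χ.χ w.asIdeal‖ ≤
          C * C ^ E.card * (dd L * Ideal.absNorm 𝔣) ^ A * x ^ (1 - δ) := by
  obtain ⟨C₁, A, δ, hC₁, hδ0, hδ, hics⟩ := H1.LS4.ics n hn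
  obtain ⟨C₀, hC₀, hsem⟩ := sem K n (n : ℝ)
  refine ⟨C₀ * C₁, A, δ, ?_, hδ0, hδ, ?_⟩
  · nlinarith
  intro L _ _ _ hTC 𝔣 h𝔣 χ hχ E x hx
  have hfin : Module.finrank K L ≤ n := by
    have h1 := Module.finrank_mul_finrank ℚ K L
    have h2 := hTC.2
    have h3 : 0 < Module.finrank ℚ K := Module.finrank_pos
    rw [← h2, ← h1]
    exact Nat.le_mul_of_pos_left _ h3
  have hg : ∀ v : Pl K, ‖∑ w ∈ fbr (L := L) K v, χ.χ w.asIdeal‖ ≤ (n : ℝ) := by
    intro v
    have h1 : (fbr (L := L) K v).card ≤ Module.finrank K L := fib K v _ fun w hw => (mem_fbr.1 hw).1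
    calc ‖∑ w ∈ fbr (L := L) K v, χ.χ w.asIdeal‖ ≤ ∑ w ∈ fbr (L := L) K v, ‖χ.χ w.asIdeal‖ := norm_sum_le _ _
      _ ≤ ∑ w ∈ fbr (L := L) K v, (1 : ℝ) := Finset.sum_le_sum fun w _ => rc_le_one χ _
      _ = ((fbr (L := L) K v).card : ℝ) := by simp
      _ ≤ (n : ℝ) := by exact_mod_cast h1.trans hfin
  have h := hsem L hfin χ.χ (rc_le_one χ)
    (fun v => if v ∈ E then 0 else ∑ w ∈ fbr (L := L) K v, χ.χ w.asIdeal) ?_ E ?_ ?_
    (C₁ * (dd L * Ideal.absNorm 𝔣) ^ A) δ ?_ hδ0 hδ (fun M hM => hics L hTC 𝔣 h𝔣 χ hχ M hM) x hx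
  · rw [one_exp]
    refine h.trans ?_
    have hD : 0 ≤ (dd L * (Ideal.absNorm 𝔣 : ℝ)) ^ A := pow_nonneg (mul_nonneg (dd_pos L).le (Nat.cast_nonneg _)) _
    have hx' : 0 ≤ x ^ (1 - δ) := Real.rpow_nonneg (by linarith) _
    have h1 : C₀ ^ E.card ≤ (C₀ * C₁) ^ E.card := pow_le_pow_left₀ (by linarith) (by nlinarith) _
    calc C₀ * C₀ ^ E.card * (C₁ * (dd L * Ideal.absNorm 𝔣) ^ A) * x ^ (1 - δ)
        = (C₀ * C₁) * C₀ ^ E.card * (dd L * Ideal.absNorm 𝔣) ^ A * x ^ (1 - δ) := by ring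
      _ ≤ (C₀ * C₁) * (C₀ * C₁) ^ E.card * (dd L * Ideal.absNorm 𝔣) ^ A * x ^ (1 - δ) := by
          have h2 : 0 ≤ C₀ * C₁ := by nlinarith
          gcongr
  · intro v
    split_ifs
    · rw [norm_zero]
      exact Nat.cast_nonneg n
    · exact hg v
  · intro v hv hp
    rw [if_neg hv]
    have hset : {w : Pl L | Over w v ∧ nm w = nm v} = ((fbr (L := L) K v : Finset (Pl L)) : Set (Pl L)) := by
      ext w
      rw [Set.mem_ofPred_eq, Finset.mem_coe, mem_fbr]
      constructor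
      · rintro ⟨h1, h2⟩
        exact ⟨dn_eq K h1, h2 ▸ hp⟩
      · rintro ⟨h1, h2⟩
        refine ⟨h1 ▸ dn_over K w, ?_⟩
        rw [← nm_dn K h2, h1]
    rw [hset, finsum_mem_coe_finset]
  · intro v hv hp
    rw [if_neg hv]
    refine Finset.sum_eq_zero fun w hw => ?_
    exfalso
    obtain ⟨h1, h2⟩ := mem_fbr.1 hw
    apply hp
    rw [← h1, nm_dn K h2]
    exact h2
  · have hD : 0 ≤ (dd L * (Ideal.absNorm 𝔣 : ℝ)) ^ A := pow_nonneg (mul_nonneg (dd_pos L).le (Nat.cast_nonneg _)) _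
    exact mul_nonneg (by linarith) hD

end H57.AN
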