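import Pool.Agent.H57.AN.Df
import Pool.Agent.H1.LS4.Cmp

/-!
# [H57 AN SEM] Comparison with the sum over all ideals; no labels at primes of nonprime norm (160 lines)

`NP` = the primes `l` of `K` whose norm is not prime. `∑_{l ∈ NP} (nm l)^(-3/4) < ∞`: `nm l = ℓ^f` with `f ≥ 2` (`H57.LI.prk_pow`), so
`(nm l)^(-3/4) ≤ ℓ^(-3/2)`, and at most `[K:ℚ]` primes `l` over each `ℓ` (`H57.LI.prk_fibre`). Put `S_K` for the sum (of finite subsets: bound `S_K`).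
Let `g' l = g l` for `l ∈ B` or `l ∉ NP`, and `g' l = ∑ᶠ_{v over l, nm v = nm l} ψ v` for `l ∈ NP`, `l ∉ B` (so `‖g'‖ ≤ G' = max G d`: at most `d` terms,
see `fib` in Df and `dn_eq`). Inclusion and exclusion over the finite set `N` of all `l ∈ NP - B` with `nm l ≤ M`:
`∑_{s ∈ AF K M} ∏_{l ∈ s} g l = ∑_{t ⊆ N} (-1)^#t ∏_{l ∈ t} g' l ∑_{s ∈ AF K (M / nr t), s ∩ t = ∅} ∏_{l ∈ s} g' l`
(`g l = 0` on `N`; `∑_{t ⊆ s ∩ N} (-1)^#t = [s ∩ N = ∅]`; for `nr t > M` the inner sum is over the empty set because `nr s ≥ 1`).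
The inner sum is `∑_{s ∈ AF K (M / nr t)} ∏ g'_t` with `g'_t = 0` on `t`, `g'_t = g'` otherwise: `H1.LS4.cmp K 1 d G'` with the list `[ψ]` and the bad set
`B ∪ t`: at most `C₀ C₀^(#B + #t) D (M / nr t)^(1-δ)` (for `M / nr t ≥ 1`). (`H1.LS4.cvs ∅ [ψ] M = ∑_{I ∈ IN E M} ψ I`, see the lemmas on `cvs` in
`H1/LS4/Df.lean`, `Sbc.lean`; hypothesis `hW`.) Total: `C₀^(1 + #B) D M^(1-δ) ∏_{l ∈ N} (1 + G' C₀ (nm l)^(-(1-δ))) ≤ C₀^(1+#B) D M^(1-δ) exp(G' C₀ S_K)`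
(`1 - δ ≥ 3/4`).
-/

set_option autoImplicit false

open scoped NumberField
open NumberField IsDedekindDomain H63.MA H36.QA H57.TLS
open scoped Classical

noncomputable section

namespace H57.AN

private theorem sem_cvs {E : Type} [Field E] [NumberField E] (ψ : Ideal (𝓞 E) →*₀ ℂ) {M : ℝ}
    (hM : 1 ≤ M) : H1.LS4.cvs ∅ [ψ] M = ∑ I ∈ IN E M, ψ I := by
  rw [H1.LS4.cvs, H1.LS4.cvs]
  unfold H1.LS4.cnv
  rw [Finset.filter_true_of_mem (fun I _ v hv => absurd hv (Finset.notMem_empty v))]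
  refine Finset.sum_congr rfl fun I hI => ?_
  obtain ⟨h1, h2⟩ := (mem_IN (by linarith)).1 hI
  have h3 : 0 < (Ideal.absNorm I : ℝ) := by
    exact_mod_cast Nat.pos_of_ne_zero (fun h => h2 (Ideal.absNorm_eq_zero_iff.1 h))
  rw [H1.LS4.e1, if_pos ((one_le_div h3).2 h1), mul_one]

private theorem sem_small {K : Type} [Field K] [NumberField K] (h : Pl K → ℂ) {M : ℝ} (hM : M < 1) :
    ∑ s ∈ AF K M, ∏ l ∈ s, h l = 0 := by
  refine Finset.sum_eq_zero fun s hs => ?_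
  have h1 := one_le_nr s
  have h2 := mem_AF.1 hs
  linarith

/-- one prime -/
private theorem sem_step {K : Type} [Field K] [NumberField K] (h h' : Pl K → ℂ) (l₀ : Pl K)
    (h0 : h l₀ = 0) (hh : ∀ l, l ≠ l₀ → h l = h' l) (M : ℝ) :
    ∑ s ∈ AF K M, ∏ l ∈ s, h' l =
      (∑ s ∈ AF K M, ∏ l ∈ s, h l) + h' l₀ * ∑ s ∈ AF K (M / nm l₀), ∏ l ∈ s, h l := by
  have hq : (0 : ℝ) < nm l₀ := by exact_mod_cast (one_lt_nm l₀).le
  have hins : ∀ u : Finset (Pl K), l₀ ∉ u → nr (insert l₀ u) = nm l₀ * nr u := by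
    intro u hu
    unfold H63.MA.nr
    rw [Finset.prod_insert hu]
  have key : ∀ y : ℝ, ∑ s ∈ AF K y, ∏ l ∈ s, h l =
      ∑ s ∈ (AF K y).filter (fun s => l₀ ∉ s), ∏ l ∈ s, h' l := by
    intro y
    rw [Finset.sum_filter]
    refine Finset.sum_congr rfl fun s _ => ?_
    by_cases hs : l₀ ∈ s
    · rw [if_neg (not_not.2 hs)]
      exact Finset.prod_eq_zero hs h0
    · rw [if_pos hs]
      exact Finset.prod_congr rfl fun l hl => hh l fun e => hs (e ▸ hl)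
  rw [key, key, Finset.mul_sum, ← Finset.sum_filter_add_sum_filter_not (AF K M) (fun s => l₀ ∉ s)]
  congr 1
  refine Finset.sum_bij' (fun s _ => s.erase l₀) (fun u _ => insert l₀ u) ?_ ?_ ?_ ?_ ?_
  · intro s hs
    rw [Finset.mem_filter, not_not] at hs
    obtain ⟨hs1, hs2⟩ := hs
    rw [Finset.mem_filter, mem_AF]
    refine ⟨?_, Finset.notMem_erase l₀ s⟩
    have h1 := hins (s.erase l₀) (Finset.notMem_erase l₀ s)
    rw [Finset.insert_erase hs2] at h1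
    have h2 := mem_AF.1 hs1
    rw [h1] at h2
    rw [le_div_iff₀ hq, mul_comm]
    exact h2
  · intro u hu
    rw [Finset.mem_filter, mem_AF] at hu
    obtain ⟨hu1, hu2⟩ := hu
    rw [Finset.mem_filter, not_not, mem_AF, hins u hu2]
    refine ⟨?_, Finset.mem_insert_self _ _⟩
    rw [le_div_iff₀ hq, mul_comm] at hu1
    exact hu1
  · intro s hs
    rw [Finset.mem_filter, not_not] at hs
    exact Finset.insert_erase hs.2
  · intro u hu
    rw [Finset.mem_filter] at hu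
    exact Finset.erase_insert hu.2
  · intro s hs
    rw [Finset.mem_filter, not_not] at hs
    exact (Finset.mul_prod_erase s h' hs.2).symm

private theorem sem_ind {K : Type} [Field K] [NumberField K] (g' : Pl K → ℂ) {G' C₀ D σ : ℝ}
    (hg' : ∀ l, ‖g' l‖ ≤ G') (hG : 0 ≤ G') (hC : 1 ≤ C₀) (hD : 0 ≤ D) (b : ℕ)
    (h0 : ∀ t : Finset (Pl K), ∀ M : ℝ, 1 ≤ M →
      ‖∑ s ∈ AF K M, ∏ l ∈ s, (if l ∈ t then 0 else g' l)‖ ≤ C₀ ^ (b + t.card) * D * M ^ σ)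
    (N : Finset (Pl K)) : ∀ t : Finset (Pl K), Disjoint N t → ∀ M : ℝ, 0 < M →
      ‖∑ s ∈ AF K M, ∏ l ∈ s, (if l ∈ N ∪ t then 0 else g' l)‖ ≤
        (∏ l ∈ N, (1 + G' * C₀ * (nm l : ℝ) ^ (-σ))) * (C₀ ^ (b + t.card) * D * M ^ σ) := by
  have hC0 : 0 ≤ C₀ := by linarith
  induction N using Finset.induction_on with
  | empty =>
    intro t _ M hM
    rw [Finset.empty_union, Finset.prod_empty, one_mul]
    by_cases h1 : 1 ≤ M
    · exact h0 t M h1
    · rw [sem_small _ (not_le.1 h1), norm_zero]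
      have : 0 ≤ M ^ σ := Real.rpow_nonneg hM.le _
      positivity
  | insert l₀ N hl ih =>
    intro t ht M hM
    rw [Finset.disjoint_insert_left] at ht
    obtain ⟨ht1, ht2⟩ := ht
    have hq : (0 : ℝ) < nm l₀ := by exact_mod_cast (one_lt_nm l₀).le
    have hst := sem_step (fun l => if l ∈ insert l₀ N ∪ t then 0 else g' l)
      (fun l => if l ∈ N ∪ t then 0 else g' l) l₀ (if_pos (by simp)) (by
        intro l hne
        have : l ∈ insert l₀ N ∪ t ↔ l ∈ N ∪ t := by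
          simp [hne]
        simp only [this]) M
    have e1 : (if l₀ ∈ N ∪ t then 0 else g' l₀) = g' l₀ := if_neg (by simp [hl, ht1])
    rw [e1] at hst
    have e2 : insert l₀ N ∪ t = N ∪ insert l₀ t := by
      ext l
      simp only [Finset.mem_union, Finset.mem_insert]
      tauto
    have h1 := ih t ht2 M hM
    have h2 := ih (insert l₀ t) (Finset.disjoint_insert_right.2 ⟨hl, ht2⟩) (M / nm l₀)
      (div_pos hM hq)
    rw [← e2, Finset.card_insert_of_notMem ht1] at h2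
    obtain ⟨P, hP⟩ : ∃ P : ℝ, P = ∏ l ∈ N, (1 + G' * C₀ * (nm l : ℝ) ^ (-σ)) := ⟨_, rfl⟩
    rw [← hP] at h1 h2
    have h3 : ∑ s ∈ AF K M, ∏ l ∈ s, (if l ∈ insert l₀ N ∪ t then 0 else g' l) =
        (∑ s ∈ AF K M, ∏ l ∈ s, (if l ∈ N ∪ t then 0 else g' l)) - g' l₀ *
          ∑ s ∈ AF K (M / nm l₀), ∏ l ∈ s, (if l ∈ insert l₀ N ∪ t then 0 else g' l) := by
      rw [hst]
      ring
    rw [h3, Finset.prod_insert hl, ← hP]
    refine (norm_sub_le _ _).trans ?_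
    rw [norm_mul]
    have h4 : (M / nm l₀) ^ σ = M ^ σ * (nm l₀ : ℝ) ^ (-σ) := by
      rw [Real.div_rpow hM.le hq.le, Real.rpow_neg hq.le, div_eq_mul_inv]
    rw [h4] at h2
    have h5 := mul_le_mul (hg' l₀) h2 (norm_nonneg _) hG
    calc _ ≤ P * (C₀ ^ (b + t.card) * D * M ^ σ) +
          G' * (P * (C₀ ^ (b + (t.card + 1)) * D * (M ^ σ * (nm l₀ : ℝ) ^ (-σ)))) := add_le_add h1 h5
      _ = _ := by
          rw [← add_assoc, pow_succ]
          ring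

theorem sem (K : Type) [Field K] [NumberField K] (d : ℕ) (G : ℝ) : ∃ C₀ : ℝ, 1 ≤ C₀ ∧
    ∀ (E : Type) [Field E] [NumberField E] [Algebra K E], Module.finrank K E ≤ d →
      ∀ ψ : Ideal (𝓞 E) →*₀ ℂ, (∀ I, ‖ψ I‖ ≤ 1) →
      ∀ g : Pl K → ℂ, (∀ l, ‖g l‖ ≤ G) → ∀ B : Finset (Pl K),
        (∀ l, l ∉ B → (nm l).Prime → g l = ∑ᶠ v ∈ {v : Pl E | Over v l ∧ nm v = nm l}, ψ v.asIdeal) →
        (∀ l, l ∉ B → ¬ (nm l).Prime → g l = 0) →
      ∀ D δ : ℝ, 0 ≤ D → 0 < δ → δ ≤ 1 / 4 → (∀ M : ℝ, 1 ≤ M → ‖∑ I ∈ IN E M, ψ I‖ ≤ D * M ^ (1 - δ)) →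
        ∀ M : ℝ, 1 ≤ M → ‖∑ s ∈ AF K M, ∏ l ∈ s, g l‖ ≤ C₀ * C₀ ^ B.card * D * M ^ (1 - δ) := by
  obtain ⟨G', hG'⟩ : ∃ G' : ℝ, G' = max G d := ⟨_, rfl⟩
  have hGG : G ≤ G' := hG' ▸ le_max_left _ _
  have hGd : (d : ℝ) ≤ G' := hG' ▸ le_max_right _ _
  have hG0 : 0 ≤ G' := (Nat.cast_nonneg d).trans hGd
  obtain ⟨C₀, hC₀, hcmp⟩ := H1.LS4.cmp K 1 d G'
  have hC00 : 0 ≤ C₀ := by linarith
  have hsum := deg_summable K (σ := 3 / 4) (by norm_num)
  obtain ⟨S, hS⟩ : ∃ S : ℝ, S = ∑' v : Pl K, Set.indicator {v : Pl K | ¬ (nm v).Prime}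
    (fun v => (nm v : ℝ) ^ (-(3 / 4 : ℝ))) v := ⟨_, rfl⟩
  have hS0 : 0 ≤ S := by
    rw [hS]
    exact tsum_nonneg fun v => Set.indicator_nonneg (fun v _ => Real.rpow_nonneg (Nat.cast_nonneg _) _) v
  have hexp : 1 ≤ Real.exp (G' * C₀ * S) := Real.one_le_exp (by positivity)
  refine ⟨C₀ * Real.exp (G' * C₀ * S), one_le_mul_of_one_le_of_one_le hC₀ hexp, ?_⟩
  intro E _ _ _ hd ψ hψ g hg B hB1 hB2 D δ hD hδ hδ4 hsumψ M hM
  obtain ⟨f, hf⟩ : ∃ f : Pl K → ℂ, f = fun l =>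
    ∑ᶠ v ∈ {v : Pl E | Over v l ∧ nm v = nm l}, ψ v.asIdeal := ⟨_, rfl⟩
  have hfin : ∀ l : Pl K, {v : Pl E | Over v l ∧ nm v = nm l}.Finite := fun l =>
    (over_finite l).subset fun v hv => hv.1
  have hfd : ∀ l, ‖f l‖ ≤ G' := by
    intro l
    rw [hf]
    show ‖∑ᶠ v ∈ {v : Pl E | Over v l ∧ nm v = nm l}, ψ v.asIdeal‖ ≤ G'
    rw [finsum_mem_eq_finite_toFinset_sum _ (hfin l)]
    refine (norm_sum_le_of_le _ fun v _ => hψ v.asIdeal).trans ?_
    rw [Finset.sum_const, nsmul_eq_mul, mul_one]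
    refine le_trans ?_ hGd
    have h1 := fib K l (hfin l).toFinset (fun w hw => by
      rw [Set.Finite.mem_toFinset] at hw
      exact dn_eq K hw.1)
    exact_mod_cast h1.trans hd
  obtain ⟨g', hg'⟩ : ∃ g' : Pl K → ℂ, g' = fun l => if l ∈ B ∨ (nm l).Prime then g l else f l :=
    ⟨_, rfl⟩
  have hg'n : ∀ l, ‖g' l‖ ≤ G' := by
    intro l
    rw [hg']
    show ‖if l ∈ B ∨ (nm l).Prime then g l else f l‖ ≤ G'
    split_ifs
    · exact (hg l).trans hGG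
    · exact hfd l
  have hg'f : ∀ l, l ∉ B → g' l = f l := by
    intro l hl
    rw [hg']
    show (if l ∈ B ∨ (nm l).Prime then g l else f l) = f l
    split_ifs with h
    · rw [hB1 l hl (h.resolve_left hl), hf]
    · rfl
  have h0 : ∀ t : Finset (Pl K), ∀ M : ℝ, 1 ≤ M →
      ‖∑ s ∈ AF K M, ∏ l ∈ s, (if l ∈ t then 0 else g' l)‖ ≤
        C₀ ^ (1 + B.card + t.card) * D * M ^ (1 - δ) := by
    intro t M hM
    have h1 := hcmp E hd [ψ] (by simp) (by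
      intro ψ' hψ' I
      rw [List.mem_singleton] at hψ'
      rw [hψ']
      exact hψ I) (fun l => if l ∈ t then 0 else g' l) (by
      intro l
      show ‖if l ∈ t then 0 else g' l‖ ≤ G'
      split_ifs
      · rw [norm_zero]
        exact hG0
      · exact hg'n l) (B ∪ t) (by
      intro l hl
      rw [Finset.notMem_union] at hl
      show (if l ∈ t then 0 else g' l) = _
      rw [if_neg hl.2, hg'f l hl.1, hf, List.map_cons, List.map_nil, List.sum_cons, List.sum_nil,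
        add_zero]) D δ hD hδ hδ4 (by
      intro M' hM'
      rw [sem_cvs ψ hM']
      exact hsumψ M' hM') M hM
    refine h1.trans ?_
    have h2 : 0 ≤ M ^ (1 - δ) := Real.rpow_nonneg (by linarith) _
    refine mul_le_mul_of_nonneg_right (mul_le_mul_of_nonneg_right ?_ hD) h2
    rw [← pow_succ']
    refine pow_le_pow_right₀ hC₀ ?_
    have h3 := Finset.card_union_le B t
    omega
  obtain ⟨N, hN⟩ : ∃ N : Finset (Pl K), ∀ l, l ∈ N ↔ (nm l : ℝ) ≤ M ∧ l ∉ B ∧ ¬ (nm l).Prime := by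
    have hPfin : {l : Pl K | (nm l : ℝ) ≤ M}.Finite := by
      refine Set.Finite.of_injOn (f := fun l : Pl K => l.asIdeal) (t := ↑(IN K M)) ?_ ?_
        (Finset.finite_toSet _)
      · intro l hl
        have hl' : (nm l : ℝ) ≤ M := hl
        rw [Finset.mem_coe, mem_IN (by linarith)]
        exact ⟨hl', l.ne_bot⟩
      · intro l _ l' _ h
        exact IsDedekindDomain.HeightOneSpectrum.ext h
    refine ⟨hPfin.toFinset.filter fun l => l ∉ B ∧ ¬ (nm l).Prime, fun l => ?_⟩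
    rw [Finset.mem_filter, Set.Finite.mem_toFinset]
    rfl
  have h1 := sem_ind (σ := 1 - δ) g' hg'n hG0 hC₀ hD (1 + B.card) h0 N ∅
    (Finset.disjoint_empty_right _) M (by linarith)
  have h2 : ∑ s ∈ AF K M, ∏ l ∈ s, g l =
      ∑ s ∈ AF K M, ∏ l ∈ s, (if l ∈ N ∪ ∅ then 0 else g' l) := by
    refine Finset.sum_congr rfl fun s hs => Finset.prod_congr rfl fun l hl => ?_
    have h3 : (nm l : ℝ) ≤ M := by
      have h4 := nr_mono (Finset.singleton_subset_iff.2 hl)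
      have h5 : nr ({l} : Finset (Pl K)) = nm l := by
        unfold H63.MA.nr
        rw [Finset.prod_singleton]
      rw [h5] at h4
      exact h4.trans (mem_AF.1 hs)
    rw [Finset.union_empty]
    by_cases hl2 : l ∈ N
    · rw [if_pos hl2]
      obtain ⟨-, h6, h7⟩ := (hN l).1 hl2
      exact hB2 l h6 h7
    · rw [if_neg hl2, hg']
      show g l = if l ∈ B ∨ (nm l).Prime then g l else f l
      rw [if_pos]
      by_contra h8
      push Not at h8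
      exact hl2 ((hN l).2 ⟨h3, h8.1, h8.2⟩)
  rw [h2]
  refine h1.trans ?_
  rw [Finset.card_empty, add_zero]
  have hM0 : 0 ≤ M ^ (1 - δ) := Real.rpow_nonneg (by linarith) _
  have hprod : ∏ l ∈ N, (1 + G' * C₀ * (nm l : ℝ) ^ (-(1 - δ))) ≤ Real.exp (G' * C₀ * S) := by
    have h3 : ∀ l ∈ N, 1 + G' * C₀ * (nm l : ℝ) ^ (-(1 - δ)) ≤
        Real.exp (G' * C₀ * Set.indicator {v : Pl K | ¬ (nm v).Prime}
          (fun v => (nm v : ℝ) ^ (-(3 / 4 : ℝ))) l) := by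
      intro l hl
      obtain ⟨-, -, h7⟩ := (hN l).1 hl
      rw [Set.indicator_of_mem (show l ∈ {v : Pl K | ¬ (nm v).Prime} from h7)]
      have hq1 : (1 : ℝ) ≤ (nm l : ℝ) := by exact_mod_cast (one_lt_nm l).le
      have h8 : (nm l : ℝ) ^ (-(1 - δ)) ≤ (nm l : ℝ) ^ (-(3 / 4 : ℝ)) :=
        Real.rpow_le_rpow_of_exponent_le hq1 (by linarith)
      have h9 := mul_le_mul_of_nonneg_left h8 (mul_nonneg hG0 hC00)
      have h10 := Real.add_one_le_exp (G' * C₀ * (nm l : ℝ) ^ (-(3 / 4 : ℝ)))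
      linarith
    refine (Finset.prod_le_prod (fun l _ => by
      have := Real.rpow_nonneg (Nat.cast_nonneg (α := ℝ) (nm l)) (-(1 - δ))
      positivity) h3).trans ?_
    rw [← Real.exp_sum, ← Finset.mul_sum]
    refine Real.exp_le_exp.2 (mul_le_mul_of_nonneg_left ?_ (mul_nonneg hG0 hC00))
    rw [hS]
    exact hsum.sum_le_tsum N fun v _ =>
      Set.indicator_nonneg (fun v _ => Real.rpow_nonneg (Nat.cast_nonneg _) _) v
  have h4 : 0 ≤ C₀ ^ (1 + B.card) * D * M ^ (1 - δ) := by positivity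
  refine (mul_le_mul_of_nonneg_right hprod h4).trans ?_
  have h5 : Real.exp (G' * C₀ * S) * (C₀ ^ (1 + B.card)) ≤
      C₀ * Real.exp (G' * C₀ * S) * (C₀ * Real.exp (G' * C₀ * S)) ^ B.card := by
    have h6 : C₀ ^ B.card ≤ (C₀ * Real.exp (G' * C₀ * S)) ^ B.card :=
      pow_le_pow_left₀ hC00 (le_mul_of_one_le_right hC00 hexp) _
    have h7 : 0 ≤ C₀ * Real.exp (G' * C₀ * S) := by positivity
    calc _ = C₀ * Real.exp (G' * C₀ * S) * C₀ ^ B.card := by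
          rw [pow_add, pow_one]
          ring
      _ ≤ _ := mul_le_mul_of_nonneg_left h6 h7
  calc Real.exp (G' * C₀ * S) * (C₀ ^ (1 + B.card) * D * M ^ (1 - δ)) =
        (Real.exp (G' * C₀ * S) * (C₀ ^ (1 + B.card))) * (D * M ^ (1 - δ)) := by ring
    _ ≤ (C₀ * Real.exp (G' * C₀ * S) * (C₀ * Real.exp (G' * C₀ * S)) ^ B.card) *
        (D * M ^ (1 - δ)) := mul_le_mul_of_nonneg_right h5 (mul_nonneg hD hM0)
    _ = _ := by ring

end H57.AN
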