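import Pool.Agent.H57.AN.Cui
import Pool.Agent.H57.AN.Che

/-!
# [H57 AN ZT] The sum of `1 / nm w` with the right constant, uniform in the field (150 lines)

Let `Y ≥ 3`, `η = 1 / log Y ≤ 1`, `T = PB L Y`.
(1) `∑_{w ∈ T} 1 / nm w ≤ ∑_{w ∈ T} (nm w)^(-1-η) + η ∑_{w ∈ T} log (nm w) / nm w` (`1 - x^(-η) ≤ η log x`); the second term is `≤ 2 C` by `mer`.
(2) `x ≤ log (1 + x) + x^2` for `x ≥ 0`, so `∑_{w ∈ T} (nm w)^(-1-η) ≤ log (∏_{w ∈ T} (1 + (nm w)^(-1-η))) + C` (`sq2`).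
(3) `∏_{w ∈ T} (1 + (nm w)^(-1-η)) = ∑_{s ⊆ T} (∏_{w ∈ s} nm w)^(-1-η)` (`Finset.prod_one_add`); the ideals `idl s = ∏ w.asIdeal` are different
(`H63.MA.idl_inj`, norm `nr s`: `H63.MA.idl_norm`). Split the finite set of subsets by `j = ⌊log (nr s) / log Y⌋`: for given `j` the sum is
`≤ Y^(-j η) ∑_{N I ≤ Y^(j+1)} 1 / N I ≤ e^(-j) C (1 + log dd)^A (1 + (j+1) log Y)` (`hsu`), `Y^η = e`; the sum over `j` is `≤ C' (1 + log dd)^A log Y`
(`∑ e^(-j) (j + 2) < ∞`).
(4) So the sum is `≤ log log Y + A log (1 + log dd) + C`.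
-/

set_option autoImplicit false

open scoped NumberField
open NumberField IsDedekindDomain H63.MA H36.QA H57.TLS
open scoped Classical

noncomputable section

namespace H57.AN

private theorem zt_geo (J : ℕ) :
    ∑ j ∈ Finset.range J, ((j : ℝ) + 2) * (1 / 2 : ℝ) ^ j = 6 - (2 * J + 6) * (1 / 2 : ℝ) ^ J := by
  induction J with
  | zero => norm_num
  | succ J ih =>
    rw [Finset.sum_range_succ, ih, pow_succ]
    push_cast
    ring

private theorem zt_geo_le (J : ℕ) :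
    ∑ j ∈ Finset.range J, ((j : ℝ) + 2) * (1 / 2 : ℝ) ^ j ≤ 6 := by
  rw [zt_geo]
  have h : (0 : ℝ) ≤ (2 * J + 6) * (1 / 2 : ℝ) ^ J := by positivity
  linarith

private theorem zt_exp (j : ℕ) : Real.exp (-(j : ℝ)) ≤ (1 / 2 : ℝ) ^ j := by
  have h1 : Real.exp (-1) ≤ 1 / 2 := by
    rw [Real.exp_neg, one_div]
    refine inv_anti₀ (by norm_num) ?_
    have := Real.add_one_le_exp (1 : ℝ)
    linarith
  have h2 : Real.exp (-(j : ℝ)) = Real.exp (-1) ^ j := by
    rw [← Real.exp_nat_mul]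
    ring_nf
  rw [h2]
  exact pow_le_pow_left₀ (Real.exp_pos _).le h1 j

private theorem zt_log {t : ℝ} (ht : 0 ≤ t) : t ≤ Real.log (1 + t) + t ^ 2 := by
  have h1 : 0 < 1 + t := by linarith
  have h2 := Real.one_sub_inv_le_log_of_pos h1
  have h3 : t - t ^ 2 ≤ 1 - (1 + t)⁻¹ := by
    have h4 : 1 - (1 + t)⁻¹ = t / (1 + t) := by
      field_simp
      ring
    rw [h4, le_div_iff₀ h1]
    nlinarith [mul_nonneg ht (mul_nonneg ht ht)]
  linarith

private theorem zt_nr_pow {L : Type} [Field L] [NumberField L] (s : Finset (Pl L)) (a : ℝ) :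
    ∏ w ∈ s, (nm w : ℝ) ^ a = nr s ^ a := by
  unfold H63.MA.nr
  rw [Real.finsetProd_rpow]
  intro w _
  positivity

/-- the sum over the subsets -/
private theorem zt_sum {L : Type} [Field L] [NumberField L] {D : ℝ} (hD : 0 ≤ D)
    (hs : ∀ Y : ℝ, 1 ≤ Y → ∑ I ∈ IN L Y, (1 : ℝ) / Ideal.absNorm I ≤ D * (1 + Real.log Y))
    {Y : ℝ} (hY : 3 ≤ Y) (S : Finset (Finset (Pl L))) :
    ∑ s ∈ S, nr s ^ (-(1 + 1 / Real.log Y)) ≤ 6 * D * Real.log Y := by
  have hY0 : (0 : ℝ) < Y := by linarith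
  have hlY : 1 ≤ Real.log Y := by
    rw [Real.le_log_iff_exp_le hY0]
    exact (Real.exp_one_lt_d9.le.trans (by norm_num)).trans hY
  have hlY0 : 0 < Real.log Y := by linarith
  set g : Finset (Pl L) → ℕ := fun s => ⌊Real.log (nr s) / Real.log Y⌋₊ with hg
  have hn0 : ∀ s : Finset (Pl L), 0 < nr s := fun s => lt_of_lt_of_le one_pos (one_le_nr s)
  have hln : ∀ s : Finset (Pl L), 0 ≤ Real.log (nr s) := fun s => Real.log_nonneg (one_le_nr s)
  have hg1 : ∀ s, (g s : ℝ) * Real.log Y ≤ Real.log (nr s) := by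
    intro s
    have h := Nat.floor_le (div_nonneg (hln s) hlY0.le)
    rwa [le_div_iff₀ hlY0] at h
  have hg2 : ∀ s, Real.log (nr s) ≤ ((g s : ℝ) + 1) * Real.log Y := by
    intro s
    have h := (Nat.lt_floor_add_one (Real.log (nr s) / Real.log Y)).le
    rwa [div_le_iff₀ hlY0] at h
  have hj : ∀ j : ℕ, ∑ s ∈ S.filter (fun s => g s = j), nr s ^ (-(1 + 1 / Real.log Y)) ≤
      D * Real.log Y * (((j : ℝ) + 2) * (1 / 2 : ℝ) ^ j) := by
    intro j
    have hYj : (1 : ℝ) ≤ Y ^ (j + 1) := one_le_pow₀ (by linarith)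
    have h1 : ∑ s ∈ S.filter (fun s => g s = j), nr s ^ (-(1 + 1 / Real.log Y)) ≤
        ∑ s ∈ S.filter (fun s => g s = j), Real.exp (-(j : ℝ)) * (1 / (Ideal.absNorm (idl s) : ℝ)) := by
      refine Finset.sum_le_sum fun s hs => ?_
      have hsj := (Finset.mem_filter.1 hs).2
      have h2 := hg1 s
      rw [hsj] at h2
      rw [idl_norm, Real.rpow_def_of_pos (hn0 s)]
      have h3 : (1 : ℝ) / nr s = Real.exp (-Real.log (nr s)) := by
        rw [Real.exp_neg, Real.exp_log (hn0 s), one_div]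
      rw [h3, ← Real.exp_add]
      refine Real.exp_le_exp.2 ?_
      have h4 : (j : ℝ) ≤ Real.log (nr s) / Real.log Y := by rwa [le_div_iff₀ hlY0]
      have h5 : Real.log (nr s) * (-(1 + 1 / Real.log Y)) = -Real.log (nr s) - Real.log (nr s) / Real.log Y := by
        ring
      rw [h5]
      linarith
    have h2 : ∑ s ∈ S.filter (fun s => g s = j), Real.exp (-(j : ℝ)) * (1 / (Ideal.absNorm (idl s) : ℝ)) ≤
        Real.exp (-(j : ℝ)) * ∑ I ∈ IN L (Y ^ (j + 1)), (1 : ℝ) / Ideal.absNorm I := by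
      rw [← Finset.mul_sum]
      refine mul_le_mul_of_nonneg_left ?_ (Real.exp_pos _).le
      rw [← Finset.sum_image (f := fun I : Ideal (𝓞 L) => (1 : ℝ) / Ideal.absNorm I) (g := idl)
        (idl_inj.injOn)]
      refine Finset.sum_le_sum_of_subset_of_nonneg ?_ fun I _ _ => by positivity
      intro I hI
      obtain ⟨s, hs, rfl⟩ := Finset.mem_image.1 hI
      have hsj := (Finset.mem_filter.1 hs).2
      rw [mem_IN (by positivity), idl_norm]
      refine ⟨?_, idl_ne s⟩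
      have h3 := hg2 s
      rw [hsj] at h3
      have h4 : Real.log (nr s) ≤ Real.log (Y ^ (j + 1)) := by
        rw [Real.log_pow]
        push_cast
        exact h3
      exact (Real.log_le_log_iff (hn0 s) (by positivity)).1 h4
    have h3 := hs (Y ^ (j + 1)) hYj
    rw [Real.log_pow] at h3
    push_cast at h3
    have h4 : D * (1 + ((j : ℝ) + 1) * Real.log Y) ≤ D * Real.log Y * ((j : ℝ) + 2) := by
      have : 1 + ((j : ℝ) + 1) * Real.log Y ≤ Real.log Y * ((j : ℝ) + 2) := by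
        nlinarith
      calc D * (1 + ((j : ℝ) + 1) * Real.log Y) ≤ D * (Real.log Y * ((j : ℝ) + 2)) :=
            mul_le_mul_of_nonneg_left this hD
        _ = _ := by ring
    have h5 := h3.trans h4
    have h6 : (0 : ℝ) ≤ D * Real.log Y * ((j : ℝ) + 2) := by positivity
    calc _ ≤ _ := h1.trans h2
      _ ≤ Real.exp (-(j : ℝ)) * (D * Real.log Y * ((j : ℝ) + 2)) :=
          mul_le_mul_of_nonneg_left h5 (Real.exp_pos _).le
      _ ≤ (1 / 2 : ℝ) ^ j * (D * Real.log Y * ((j : ℝ) + 2)) :=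
          mul_le_mul_of_nonneg_right (zt_exp j) h6
      _ = _ := by ring
  set J := (S.image g).sup id + 1 with hJ
  have hmap : ∀ s ∈ S, g s ∈ Finset.range J := by
    intro s hs
    rw [Finset.mem_range, hJ, Nat.lt_succ_iff]
    exact Finset.le_sup (f := id) (Finset.mem_image_of_mem g hs)
  rw [← Finset.sum_fiberwise_of_maps_to hmap]
  calc _ ≤ ∑ j ∈ Finset.range J, D * Real.log Y * (((j : ℝ) + 2) * (1 / 2 : ℝ) ^ j) :=
        Finset.sum_le_sum fun j _ => hj j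
    _ = D * Real.log Y * ∑ j ∈ Finset.range J, (((j : ℝ) + 2) * (1 / 2 : ℝ) ^ j) := by
        rw [Finset.mul_sum]
    _ ≤ D * Real.log Y * 6 := mul_le_mul_of_nonneg_left (zt_geo_le J) (by positivity)
    _ = _ := by ring

theorem zt (n : ℕ) (hn : 0 < n) : ∃ (C : ℝ) (A : ℕ), 1 ≤ C ∧ ∀ (L : Type) [Field L] [NumberField L], TC L n →
    ∀ Y : ℝ, 3 ≤ Y → ∑ w ∈ PB L Y, (1 : ℝ) / nm w ≤
      Real.log (Real.log Y) + A * Real.log (1 + Real.log (dd L)) + C := by
  obtain ⟨C₁, hC₁, h₁⟩ := mer n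
  obtain ⟨C₂, hC₂, h₂⟩ := sq2 n
  obtain ⟨C₃, A, hC₃, h₃⟩ := hsu n hn
  have hlogC : 0 ≤ Real.log (6 * C₃) := Real.log_nonneg (by linarith)
  refine ⟨2 * C₁ + C₂ + Real.log (6 * C₃), A, by linarith, ?_⟩
  intro L _ _ hL Y hY
  have hY0 : (0 : ℝ) < Y := by linarith
  have hlY : 1 ≤ Real.log Y := by
    rw [Real.le_log_iff_exp_le hY0]
    exact (Real.exp_one_lt_d9.le.trans (by norm_num)).trans hY
  have hlY0 : 0 < Real.log Y := by linarith
  set η : ℝ := 1 / Real.log Y with hη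
  have hη0 : 0 < η := by positivity
  have hη1 : η ≤ 1 := by
    rw [hη, div_le_one hlY0]
    exact hlY
  have hnm : ∀ w : Pl L, (2 : ℝ) ≤ (nm w : ℝ) := fun w => by exact_mod_cast one_lt_nm w
  have hd1 : 1 ≤ dd L := one_le_dd L
  have hld : 0 ≤ Real.log (dd L) := Real.log_nonneg hd1
  -- (1)
  have s1 : ∑ w ∈ PB L Y, (1 : ℝ) / nm w ≤
      ∑ w ∈ PB L Y, (nm w : ℝ) ^ (-(1 + η)) + 2 * C₁ := by
    have h4 : ∀ w ∈ PB L Y, (1 : ℝ) / nm w ≤ (nm w : ℝ) ^ (-(1 + η)) + η * (Real.log (nm w) / nm w) := by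
      intro w _
      have hw := hnm w
      have hw0 : (0 : ℝ) < nm w := by linarith
      have e1 : (nm w : ℝ) ^ (-(1 + η)) = 1 / (nm w : ℝ) * Real.exp (-(η * Real.log (nm w))) := by
        rw [Real.rpow_def_of_pos hw0]
        have : (1 : ℝ) / (nm w : ℝ) = Real.exp (-Real.log (nm w)) := by
          rw [Real.exp_neg, Real.exp_log hw0, one_div]
        rw [this, ← Real.exp_add]
        congr 1
        ring
      have e2 := Real.add_one_le_exp (-(η * Real.log (nm w)))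
      have e3 : 1 / (nm w : ℝ) * (-(η * Real.log (nm w)) + 1) ≤
          1 / (nm w : ℝ) * Real.exp (-(η * Real.log (nm w))) :=
        mul_le_mul_of_nonneg_left e2 (by positivity)
      rw [e1]
      have e4 : 1 / (nm w : ℝ) * (-(η * Real.log (nm w)) + 1) = 1 / (nm w : ℝ) - η * (Real.log (nm w) / nm w) := by
        ring
      linarith
    have h5 := Finset.sum_le_sum h4
    rw [Finset.sum_add_distrib, ← Finset.mul_sum] at h5
    have h6 := h₁ L hL.2 Y (by linarith)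
    have h7 : η * ∑ w ∈ PB L Y, Real.log (nm w) / nm w ≤ 2 * C₁ := by
      calc η * ∑ w ∈ PB L Y, Real.log (nm w) / nm w ≤ η * (C₁ * (1 + Real.log Y)) :=
            mul_le_mul_of_nonneg_left h6 hη0.le
        _ = C₁ * (η + 1) := by
            rw [hη]
            field_simp
        _ ≤ C₁ * 2 := mul_le_mul_of_nonneg_left (by linarith) (by linarith)
        _ = 2 * C₁ := by ring
    linarith
  -- (2)
  have s2 : ∑ w ∈ PB L Y, (nm w : ℝ) ^ (-(1 + η)) ≤
      Real.log (∏ w ∈ PB L Y, (1 + (nm w : ℝ) ^ (-(1 + η)))) + C₂ := by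
    rw [Real.log_prod (fun w _ => by positivity)]
    have h4 : ∀ w ∈ PB L Y, (nm w : ℝ) ^ (-(1 + η)) ≤
        Real.log (1 + (nm w : ℝ) ^ (-(1 + η))) + (1 : ℝ) / (nm w : ℝ) ^ 2 := by
      intro w _
      have hw := hnm w
      have hw0 : (0 : ℝ) < nm w := by linarith
      have e1 := zt_log (t := (nm w : ℝ) ^ (-(1 + η))) (by positivity)
      have e2 : (nm w : ℝ) ^ (-(1 + η)) ≤ 1 / (nm w : ℝ) := by
        rw [one_div, ← Real.rpow_neg_one]
        exact Real.rpow_le_rpow_of_exponent_le (by linarith) (by linarith)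
      have e3 : ((nm w : ℝ) ^ (-(1 + η))) ^ 2 ≤ (1 : ℝ) / (nm w : ℝ) ^ 2 := by
        calc ((nm w : ℝ) ^ (-(1 + η))) ^ 2 ≤ (1 / (nm w : ℝ)) ^ 2 :=
              pow_le_pow_left₀ (by positivity) e2 2
          _ = _ := by rw [div_pow, one_pow]
      linarith
    have h5 := Finset.sum_le_sum h4
    rw [Finset.sum_add_distrib] at h5
    have h6 := h₂ L hL.2 (PB L Y)
    linarith
  -- (3)
  have s3 : ∏ w ∈ PB L Y, (1 + (nm w : ℝ) ^ (-(1 + η))) ≤
      6 * (C₃ * (1 + Real.log (dd L)) ^ A) * Real.log Y := by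
    rw [Finset.prod_one_add]
    have e : ∀ s ∈ (PB L Y).powerset, ∏ w ∈ s, (nm w : ℝ) ^ (-(1 + η)) = nr s ^ (-(1 + η)) :=
      fun s _ => zt_nr_pow s _
    rw [Finset.sum_congr rfl e]
    exact zt_sum (by positivity) (h₃ L hL) hY _
  -- (4)
  have s4 : Real.log (∏ w ∈ PB L Y, (1 + (nm w : ℝ) ^ (-(1 + η)))) ≤
      Real.log (6 * C₃) + A * Real.log (1 + Real.log (dd L)) + Real.log (Real.log Y) := by
    have h4 : 0 < ∏ w ∈ PB L Y, (1 + (nm w : ℝ) ^ (-(1 + η))) :=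
      Finset.prod_pos fun w _ => by positivity
    refine (Real.log_le_log h4 s3).trans (le_of_eq ?_)
    have h5 : (1 + Real.log (dd L)) ^ A ≠ 0 := pow_ne_zero _ (by linarith)
    rw [Real.log_mul (mul_ne_zero (by norm_num) (mul_ne_zero (by linarith) h5)) hlY0.ne',
      ← mul_assoc, Real.log_mul (mul_ne_zero (by norm_num) (by linarith)) h5, Real.log_pow]
  linarith

end H57.AN
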